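import Pool.Agent.Lib.DK.C.Spec

/-!
# THEOREM DK, Part C, module Bas: the ring `O`
-/

set_option autoImplicit false

noncomputable section

namespace Pool.Agent.DK.C

open Pool.Agent.MuZ Pool.Agent.DK

variable {k : ℕ}

private theorem Bas_nonneg [SqK k] (v : OO k) : v.re ^ 2 + v.im ^ 2 ≤ 2 * Nm v := by
  have h1 : (1 : ℤ) ≤ k := hk1
  unfold Nm
  nlinarith [sq_nonneg (v.re + v.im), sq_nonneg v.im]

theorem tBas : S_Bas := by
  intro k _
  refine ⟨fun v => (by have := Nm_norm v; exact_mod_cast this.symm), fun v => (conj_toC v).symm,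
    fun v u => ⟨cjO_mul v u, cjO_add v u, cjO_cjO v⟩, Nm_mul,
    fun v => ⟨(mul_cjO v).symm, Nm_cjO v, Nm_neg v⟩, ?_, ?_, ?_, ?_, fun v => toC_eq_zero⟩
  · intro v
    refine ⟨Nm_nonneg v, ⟨Nm_eq_zero, ?_⟩, Bas_nonneg v⟩
    rintro rfl
    exact Nm_zero
  · intro v u
    unfold Nm
    rw [re_mul, im_mul]
    simp only [cjO, QuadraticAlgebra.re_add, QuadraticAlgebra.im_add]
    ring
  · have hD : ((Dk k : ℕ) : ℤ) = 8 * k - 1 := Dk_cast
    have h2 : cjO (sD k) = -sD k := by
      apply ext'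
      · simp only [cjO, sD, QuadraticAlgebra.re_neg]
        norm_num
      · simp only [cjO, sD, QuadraticAlgebra.im_neg]
    have h3 : sD k * sD k = -(Dk k : OO k) := by
      apply ext'
      · rw [re_mul, QuadraticAlgebra.re_neg, re_nat, hD]
        simp only [sD]
        ring
      · rw [im_mul, QuadraticAlgebra.im_neg, im_nat]
        simp only [sD]
        ring
    refine ⟨?_, h2, h3⟩
    rw [h2, mul_neg, h3, neg_neg]
  · intro v
    have hD : ((Dk k : ℕ) : ℤ) = 8 * k - 1 := Dk_cast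
    rw [hD, re_mul, im_mul]
    simp only [sD]
    constructor <;> ring

end Pool.Agent.DK.C
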