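import Pool.Agent.Lib.DK.C.Spec

/-! # Theorem DK, part C, module C2: transformation under `Γ_1(M)` -/

set_option autoImplicit false

open Filter Topology
open scoped Pointwise

noncomputable section

namespace Pool.Agent.DK.C

open Pool.Agent.MuZ Pool.Agent.FW NumberField
open Pool.Agent.DI (io ofC io_inj exists_io io_ofC ofC_io VP MP UP TP ex sqr sqr_sq kap)

/-- The symbol of an integer which is `1` modulo `D`. -/
private theorem C2_eps {k : ℕ} [SqK k] (d : ℤ) (h : ((Dk k : ℕ) : ℤ) ∣ d - 1) :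
    eps (d : OO k) = 1 := by
  have hk0 : 0 < k := SqK.pos
  have h8 : Dk k % 8 = 7 := by unfold Dk; omega
  have ho : Odd (Dk k) := Nat.odd_iff.mpr (by omega)
  unfold eps
  rw [re_int, im_int, add_zero, jacobiSym.mul_left]
  have h1 : jacobiSym d (Dk k) = 1 := by
    have h2 : d % ((Dk k : ℕ) : ℤ) = 1 % ((Dk k : ℕ) : ℤ) :=
      Int.ModEq.symm (Int.modEq_iff_dvd.mpr h)
    rw [jacobiSym.mod_left' h2, jacobiSym.one_left]
  have h3 : jacobiSym 2 (Dk k) = 1 := by
    rw [jacobiSym.at_two ho, ZMod.χ₈_nat_eq_if_mod_eight]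
    have h4 : ¬ Dk k % 2 = 0 := by omega
    rw [if_neg h4, if_pos (Or.inr h8)]
  rw [h1, h3, one_mul]

/-- Transformation under `Γ_1(M)`, on the upper half plane. -/
theorem tC2 (hT : S_TrS) (hV : S_Val) (hR : S_Red) (hD : S_Den) (h4 : S_C4) (h2 : S_O2)
    (h6 : S_O6) : S_C2 := by
  have _ := h2
  have _ := h6
  intro k _ f M m b hFM hFB hb2 hLv a b' c d hG hd z hz
  obtain ⟨ha0, hd0, _, _, had, hden, _⟩ := hD M a b' c d hLv.three hG
  have hMa : (M : ℤ) ∣ a - 1 := by
    have h1 : a - 1 = (a * d - 1) - a * (d - 1) := by ring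
    rw [h1]
    exact dvd_sub had (Dvd.dvd.mul_left hd a)
  have hlev := hLv.dvd
  have hDM : Dk k ∣ M := by
    refine dvd_trans ?_ hlev
    unfold lev
    rw [mul_assoc]
    exact dvd_mul_right _ _
  have hfM : f ∣ M := by
    refine dvd_trans ?_ hlev
    unfold lev
    exact Dvd.dvd.mul_right (Dvd.dvd.mul_left (dvd_pow_self f two_ne_zero) _) _
  have hmM : NI m ∣ M := by
    refine dvd_trans ?_ hlev
    unfold lev
    refine Dvd.dvd.mul_left ?_ _
    refine dvd_trans ?_ (dvd_pow_self _ three_ne_zero)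
    exact dvd_mul_right _ _
  have hfa : (f : ℤ) ∣ a - 1 := dvd_trans (by exact_mod_cast hfM) hMa
  have heps : eps (d : OO k) = 1 := C2_eps d (dvd_trans (by exact_mod_cast hDM) hd)
  have hf0 : 0 < f := by have := hFM.three; omega
  have hmb : m * b ≠ ⊥ := by
    intro h
    rcases Ideal.mul_eq_bot.mp h with h | h
    · exact hFM.ne h
    · exact hFB.ne h
  have hS1 : ThS f m b a = ThM f m b := by
    funext w
    have e1 := (hR k f (m * b) hf0 hmb a).2.2.2.2.1 1 hfa w
    have e2 := (hR k f b hf0 hFB.ne a).2.2.2.2.1 1 hfa (NI m * w)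
    unfold ThS ThM
    rw [e1, e2]
  have hS2 : ∀ r : ℚ, hS f m b a r = hM f m b r := by
    intro r
    unfold hS hM
    rw [hS1]
  have hval : ∀ r : ℚ, r.den.Coprime (NI m) → hM f m b r = io (etaM f m b r) := by
    intro r hr
    have h5 := (h4 k f m b hFM hFB r.num r.den r.den_pos hr).2.1
    rw [Rat.num_div_den] at h5
    exact h5.symm
  have hT1 := hT k f M m b hFM hFB hb2 hLv a b' c d hG 1 z hz
  have hV1 := ((hV k f M m b hFM hFB hb2 hLv).2 a b' c d hG 1).2 hd0
  rw [hV1, mul_one, heps, hS1, hS2, ThS_one, hS_one] at hT1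
  have h6 : mob a b' c d z = (a * z + b') / (c * z + d) := rfl
  rw [h6] at hT1
  have h7 : (b' / d : ℚ).den.Coprime (NI m) := Nat.Coprime.coprime_dvd_right hmM hden
  have h8 : (0 : ℚ).den.Coprime (NI m) := by
    rw [Rat.den_zero]
    exact Nat.coprime_one_left _
  rw [hT1, hval _ h7, hval _ h8, map_sub]
  push_cast
  ring

end Pool.Agent.DK.C
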