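import Pool.Agent.Lib.DK.C.Spec

/-!
# Theorem DK, part C, module C4a: the limits of the values
-/

set_option autoImplicit false

open Filter Topology
open scoped Pointwise

noncomputable section

namespace Pool.Agent.DK.C

open Pool.Agent.MuZ Pool.Agent.FW NumberField
open Pool.Agent.DI (io ofC io_inj exists_io io_ofC ofC_io VP MP UP TP ex sqr sqr_sq kap)

variable {k : ℕ}

/-- `1/f` is not in `O`. -/
private theorem C4a_unit [SqK k] {f : ℕ} (hf : 3 ≤ f) :
    (1 / f : ℂ) ∉ Lam (⊤ : Ideal (OO k)) := by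
  intro h
  obtain ⟨w, hw⟩ := lam_top.1 h
  have hf0 : (f : ℂ) ≠ 0 := by
    have : f ≠ 0 := by omega
    exact_mod_cast this
  have h1 : (1 : OO k) = (f : OO k) * w := by
    apply toC_inj
    rw [toC_mul, toC_nat, ← hw, toC_one]
    field_simp
  have h2 := congrArg Nm h1
  rw [Nm_one, Nm_mul, Nm_nat] at h2
  have h3 : (f : ℤ) ∣ 1 := ⟨f * Nm w, by rw [h2]; ring⟩
  have h4 : f ∣ 1 := by exact_mod_cast h3
  have h5 := Nat.le_of_dvd one_pos h4
  omega

/-- A system for `(n)`, `b` is also a system for `(n)`, `m b`. -/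
private theorem C4a_sys (h5 : S_L5) [SqK k] {m b : Ideal (OO k)} (hm : m ≠ ⊥) (hb : b ≠ ⊥) {n : ℕ}
    (hn : 0 < n) (hmn : PrI m n) {U : Finset ℂ} (hU : IsSys (sp (n : OO k)) b U) :
    IsSys (sp (n : OO k)) (m * b) U := by
  obtain ⟨l1, l2⟩ := h5 k m b n hm hb hn hmn
  refine ⟨fun u hu => ?_, fun z hz => ?_, fun u hu u' hu' h => ?_⟩
  · exact lam_sp.2 (lam_mono (lam_sp.1 (hU.mem u hu)))
  · have h1 := lam_sp.1 hz
    rw [toC_nat] at h1
    obtain ⟨z', hz', hzz⟩ := l2 z h1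
    have h3 : z' ∈ Lam (sp (n : OO k) * b) := by
      rw [lam_sp, toC_nat]
      exact hz'
    obtain ⟨u, hu, hzu⟩ := hU.ex z' h3
    refine ⟨u, hu, ?_⟩
    have h4 := lam_add hzz (lam_mono (a := m) hzu)
    rwa [sub_add_sub_cancel] at h4
  · refine hU.uni u hu u' hu' (l1 _ ?_ h)
    rw [mul_sub, ← toC_nat (k := k) n]
    exact lam_sub (lam_sp.1 (hU.mem u hu)) (lam_sp.1 (hU.mem u' hu'))

theorem tC4a (hS : S_Spl) (hL : S_Lt) (h2 : S_O2) (h6 : S_O6) (h5 : S_L5) (hB : S_B10) : S_C4a := by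
  intro k _ f m b hm hb c n hn hnm U hU
  have hf : 0 < f := by
    have := hm.three
    omega
  have hf0 : (f : ℂ) ≠ 0 := by exact_mod_cast hf.ne'
  have hn0 : (n : ℂ) ≠ 0 := by exact_mod_cast hn.ne'
  have hmb : m * b ≠ ⊥ := mul_ne_zero (a := m) (b := b) hm.ne hb.ne
  have hNm : NI (m * b) = NI m * NI b := (h2 k).2.2.2.2.1 m b
  have hm0 : 0 < NI m := (hL k m hm.ne).1
  have hb0 : 0 < NI b := (hL k b hb.ne).1
  have hmn : PrI m n := ((h6 k).2.2.1 n m hn).2 hnm.symm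
  have hU' := C4a_sys h5 hm.ne hb.ne hn hmn hU
  have hnu : ∀ u ∈ U, (n : ℂ) * u ∈ Lam b := by
    intro u hu
    have h1 := lam_sp.1 (hU.mem u hu)
    rwa [toC_nat] at h1
  have hx : ∀ u ∈ U, 1 + f * n * u ∈ Lam (m * b) := by
    intro u hu
    refine lam_mono (lam_add (lam_anti le_top (lam_top.2 ⟨1, toC_one.symm⟩)) ?_)
    rw [mul_assoc]
    exact lam_nat f (hnu u hu)
  have hq : ∀ u ∈ U, (qN m b (1 + f * n * u) : ℝ) = (NI m : ℝ) * NI b * ‖1 + f * n * u‖ ^ 2 := by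
    intro u hu
    obtain ⟨j, hj⟩ := (hL k (m * b) hmb).2.2.2.1 _ (hx u hu)
    rw [hNm] at hj
    push_cast at hj
    unfold qN
    rw [hj, Int.floor_natCast]
    rfl
  have hz : ∀ u ∈ U, 1 / (f * n) + u ∉ Lam (m * b) ∧ Tor k (1 / (f * n) + u) := by
    intro u hu
    constructor
    · intro h
      have h1 : (1 / f : ℂ) ∈ Lam (m * b) := by
        have h3 := lam_sub (lam_nat n h) (lam_mono (a := m) (hnu u hu))
        have h4 : (n : ℂ) * (1 / (f * n) + u) - n * u = 1 / f := by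
          field_simp
          ring
        rwa [h4] at h3
      have h3 : PrI (m * b) f := ((h6 k).1 f m b).2 ⟨hm.cop, hb.cop⟩
      refine C4a_unit (k := k) hm.three ((h5 k (m * b) ⊤ f hmb top_ne_bot hf h3).1 _ ?_ ?_)
      · exact one_div_lam _ hf
      · rw [Ideal.mul_top]
        exact h1
    · refine tor_add ?_ ((tor_iff hb.ne).2 ⟨n, hn, hnu u hu⟩)
      refine ⟨1, f * n, Nat.mul_pos hf hn, ?_⟩
      rw [toC_one]
      push_cast
      rfl
  refine ⟨hq, hz, ?_⟩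
  -- the limit
  set C : ℝ := 2 * Real.pi * f ^ 2 * NI b * NI m * n ^ 2 with hC
  have hC0 : 0 < C := by
    have h1 : (0 : ℝ) < f := by exact_mod_cast hf
    have h3 : (0 : ℝ) < n := by exact_mod_cast hn
    have h4 : (0 : ℝ) < NI m := by exact_mod_cast hm0
    have h7 : (0 : ℝ) < NI b := by exact_mod_cast hb0
    have := Real.pi_pos
    positivity
  have hτ : Tendsto (fun y : ℝ => C * y) (𝓝[>] 0) (𝓝[>] 0) := by
    rw [tendsto_nhdsWithin_iff]
    constructor
    · have h : Tendsto (fun y : ℝ => C * y) (𝓝 0) (𝓝 (C * 0)) :=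
        (continuous_const.mul continuous_id).tendsto 0
      rw [mul_zero] at h
      exact h.mono_left nhdsWithin_le_nhds
    · filter_upwards [self_mem_nhdsWithin] with y hy
      exact mul_pos hC0 hy
  have hlim : Tendsto (fun y : ℝ => (n : ℂ)⁻¹ * ∑ u ∈ U, ex (c * qN m b (1 + f * n * u) / n) *
      ((KtC (m * b) (C * y) (1 / (f * n) + u) - NI m * KtC b (C * y) (1 / (f * n) + u)) / fr f b))
      (𝓝[>] 0) (𝓝 ((n : ℂ)⁻¹ * ∑ u ∈ U, ex (c * qN m b (1 + f * n * u) / n) *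
        gC f m b (1 / (f * n) + u))) := by
    refine Tendsto.const_mul _ (tendsto_finsetSum _ fun u hu => Tendsto.const_mul _ ?_)
    have hzb : 1 / (f * n) + u ∉ Lam b := fun h => (hz u hu).1 (lam_mono h)
    have t1 := ((hB k (m * b) hmb).1 _ (hz u hu).1).comp hτ
    have t2 := ((hB k b hb.ne).1 _ hzb).comp hτ
    exact (t1.sub (t2.const_mul _)).div_const _
  refine hlim.congr' ?_
  filter_upwards [self_mem_nhdsWithin] with y hy
  have e1 := hS k f n 1 (m * b) c U hf hn one_pos hmb hU' y hy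
  have e2 := hS k f n (NI m) b c U hf hn hm0 hb.ne hU y hy
  rw [Nat.cast_one, one_mul] at e1
  have hcn : (((c / n : ℚ) : ℚ) : ℂ) = (c : ℂ) / n := by push_cast; rfl
  unfold ThM
  rw [hcn, e1, e2, Finset.mul_sum, Finset.mul_sum, Finset.mul_sum, Finset.mul_sum,
    ← Finset.sum_sub_distrib, Finset.sum_div]
  refine Finset.sum_congr rfl fun u hu => ?_
  have a1 : 2 * Real.pi * y * f ^ 2 * NI (m * b) * ((1 : ℕ) : ℝ) * n ^ 2 = C * y := by
    rw [hNm, hC]
    push_cast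
    ring
  have a2 : 2 * Real.pi * y * f ^ 2 * NI b * NI m * n ^ 2 = C * y := by
    rw [hC]
    ring
  have a3 : ((qN m b (1 + f * n * u) : ℤ) : ℂ) = (NI m : ℂ) * NI b * (‖1 + f * n * u‖ : ℂ) ^ 2 := by
    have := hq u hu
    exact_mod_cast congrArg (fun t : ℝ => (t : ℂ)) this
  rw [a1, a2, a3, hNm]
  push_cast
  rw [one_mul]
  ring

end Pool.Agent.DK.C
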