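import Pool.Agent.Lib.DK.C.Spec

/-!
# Theorem DK, part C, module C5: the distribution relation for `2` on the values
-/

set_option autoImplicit false

open Filter Topology
open scoped Pointwise

noncomputable section

namespace Pool.Agent.DK.C

open Pool.Agent.MuZ Pool.Agent.FW NumberField
open Pool.Agent.DI (io ofC io_inj exists_io io_ofC ofC_io VP MP UP TP ex sqr sqr_sq kap)

/-- The denominator of a fraction divides the denominator. -/
private theorem C5_den (a : ℤ) (n : ℕ) : ((a / n : ℚ)).den ∣ n := by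
  have h := Rat.den_dvd a n
  exact_mod_cast h

private theorem C5_half {r : ℚ} {N : ℕ} (h2 : Nat.Coprime 2 N) (hr : r.den.Coprime N) :
    (r / 2).den.Coprime N ∧ ((r + 1) / 2).den.Coprime N ∧ (2 * r).den.Coprime N := by
  have hd : (r.den : ℚ) ≠ 0 := by exact_mod_cast r.den_ne_zero
  have hrr : r = r.num / r.den := (Rat.num_div_den r).symm
  have h0 : (2 * r.den).Coprime N := Nat.Coprime.mul_left h2 hr
  refine ⟨?_, ?_, ?_⟩
  · have e : r / 2 = ((r.num : ℤ) : ℚ) / ((2 * r.den : ℕ) : ℚ) := by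
      conv_lhs => rw [hrr]
      push_cast
      field_simp
    rw [e]
    exact Nat.Coprime.coprime_dvd_left (C5_den _ _) h0
  · have e : (r + 1) / 2 = ((r.num + r.den : ℤ) : ℚ) / ((2 * r.den : ℕ) : ℚ) := by
      conv_lhs => rw [hrr]
      push_cast
      field_simp
    rw [e]
    exact Nat.Coprime.coprime_dvd_left (C5_den _ _) h0
  · have e : 2 * r = ((2 * r.num : ℤ) : ℚ) / ((r.den : ℕ) : ℚ) := by
      conv_lhs => rw [hrr]
      push_cast
      ring
    rw [e]
    exact Nat.Coprime.coprime_dvd_left (C5_den _ _) hr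

/-- The vertical limits. -/
private theorem C5_lim {k : ℕ} [SqK k] (hC : S_C4) {f : ℕ} {m b : Ideal (OO k)} (hm : FM f m)
    (hb : FB f b) {r : ℚ} (hr : r.den.Coprime (NI m)) {g : ℝ → ℝ} (hg : Tendsto g (𝓝[>] 0) (𝓝[>] 0)) :
    Tendsto (fun y : ℝ => ThM f m b ((r : ℂ) + (g y : ℝ) * Complex.I)) (𝓝[>] 0)
      (𝓝 (io (etaM f m b r))) := by
  obtain ⟨h1, h2, -⟩ := hC k f m b hm hb r.num r.den r.den_pos hr
  have hrr : ((r.num : ℚ) / (r.den : ℚ)) = r := Rat.num_div_den r
  rw [hrr] at h1 h2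
  rw [h2]
  exact h1.comp hg

private theorem C5_mul {c : ℝ} (hc : 0 < c) : Tendsto (fun y : ℝ => c * y) (𝓝[>] 0) (𝓝[>] 0) := by
  refine tendsto_nhdsWithin_iff.2 ⟨?_, ?_⟩
  · have h1 : Tendsto (fun y : ℝ => c * y) (𝓝 0) (𝓝 (c * 0)) := (continuous_const_mul c).tendsto 0
    rw [mul_zero] at h1
    exact h1.mono_left nhdsWithin_le_nhds
  · filter_upwards [self_mem_nhdsWithin] with y hy
    exact mul_pos hc hy

theorem tC5 (hD : S_Dis) (hH : S_Hom) (hR : S_Red) (hC : S_C4) (h5 : S_R5) (h2 : S_O2) (h4 : S_O4)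
    (h6 : S_O6) : S_C5 := by
  intro k _ f m b hm hb h hh hfh r hr
  have hf0 : 0 < f := by have := hm.three; omega
  obtain ⟨-, -, -, -, hN2, hNb2, -, hp0, hpb0, -⟩ := h4 k
  obtain ⟨h6a, -, h6c, -⟩ := h6 k
  have hνpos : 0 < NI m := Nat.pos_of_ne_zero fun h0 => hm.ne (((h2 k).2.2.2.2.2.1 m).1 h0)
  have hν2 : (NI m).Coprime 2 := (h6c 2 m (by norm_num)).1 hm.two
  have hf2 : Nat.Coprime 2 f := (Nat.coprime_two_left).2 hm.odd
  have hmb : m * b ≠ ⊥ := mul_ne_zero hm.ne hb.ne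
  -- the ideals
  have hFB : ∀ c : Ideal (OO k), c ≠ ⊥ → NI c = 2 → FB f (c * b) := by
    intro c hc0 hc
    refine ⟨mul_ne_zero hc0 hb.ne, (h6a f c b).2 ⟨(h6c f c hf0).2 ?_, hb.cop⟩⟩
    rw [hc]
    exact hf2
  have hFp := hFB _ hp0 hN2
  have hFpb := hFB _ hpb0 hNb2
  have hcop : IsCoprime (h : ℤ) (f : ℤ) := by
    obtain ⟨j, hj⟩ := hfh
    exact ⟨2, -j, by linear_combination hj⟩
  have hhz : (h : ℤ) ≠ 0 := by exact_mod_cast hh.ne'
  have hhom : ∀ b' : Ideal (OO k), FB f b' → FB f (sp (h : OO k) * b') ∧ ∀ z : ℂ,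
      fr f b' * ThS f m b' h z = fr f (sp (h : OO k) * b') / h * ThM f m (sp (h : OO k) * b') z := by
    intro b' hb'
    have hfr : fr f b' ≠ 0 :=
      (h5 k f m b' b' hm.odd hm.three hm.ne hb'.ne hb'.ne hm.two hm.cop hb'.cop hb'.cop).1
    have h7 := fun z => (hH k f hm.odd hm.three).2.2.1 m b' hm hb' h z hhz hcop
    rw [Int.cast_natCast] at h7
    refine ⟨(h7 0).1, fun z => ?_⟩
    rw [(h7 z).2, Int.cast_natCast]
    have hh' : (h : ℂ) ≠ 0 := by exact_mod_cast hh.ne'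
    field_simp
  have hfr0 : fr f b ≠ 0 :=
    (h5 k f m b b hm.odd hm.three hm.ne hb.ne hb.ne hm.two hm.cop hb.cop hb.cop).1
  have hfrp : fr f (pp k * b) ≠ 0 :=
    (h5 k f m _ b hm.odd hm.three hm.ne hFp.ne hb.ne hm.two hm.cop hFp.cop hb.cop).1
  have hfrpb : fr f (ppb k * b) ≠ 0 :=
    (h5 k f m _ b hm.odd hm.three hm.ne hFpb.ne hb.ne hm.two hm.cop hFpb.cop hb.cop).1
  -- the identity of functions
  have hfun : ∀ z : ℂ, 0 < z.im →
      ThM f m b (z / 2) + ThM f m b ((z + 1) / 2) +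
        fr f (sp (h : OO k) * b) / fr f b / h * ThM f m (sp (h : OO k) * b) (2 * z) =
      fr f (sp (h : OO k) * (ppb k * b)) / fr f b / h * ThM f m (sp (h : OO k) * (ppb k * b)) z +
        fr f (sp (h : OO k) * (pp k * b)) / fr f b / h * ThM f m (sp (h : OO k) * (pp k * b)) z := by
    intro z hz
    have hνz : 0 < ((NI m : ℂ) * z).im := by
      rw [Complex.mul_im, Complex.natCast_re, Complex.natCast_im, zero_mul, add_zero]
      have : (0 : ℝ) < NI m := by exact_mod_cast hνpos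
      positivity
    have e1 := hD k f (m * b) h hm.odd hmb hh hfh z hz
    have e2 := hD k f b h hm.odd hb.ne hh hfh ((NI m : ℂ) * z) hνz
    -- the period
    have e3 : Tc f b 1 (NI m * ((z + 1) / 2)) = Tc f b 1 ((NI m * z + 1) / 2) := by
      obtain ⟨j, hj⟩ : ∃ j : ℕ, NI m = 2 * j + 1 := by
        have h8 : ¬ 2 ∣ NI m := by
          intro h9
          have := Nat.Coprime.eq_one_of_dvd hν2.symm h9
          omega
        exact ⟨NI m / 2, by omega⟩
      have h9 : (NI m : ℂ) * ((z + 1) / 2) = (NI m * z + 1) / 2 + ((j : ℤ) : ℂ) := by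
        rw [hj]
        push_cast
        ring
      rw [h9]
      exact (hR k f b hf0 hb.ne 1).2.2.2.1 _ (j : ℤ)
    have c1 : m * (ppb k * b) = ppb k * (m * b) := by ring
    have c2 : m * (pp k * b) = pp k * (m * b) := by ring
    have g1 : fr f b * ThM f m b (z / 2) =
        Tc f (m * b) 1 (z / 2) - NI m * Tc f b 1 (NI m * z / 2) := by
      unfold ThM
      rw [mul_div_cancel₀ _ hfr0, mul_div_assoc]
    have g2 : fr f b * ThM f m b ((z + 1) / 2) =
        Tc f (m * b) 1 ((z + 1) / 2) - NI m * Tc f b 1 ((NI m * z + 1) / 2) := by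
      unfold ThM
      rw [mul_div_cancel₀ _ hfr0, e3]
    have g3 : fr f b * ThS f m b h (2 * z) =
        Tc f (m * b) h (2 * z) - NI m * Tc f b h (2 * (NI m * z)) := by
      unfold ThS
      rw [mul_div_cancel₀ _ hfr0]
      congr 3
      ring
    have g4 : fr f (ppb k * b) * ThS f m (ppb k * b) h z =
        Tc f (ppb k * (m * b)) h z - NI m * Tc f (ppb k * b) h (NI m * z) := by
      unfold ThS
      rw [mul_div_cancel₀ _ hfrpb, c1]
    have g5 : fr f (pp k * b) * ThS f m (pp k * b) h z =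
        Tc f (pp k * (m * b)) h z - NI m * Tc f (pp k * b) h (NI m * z) := by
      unfold ThS
      rw [mul_div_cancel₀ _ hfrp, c2]
    have g3' := (hhom b hb).2 (2 * z)
    have g4' := (hhom _ hFpb).2 z
    have g5' := (hhom _ hFp).2 z
    have hsum : fr f b * ThM f m b (z / 2) + fr f b * ThM f m b ((z + 1) / 2) +
        fr f (sp (h : OO k) * b) / h * ThM f m (sp (h : OO k) * b) (2 * z) =
        fr f (sp (h : OO k) * (ppb k * b)) / h * ThM f m (sp (h : OO k) * (ppb k * b)) z +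
        fr f (sp (h : OO k) * (pp k * b)) / h * ThM f m (sp (h : OO k) * (pp k * b)) z := by
      rw [← g3', ← g4', ← g5', g1, g2, g3, g4, g5]
      linear_combination e1 - (NI m : ℂ) * e2
    have hdiv := congrArg (fun x => x / fr f b) hsum
    have e4 : (fr f b * ThM f m b (z / 2) + fr f b * ThM f m b ((z + 1) / 2) +
        fr f (sp (h : OO k) * b) / h * ThM f m (sp (h : OO k) * b) (2 * z)) / fr f b =
        ThM f m b (z / 2) + ThM f m b ((z + 1) / 2) +
        fr f (sp (h : OO k) * b) / fr f b / h * ThM f m (sp (h : OO k) * b) (2 * z) := by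
      rw [add_div, add_div, mul_div_cancel_left₀ _ hfr0, mul_div_cancel_left₀ _ hfr0]
      ring
    have e5 : (fr f (sp (h : OO k) * (ppb k * b)) / h * ThM f m (sp (h : OO k) * (ppb k * b)) z +
        fr f (sp (h : OO k) * (pp k * b)) / h * ThM f m (sp (h : OO k) * (pp k * b)) z) / fr f b =
        fr f (sp (h : OO k) * (ppb k * b)) / fr f b / h *
          ThM f m (sp (h : OO k) * (ppb k * b)) z +
        fr f (sp (h : OO k) * (pp k * b)) / fr f b / h *
          ThM f m (sp (h : OO k) * (pp k * b)) z := by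
      ring
    rw [← e4, ← e5]
    exact hdiv
  -- the limits
  obtain ⟨hr1, hr2, hr3⟩ := C5_half hν2.symm hr
  have hF1 := (hhom b hb).1
  have hF2 := (hhom _ hFpb).1
  have hF3 := (hhom _ hFp).1
  have L1 := C5_lim hC hm hb hr1 (C5_mul (c := 1 / 2) (by norm_num))
  have L2 := C5_lim hC hm hb hr2 (C5_mul (c := 1 / 2) (by norm_num))
  have L3 := C5_lim hC hm hF1 hr3 (C5_mul (c := 2) (by norm_num))
  have L4 := C5_lim hC hm hF2 hr (C5_mul (c := 1) (by norm_num))
  have L5 := C5_lim hC hm hF3 hr (C5_mul (c := 1) (by norm_num))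
  have LL := (L1.add L2).add (L3.const_mul (fr f (sp (h : OO k) * b) / fr f b / h))
  have LR := (L4.const_mul (fr f (sp (h : OO k) * (ppb k * b)) / fr f b / h)).add
    (L5.const_mul (fr f (sp (h : OO k) * (pp k * b)) / fr f b / h))
  have hev : ∀ᶠ y : ℝ in 𝓝[>] 0,
      ThM f m b (((r / 2 : ℚ) : ℂ) + ((1 / 2 * y : ℝ) : ℂ) * Complex.I) +
        ThM f m b ((((r + 1) / 2 : ℚ) : ℂ) + ((1 / 2 * y : ℝ) : ℂ) * Complex.I) +
        fr f (sp (h : OO k) * b) / fr f b / h *
          ThM f m (sp (h : OO k) * b) (((2 * r : ℚ) : ℂ) + ((2 * y : ℝ) : ℂ) * Complex.I) =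
      fr f (sp (h : OO k) * (ppb k * b)) / fr f b / h *
          ThM f m (sp (h : OO k) * (ppb k * b)) ((r : ℂ) + ((1 * y : ℝ) : ℂ) * Complex.I) +
        fr f (sp (h : OO k) * (pp k * b)) / fr f b / h *
          ThM f m (sp (h : OO k) * (pp k * b)) ((r : ℂ) + ((1 * y : ℝ) : ℂ) * Complex.I) := by
    filter_upwards [self_mem_nhdsWithin] with y hy
    have hz : 0 < ((r : ℂ) + (y : ℂ) * Complex.I).im := by
      simpa using hy
    have h9 := hfun _ hz
    have a1 : (((r / 2 : ℚ) : ℂ) + ((1 / 2 * y : ℝ) : ℂ) * Complex.I) =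
        ((r : ℂ) + (y : ℂ) * Complex.I) / 2 := by
      push_cast
      ring
    have a2 : ((((r + 1) / 2 : ℚ) : ℂ) + ((1 / 2 * y : ℝ) : ℂ) * Complex.I) =
        ((r : ℂ) + (y : ℂ) * Complex.I + 1) / 2 := by
      push_cast
      ring
    have a3 : (((2 * r : ℚ) : ℂ) + ((2 * y : ℝ) : ℂ) * Complex.I) =
        2 * ((r : ℂ) + (y : ℂ) * Complex.I) := by
      push_cast
      ring
    have a4 : ((r : ℂ) + ((1 * y : ℝ) : ℂ) * Complex.I) = (r : ℂ) + (y : ℂ) * Complex.I := by
      rw [one_mul]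
    rw [a1, a2, a3, a4]
    exact h9
  have hlim := tendsto_nhds_unique (LL.congr' hev) LR
  -- back to `Om`
  have hρ : ∀ b' : Ideal (OO k), FB f b' → io (rO f b b') = fr f b' / fr f b := fun b' hb' =>
    (h5 k f m b b' hm.odd hm.three hm.ne hb.ne hb'.ne hm.two hm.cop hb.cop hb'.cop).2.1
  have as1 : sp (h : OO k) * ppb k * b = sp (h : OO k) * (ppb k * b) := mul_assoc _ _ _
  have as2 : sp (h : OO k) * pp k * b = sp (h : OO k) * (pp k * b) := mul_assoc _ _ _
  apply io_inj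
  rw [as1, as2]
  simp only [map_add, map_mul, map_div₀, map_natCast, hρ _ hF1, hρ _ hF2, hρ _ hF3]
  exact hlim

end Pool.Agent.DK.C
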