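import Pool.Agent.Lib.DK.C.Spec
import Pool.Agent.Lib.DK.Ded

set_option autoImplicit false

/-!
# THEOREM DK (MP_d0239a_nt), Part C: `S_C6` (class functions, period, complex conjugation)
-/

open Filter Topology
open scoped Pointwise

noncomputable section

namespace Pool.Agent.DK.C

open Pool.Agent.MuZ Pool.Agent.FW NumberField
open Pool.Agent.DI (io ofC io_inj exists_io io_ofC ofC_io VP MP UP TP ex sqr sqr_sq kap)

variable {k : ℕ}

/-- Class functions. -/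
private theorem C6_ray [SqK k] (hH : S_Hom) {f : ℕ} {m b b' : Ideal (OO k)} (hm : FM f m)
    (hb : FB f b) (hb' : FB f b') (h : Ray f b b') (z : ℂ) : ThM f m b z = ThM f m b' z := by
  obtain ⟨α, α', h0, h0', c1, -, hd, he⟩ := h
  obtain ⟨β, c2, hβ⟩ := cop_inv c1
  have hβ0 : β ≠ 0 := by
    rintro rfl
    rw [mul_zero, zero_sub, dvd_neg, nat_dvd_iff, re_one] at hβ
    have h1 := Int.le_of_dvd one_pos hβ.1
    have h3 := hm.three
    omega
  have hβ' : (f : OO k) ∣ α' * β - 1 := by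
    have e : α' * β - 1 = (α * β - 1) - (α - α') * β := by ring
    rw [e]
    exact dvd_sub hβ (Dvd.dvd.mul_right hd β)
  have e1 : sp (α * β) * b = sp (α' * β) * b' := by
    have h1 : sp (α * β) = sp β * sp α := by
      rw [Ideal.span_singleton_mul_span_singleton, mul_comm β α]
    have h2 : sp (α' * β) = sp β * sp α' := by
      rw [Ideal.span_singleton_mul_span_singleton, mul_comm β α']
    rw [h1, h2, mul_assoc, mul_assoc]
    exact congrArg (fun t => sp β * t) he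
  have h1 := (hH k f hm.odd hm.three).2.2.2 m b hm hb (α * β) z (mul_ne_zero h0 hβ0) hβ
  have h2 := (hH k f hm.odd hm.three).2.2.2 m b' hm hb' (α' * β) z (mul_ne_zero h0' hβ0) hβ'
  rw [← h1, ← h2, e1]

/-- The period. -/
private theorem C6_per [SqK k] (hR : S_Red) {f : ℕ} {m b : Ideal (OO k)} (hm : FM f m)
    (hb : FB f b) (z : ℂ) : ThM f m b (z + 1) = ThM f m b z := by
  have hf : 0 < f := by
    have := hm.three
    omega
  have hmb : m * b ≠ ⊥ := by
    intro h0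
    rcases Ideal.mul_eq_bot.1 h0 with h1 | h1
    · exact hm.ne h1
    · exact hb.ne h1
  have h1 := (hR k f (m * b) hf hmb 1).2.2.2.1 z 1
  have h2 := (hR k f b hf hb.ne 1).2.2.2.1 (NI m * z) (NI m)
  rw [Int.cast_one] at h1
  rw [Int.cast_natCast] at h2
  unfold ThM
  rw [mul_add, mul_one, h1, h2]

private theorem C6_lim (f : ℕ) (m b m' b' : Ideal (OO k)) (r r' : ℚ)
    (h : ∀ y : ℝ, ThM f m b (r + y * Complex.I) = ThM f m' b' (r' + y * Complex.I)) :
    hM f m b r = hM f m' b' r' := by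
  unfold hM
  congr 1
  funext y
  exact h y

private theorem C6_cs [SqK k] (hL : S_L2) {b : Ideal (OO k)} (hb : b ≠ ⊥) (f : ℕ) :
    cs ((((1 : ℤ) : ℂ)) / f) (cjI b) = (starRingEnd ℂ) '' cs ((((1 : ℤ) : ℂ)) / f) b := by
  have h0 := (hL k).2.2.2.2.2.2.1
  have hc : (starRingEnd ℂ) ((((1 : ℤ) : ℂ)) / f) = (((1 : ℤ) : ℂ)) / f := by
    rw [map_div₀, map_intCast, map_natCast]
  ext v
  constructor
  · intro hv
    refine ⟨(starRingEnd ℂ) v, ?_, Complex.conj_conj v⟩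
    have h1 := (h0 b _ hb).1 hv
    rw [map_sub, hc] at h1
    exact h1
  · rintro ⟨u, hu, rfl⟩
    refine (h0 b _ hb).2 ?_
    rw [map_sub, hc, Complex.conj_conj]
    exact hu

private theorem C6_ne [SqK k] (h2 : S_O2) (h3 : S_O3) {b : Ideal (OO k)} (hb : b ≠ ⊥) :
    cjI b ≠ ⊥ := by
  intro h
  have h1 := ((h2 k).2.2.2.2.2.1 (cjI b)).2 h
  rw [((h3 k).2.2.1 b).2.1] at h1
  exact hb (((h2 k).2.2.2.2.2.1 b).1 h1)

private theorem C6_Tc [SqK k] (hR : S_Red) (hT : S_Tt) (h2 : S_O2) (h3 : S_O3) (hL : S_L2)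
    {f : ℕ} (hf : 0 < f) {b : Ideal (OO k)} (hb : b ≠ ⊥) (z : ℂ) :
    Tc f (cjI b) 1 (-(starRingEnd ℂ) z) = (starRingEnd ℂ) (Tc f b 1 z) := by
  rw [(hR k f (cjI b) hf (C6_ne h2 h3 hb) 1).2.2.1, (hR k f b hf hb 1).2.2.1, C6_cs hL hb f,
    hT.2.1, map_neg, Complex.conj_conj, neg_neg, ((h3 k).2.2.1 b).2.1]

private theorem C6_conj [SqK k] (hR : S_Red) (hT : S_Tt) (h2 : S_O2) (h3 : S_O3) (hL : S_L2)
    (hB : S_B12) {f : ℕ} {m b : Ideal (OO k)} (hm : FM f m) (hb : FB f b) (z : ℂ) :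
    (starRingEnd ℂ) (ThM f m b z) = ThM f (cjI m) (cjI b) (-(starRingEnd ℂ) z) := by
  have hf : 0 < f := by
    have := hm.three
    omega
  have hmb : m * b ≠ ⊥ := by
    intro h0
    rcases Ideal.mul_eq_bot.1 h0 with h1 | h1
    · exact hm.ne h1
    · exact hb.ne h1
  have e1 := C6_Tc hR hT h2 h3 hL hf hmb z
  have e2 := C6_Tc hR hT h2 h3 hL hf hb.ne (NI m * z)
  have e3 := (hB k f b hm.odd hm.three hb.ne hb.cop).2.2.2.2
  rw [map_mul, map_natCast, ← mul_neg] at e2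
  rw [(h3 k).2.1] at e1
  unfold ThM
  rw [map_div₀, map_sub, map_mul, map_natCast, e3, ← e1, ← e2, ((h3 k).2.2.1 m).2.1]

theorem tC6 (hH : S_Hom) (hR : S_Red) (hT : S_Tt) (hC : S_C4) (h2 : S_O2) (h3 : S_O3)
    (_h6 : S_O6) (hL : S_L2) (hB : S_B12) : S_C6 := by
  intro k _ f m b hm hb
  have hm' : FM f (cjI m) :=
    ⟨hm.odd, hm.three, C6_ne h2 h3 hm.ne, ((h3 k).2.2.2.2.1 m 2).2 hm.two,
      ((h3 k).2.2.2.2.1 m f).2 hm.cop⟩
  have hb' : FB f (cjI b) := ⟨C6_ne h2 h3 hb.ne, ((h3 k).2.2.2.2.1 b f).2 hb.cop⟩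
  refine ⟨?_, ?_, ?_, ?_⟩
  · intro b₁ hb₁ hr
    have h1 : ∀ z : ℂ, ThM f m b z = ThM f m b₁ z := C6_ray hH hm hb hb₁ hr
    refine ⟨h1, fun r => ?_⟩
    unfold etaM
    rw [C6_lim f m b m b₁ r r fun y => h1 _]
  · intro r
    unfold etaM
    rw [C6_lim f m b m b (r + 1) r fun y => ?_]
    have e : (((r + 1 : ℚ) : ℂ)) + y * Complex.I = (r + y * Complex.I) + 1 := by
      push_cast
      ring
    rw [e, C6_per hR hm hb]
  · exact C6_conj hR hT h2 h3 hL hB hm hb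
  · intro c hc r hr
    apply io_inj
    have hrq : (((r.num : ℤ) : ℚ) / ((r.den : ℕ) : ℚ)) = r := Rat.num_div_den r
    have hrq' : (((-r.num : ℤ) : ℚ) / ((r.den : ℕ) : ℚ)) = -r := by
      rw [Int.cast_neg, neg_div, hrq]
    obtain ⟨t1, e1, -⟩ := hC k f m b hm hb r.num r.den r.den_pos hr
    rw [hrq] at t1 e1
    have hr' : r.den.Coprime (NI (cjI m)) := by
      rw [((h3 k).2.2.1 m).2.1]
      exact hr
    obtain ⟨t2, e2, -⟩ := hC k f (cjI m) (cjI b) hm' hb' (-r.num) r.den r.den_pos hr'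
    rw [hrq'] at t2 e2
    rw [hc, e1, e2]
    have t3 := (Complex.continuous_conj.tendsto _).comp t1
    refine tendsto_nhds_unique (t3.congr fun y => ?_) t2
    change (starRingEnd ℂ) (ThM f m b ((r : ℂ) + y * Complex.I)) = _
    rw [C6_conj hR hT h2 h3 hL hB hm hb]
    congr 1
    rw [map_add, map_mul, Complex.conj_I, Complex.conj_ofReal]
    have e : (starRingEnd ℂ) (r : ℂ) = r := by
      have h4 : ((r : ℂ)) = (((r : ℝ)) : ℂ) := by push_cast; rfl
      rw [h4, Complex.conj_ofReal]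
    rw [e]
    push_cast
    ring

end Pool.Agent.DK.C
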