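import Pool.Agent.Lib.DK.C.Spec

/-!
# THEOREM DK (MP_d0239a_nt), Part C, module C8: the Galois action on the values (helper84)
-/

set_option autoImplicit false

open Filter Topology
open scoped Pointwise

noncomputable section

namespace Pool.Agent.DK.C

open Pool.Agent.MuZ Pool.Agent.FW NumberField
open Pool.Agent.DI (io ofC io_inj exists_io io_ofC ofC_io VP MP UP TP ex sqr sqr_sq kap)

private theorem C8_ex_pow (n : ℕ) (hn : 0 < n) : ex (1 / n) ^ n = 1 := by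
  have hn' : (n : ℂ) ≠ 0 := by exact_mod_cast hn.ne'
  unfold ex
  rw [← Complex.exp_nat_mul]
  have h1 : (n : ℂ) * (2 * Real.pi * Complex.I * (1 / n)) = 2 * Real.pi * Complex.I := by
    field_simp
  rw [h1, Complex.exp_two_pi_mul_I]

private theorem C8_zet_pow (n : ℕ) (hn : 0 < n) : zet n ^ n = 1 := by
  have halg : IsAlgebraic ℚ (ex (1 / n)) := by
    refine IsIntegral.isAlgebraic ?_
    refine IsIntegral.of_pow hn ?_
    rw [C8_ex_pow n hn]
    exact isIntegral_one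
  apply io_inj
  rw [map_pow, map_one]
  unfold zet
  rw [io_ofC _ halg, C8_ex_pow n hn]

variable {k : ℕ}

private theorem C8_sys [SqK k] (hL5 : S_L5) {a b : Ideal (OO k)} {n : ℕ} (ha : a ≠ ⊥) (hb : b ≠ ⊥)
    (hn : 0 < n) (hP : PrI a n) {U : Finset ℂ} (hU : IsSys (sp (n : OO k)) b U) :
    IsSys (sp (n : OO k)) (a * b) U := by
  obtain ⟨h1, h2⟩ := hL5 k a b n ha hb hn hP
  refine ⟨?_, ?_, ?_⟩
  · intro u hu
    have h := hU.mem u hu
    rw [lam_sp] at h ⊢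
    exact lam_mono h
  · intro z hz
    rw [lam_sp, toC_nat] at hz
    obtain ⟨z', hz', hzz⟩ := h2 z hz
    obtain ⟨u, hu, huz⟩ := hU.ex z' (by rw [lam_sp, toC_nat]; exact hz')
    refine ⟨u, hu, ?_⟩
    have h3 : z - u = (z - z') + (z' - u) := by ring
    rw [h3]
    exact lam_add hzz (lam_mono huz)
  · intro u hu u' hu' h
    refine hU.uni u hu u' hu' (h1 (u - u') ?_ h)
    have h3 := hU.mem u hu
    have h4 := hU.mem u' hu'
    rw [lam_sp, toC_nat] at h3 h4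
    rw [mul_sub]
    exact lam_sub h3 h4

private theorem C8_ne_mul [SqK k] (h2 : S_O2) {a b : Ideal (OO k)} (ha : a ≠ ⊥) (hb : b ≠ ⊥) :
    a * b ≠ ⊥ := by
  obtain ⟨-, -, -, -, hmul, h0, -, -⟩ := h2 k
  intro h
  have h3 := (h0 (a * b)).2 h
  rw [hmul] at h3
  rcases Nat.mul_eq_zero.1 h3 with h4 | h4
  · exact ha ((h0 a).1 h4)
  · exact hb ((h0 b).1 h4)

theorem tC8 (hC : S_C4) (hA : S_C4a) (hC6 : S_C6) (hL3 : S_L3) (hL5 : S_L5) (h2 : S_O2) (h6 : S_O6)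
    (h7 : S_O7) (hE1 : S_E1) (hE6 : S_E6) (hE10 : S_E10) : S_C8 := by
  intro k _ f m b hM hB r hr τ hτ a hP
  have hf : 0 < f := lt_of_lt_of_le (by norm_num) hM.three
  obtain ⟨-, -, -, -, hNmul, hN0, -, -⟩ := h2 k
  obtain ⟨hO61, hO62, hO63, -, -⟩ := h6 k
  have hν : 0 < NI m := Nat.pos_of_ne_zero fun h => hM.ne ((hN0 m).1 h)
  -- the rational number
  obtain ⟨c, n, hn, hrc, hcop⟩ : ∃ (c : ℤ) (n : ℕ), 0 < n ∧ r = c / n ∧ n.Coprime (NI m) :=
    ⟨r.num, r.den, r.pos, (Rat.num_div_den r).symm, hr⟩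
  have hNpos : 0 < f * n * NI m := Nat.mul_pos (Nat.mul_pos hf hn) hν
  have hfN : f ∣ f * n * NI m := Dvd.intro _ (by ring : f * (n * NI m) = f * n * NI m)
  have hnN : n ∣ f * n * NI m := Dvd.intro (f * NI m) (by ring : n * (f * NI m) = f * n * NI m)
  have hνN : NI m ∣ f * n * NI m := Dvd.intro_left _ rfl
  -- the ideal `a'`
  obtain ⟨hEex, -, -, -, hEdvd⟩ := hE1 k (f * n * NI m) hNpos
  obtain ⟨a', hPa'⟩ := hEex τ hτ
  have hPf : Psi τ f a' := hEdvd τ f a' hPa' hfN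
  have hPn : Psi τ n a' := hEdvd τ n a' hPa' hnN
  have hRay : Ray f a a' := (hE1 k f hf).2.1 τ a a' hP hPf
  have hbf : PrI b f := hB.cop
  have hFa : FB f (a * b) := ⟨C8_ne_mul h2 hP.ne hB.ne, (hO61 f a b).2 ⟨hP.cop, hbf⟩⟩
  have hFa' : FB f (a' * b) := ⟨C8_ne_mul h2 hPf.ne hB.ne, (hO61 f a' b).2 ⟨hPf.cop, hbf⟩⟩
  have hRab : Ray f (a * b) (a' * b) := by
    obtain ⟨hrefl, -, -, hmul, -⟩ := h7 k f hf
    exact hmul a a' b b hRay (hrefl b)
  rw [((hC6 k f m (a * b) hM hFa).1 (a' * b) hFa' hRab).2 r]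
  subst hrc
  -- the system
  have hspn : sp (n : OO k) ≠ ⊥ := by
    rw [Ne, Ideal.span_singleton_eq_bot]
    intro h
    have h1 := congrArg QuadraticAlgebra.re h
    rw [re_nat] at h1
    have h3 : ((n : ℤ)) = 0 := by rw [h1]; rfl
    omega
  obtain ⟨U, hU, -⟩ := (hL3 k (sp (n : OO k)) b hspn hB.ne).2.2
  have hU' : IsSys (sp (n : OO k)) (a' * b) U := C8_sys hL5 hPn.ne hB.ne hn hPn.cop hU
  obtain ⟨hq, hval⟩ := (hC k f m b hM hB c n hn hcop).2.2 U hU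
  obtain ⟨hq', hval'⟩ := (hC k f m (a' * b) hM hFa' c n hn hcop).2.2 U hU'
  rw [hval, hval', map_mul, map_inv₀, map_natCast, map_sum]
  congr 1
  refine Finset.sum_congr rfl fun u hu => ?_
  have hζ : τ (zet n) = zet n ^ NI a' := by
    refine hE6 k τ n a' hτ hn hPn (zet n) (C8_zet_pow n hn)
  -- the exponents
  have hqq : qN m (a' * b) (1 + f * n * u) = NI a' * qN m b (1 + f * n * u) := by
    have h3 := hq u hu
    have h4 := hq' u hu
    have h5 : ((qN m (a' * b) (1 + f * n * u) : ℤ) : ℝ)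
        = ((NI a' * qN m b (1 + f * n * u) : ℤ) : ℝ) := by
      rw [h4]
      push_cast
      rw [h3, hNmul]
      push_cast
      ring
    exact_mod_cast h5
  -- the function `g`
  obtain ⟨-, hE10f, -⟩ := hE10 k τ (f * n * NI m) a' hNpos hPa'
  have hn' : (n : ℂ) ≠ 0 := by exact_mod_cast hn.ne'
  have hf' : (f : ℂ) ≠ 0 := by exact_mod_cast hf.ne'
  have hnot : (1 / (f * n) + u : ℂ) ∉ Lam (m * b) :=
    ((hA k f m b hM hB c n hn hcop U hU).2.1 u hu).1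
  have hone : (1 : ℂ) ∈ Lam b := fun v _ => ⟨v, by rw [mul_one]⟩
  have hnu : (n : ℂ) * u ∈ Lam b := by
    have h3 := hU.mem u hu
    rw [lam_sp, toC_nat] at h3
    exact h3
  have hmem : ((f * n * NI m : ℕ) : ℂ) * (1 / (f * n) + u) ∈ Lam b := by
    have h3 : ((f * n * NI m : ℕ) : ℂ) * (1 / (f * n) + u)
        = (NI m : ℂ) * 1 + ((f * NI m : ℕ) : ℂ) * ((n : ℂ) * u) := by
      push_cast
      field_simp
    rw [h3]
    exact lam_add (lam_nat _ hone) (lam_nat _ hnu)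
  have hg : τ (gO f m b (1 / (f * n) + u)) = gO f m (a' * b) (1 / (f * n) + u) :=
    (hE10f f hM.odd hM.three hfN).2.2 m b hM.ne hB.ne hM.two hM.cop hbf hνN _ hmem hnot
  rw [map_mul, map_zpow₀, hζ, hg, hqq]
  congr 1
  rw [← zpow_natCast, ← zpow_mul]
  congr 1
  ring

end Pool.Agent.DK.C
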