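import Pool.Agent.Lib.DK.C.Spec

/-!
# THEOREM DK, part C, module C9: integrality at the primes above `2`
-/

set_option autoImplicit false

open Filter Topology
open scoped Pointwise

noncomputable section

namespace Pool.Agent.DK.C

open Pool.Agent.MuZ Pool.Agent.FW NumberField
open Pool.Agent.DI (io ofC io_inj exists_io io_ofC ofC_io VP MP UP TP ex sqr sqr_sq kap)

variable {k : ℕ}

private theorem C9_zet_pow (n : ℕ) (hn : 0 < n) : zet n ^ n = 1 := by
  have hn' : (n : ℂ) ≠ 0 := by exact_mod_cast hn.ne'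
  have h1 : ex (1 / n) ^ n = 1 := by
    unfold ex
    rw [← Complex.exp_nat_mul]
    have e : (n : ℂ) * (2 * Real.pi * Complex.I * (1 / n)) = 2 * Real.pi * Complex.I := by
      field_simp
    rw [e, Complex.exp_two_pi_mul_I]
  have hi : IsAlgebraic ℚ (ex (1 / n)) := by
    refine ⟨Polynomial.X ^ n - 1, ?_, ?_⟩
    · exact (Polynomial.monic_X_pow_sub_C (1 : ℚ) hn.ne').ne_zero
    · rw [map_sub, map_pow, Polynomial.aeval_X, map_one, h1, sub_self]
  apply io_inj
  rw [map_pow, map_one]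
  unfold zet
  rw [io_ofC _ hi, h1]

private theorem C9_root {P : Ideal ZZ} [P.IsPrime] {x : Om} {n : ℕ} (hn : 0 < n) (h : x ^ n = 1) :
    VP P x := by
  apply DI.VP.integral
  refine ⟨Polynomial.X ^ n - 1, ?_, ?_⟩
  · exact Polynomial.monic_X_pow_sub_C (1 : ℤ) hn.ne'
  · simp [h]

private theorem C9_odd {P : Ideal ZZ} [P.IsPrime] (h2 : MP P 2) {n : ℕ} (hn : Odd n) :
    UP P (n : Om) := by
  refine ⟨DI.VP.nat n, fun h => ?_⟩
  obtain ⟨m, hm⟩ := hn
  have e : (1 : Om) = (n : Om) - (m : Om) * 2 := by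
    rw [hm]
    push_cast
    ring
  apply DI.MP.one_not (P := P)
  rw [e]
  exact DI.MP.sub h (DI.MP.mul_left (DI.VP.nat m) h2)

private theorem C9_NI_mem (m : Ideal (OO k)) : (NI m : OO k) ∈ m := by
  rw [← Ideal.Quotient.eq_zero_iff_mem, map_natCast]
  have h := card_nsmul_eq_zero' (G := OO k ⧸ m) (x := 1)
  rw [nsmul_eq_mul, mul_one] at h
  exact h

private theorem C9_dvd {f M : ℕ} {m b : Ideal (OO k)} (h : IsLv f m {b} M) :
    Dk k ∣ M ∧ f ∣ M ∧ NI m ∣ M := by
  have h1 := h.dvd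
  unfold lev at h1
  rw [Finset.prod_singleton] at h1
  refine ⟨?_, ?_, ?_⟩
  · refine Dvd.dvd.trans ?_ h1
    exact ⟨f ^ 2 * (NI m * NI b) ^ 3, by ring⟩
  · refine Dvd.dvd.trans ?_ h1
    exact ⟨Dk k * f * (NI m * NI b) ^ 3, by ring⟩
  · refine Dvd.dvd.trans ?_ h1
    exact ⟨Dk k * f ^ 2 * NI m ^ 2 * NI b ^ 3, by ring⟩

/-- odd denominators -/
private theorem C9_main [SqK k] (h4 : S_C4) (hA : S_C4a) (hL3 : S_L3) (hD9 : S_D9) (f : ℕ)
    (m b : Ideal (OO k)) (hfm : FM f m) (hfb : FB f b) (hNm : Odd (NI m)) (c : ℤ) (n : ℕ)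
    (hn : Odd n) (hnm : n.Coprime (NI m)) (P : Ideal ZZ) (hP : Npr P) (hP2 : MP P 2) :
    VP P (etaM f m b (c / n)) := by
  have := hP.1
  have hn0 : 0 < n := hn.pos
  have hnk : sp (n : OO k) ≠ ⊥ := by
    intro h
    rw [Ideal.span_singleton_eq_bot] at h
    have h1 := congrArg QuadraticAlgebra.re h
    rw [re_nat, QuadraticAlgebra.re_zero] at h1
    omega
  obtain ⟨-, -, U, hU, -⟩ := hL3 k (sp (n : OO k)) b hnk hfb.ne
  obtain ⟨-, -, h5⟩ := h4 k f m b hfm hfb c n hn0 hnm
  obtain ⟨-, h6⟩ := h5 U hU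
  obtain ⟨-, h7, -⟩ := hA k f m b hfm hfb c n hn0 hnm U hU
  rw [h6]
  refine DI.VP.mul (DI.UP.inv (C9_odd hP2 hn)).1 (DI.VP.sum _ _ fun u hu => DI.VP.mul ?_ ?_)
  · refine C9_root (n := n) hn0 ?_
    rw [← zpow_natCast, ← zpow_mul, mul_comm, zpow_mul, zpow_natCast, C9_zet_pow n hn0, one_zpow]
  · obtain ⟨h8, h9⟩ := h7 u hu
    refine ((hD9 k f hfm.odd hfm.three P hP hP2).2.2 m b hfm.ne hfb.ne hfm.two hfm.cop hfb.cop _ h9
      ?_).1
    intro u' hu' hq
    have hodd : Odd (n * f * NI m) := (hn.mul hfm.odd).mul hNm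
    have hα : ¬ MP P (toO ((n * f * NI m : ℕ) : OO k)) := by
      rw [toO_nat]
      exact (C9_odd hP2 hodd).2
    have hnu : (n : ℂ) * u ∈ Lam b := by
      have h10 := hU.mem u hu
      rw [lam_sp, toC_nat] at h10
      exact h10
    have hone : (1 : ℂ) ∈ Lam b := fun v _ => ⟨v, mul_one _⟩
    have hνu : (NI m : ℂ) * u' ∈ Lam b := by
      have h10 := lam_prod.1 hu' _ (C9_NI_mem m)
      rwa [toC_nat] at h10
    have hfC : (f : ℂ) ≠ 0 := by
      have := hfm.three
      have h0 : f ≠ 0 := by omega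
      exact_mod_cast h0
    have hnC : (n : ℂ) ≠ 0 := by exact_mod_cast hn0.ne'
    have h11 : toC (((n * f * NI m : ℕ) : OO k) * 1) * (1 / (f * n) + u + u') ∈ Lam b := by
      have e : toC (((n * f * NI m : ℕ) : OO k) * 1) * (1 / (f * n) + u + u') =
          (NI m : ℂ) * 1 + ((f * NI m : ℕ) : ℂ) * (n * u) + ((n * f : ℕ) : ℂ) * (NI m * u') := by
        rw [mul_one, toC_nat]
        push_cast
        field_simp
      rw [e]
      exact lam_add (lam_add (lam_nat _ hone) (lam_nat _ hnu)) (lam_nat _ hνu)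
    have h12 := hq _ 1 hα h11
    rw [toC_one, one_mul] at h12
    apply h8
    have e2 : (1 / (f * n) + u : ℂ) = 1 / (f * n) + u + u' - u' := by ring
    rw [e2]
    exact lam_sub (lam_mono h12) hu'

/-- **C9.** Integrality at the primes above `2`. -/
theorem tC9 (h1 : S_C1) (h4 : S_C4) (hA : S_C4a) (hC6 : S_C6) (hL3 : S_L3) (hD9 : S_D9)
    (hD : S_Den) (_h2 : S_O2) (h6 : S_O6) : S_C9 := by
  intro k _ f M m b hfm hfb hb2 hlv r hr P hP hP2
  obtain ⟨hDM, hfM, hmM⟩ := C9_dvd hlv
  have hMo := hlv.odd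
  have hM3 := hlv.three
  have hNm : Odd (NI m) := Odd.of_dvd_nat hMo hmM
  rcases Nat.even_or_odd r.den with he | ho
  · -- even denominator
    have hc0 : IsCoprime (r.den : ℤ) ((r.num : ℤ) * M) := by
      refine IsCoprime.mul_right ?_ ?_
      · have := r.reduced
        rw [Int.isCoprime_iff_gcd_eq_one]
        rw [Int.gcd_comm]
        simpa [Int.gcd] using this
      · exact_mod_cast hr.isCoprime
    obtain ⟨x, y, hxy⟩ := hc0
    set d : ℤ := (r.den : ℤ) with hd
    have hG : G0 (M : ℤ) x r.num (-(y * M)) d := ⟨by linarith, ⟨-y, by ring⟩⟩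
    obtain ⟨c1, c2, c3⟩ := h1 k f M m b hfm hfb hb2 hlv x r.num (-(y * M)) d hG
    obtain ⟨c4, c5⟩ := c3 1 (by simp)
    obtain ⟨-, -, d3, -⟩ := hD M x r.num (-(y * M)) d hM3 hG
    -- `FB f (sp x * b)`
    have hxf : PrI (sp ((x : ℤ) : OO k)) f := by
      obtain ⟨-, -, -, q4, -⟩ := h6 k
      rw [q4 f _ (by have := hfm.three; omega)]
      unfold Cop
      rw [Nm_int]
      refine IsCoprime.pow_left ?_
      exact d3.of_isCoprime_of_dvd_right (by exact_mod_cast hfM)
    have hxb : FB f (sp ((x : ℤ) : OO k) * b) := by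
      refine ⟨mul_ne_zero ?_ hfb.ne, ((h6 k).1 f _ _).2 ⟨hxf, hfb.cop⟩⟩
      intro h
      have h3 : sp ((x : ℤ) : OO k) = ⊥ := h
      rw [Ideal.span_singleton_eq_bot] at h3
      have h5 := congrArg QuadraticAlgebra.re h3
      rw [re_int, QuadraticAlgebra.re_zero] at h5
      exact c1 h5
    have hper := (hC6 k f m _ hfm hxb).2.1 0
    rw [zero_add] at hper
    rw [hper, sub_self, mul_zero, zero_add] at c5
    have hrr : (r.num / d : ℚ) = r := by
      rw [hd]
      exact_mod_cast Rat.num_div_den r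
    rw [hrr] at c5
    rw [← c5]
    -- the new fraction
    have hco : Odd (-(y * M) + d) := by
      have hde : Even d := by
        rw [hd]
        exact_mod_cast he
      have h7 : ¬ Even (y * M) := by
        intro h8
        have h9 : Even (x * d + y * (r.num * M)) := by
          refine Even.add (hde.mul_left x) ?_
          have : y * (r.num * M) = y * M * r.num := by ring
          rw [this]
          exact h8.mul_right _
        rw [hxy] at h9
        exact absurd h9 (by decide)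
      rw [Int.not_even_iff_odd] at h7
      exact (h7.neg).add_even hde
    have hB0 : (-(y * M) + d : ℤ) ≠ 0 := by
      intro h
      rw [h] at hco
      exact absurd hco (by decide)
    set B : ℤ := -(y * M) + d with hB
    have hBn : Odd B.natAbs := Int.natAbs_odd.2 hco
    have hBc : B.natAbs.Coprime (NI m) := by
      have h8 : IsCoprime B (M : ℤ) := by
        have h9 : IsCoprime d (M : ℤ) := by
          rw [hd]
          exact_mod_cast hr.isCoprime
        have h10 : B = d + M * (-y) := by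
          rw [hB]
          ring
        rw [h10]
        exact (IsCoprime.add_mul_left_left_iff).2 h9
      have h11 : B.natAbs.Coprime M := by
        have := Int.isCoprime_iff_gcd_eq_one.1 h8
        simpa [Int.gcd, Nat.Coprime] using this
      exact Nat.Coprime.coprime_dvd_right hmM h11
    have hfin : (((x : ℚ) * 1 + r.num) / (((-(y * M) : ℤ) : ℚ) * 1 + d) : ℚ) =
        ((x + r.num) * B.sign : ℤ) / (B.natAbs : ℕ) := by
      have h12 : ((((-(y * M) : ℤ) : ℚ) * 1 + d) : ℚ) = (B : ℚ) := by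
        rw [hB]
        push_cast
        ring
      rw [h12]
      have h13 : ((B.natAbs : ℕ) : ℚ) = (B.sign : ℚ) * (B : ℚ) := by
        have h14 : ((B.natAbs : ℕ) : ℤ) = B.sign * B := by
          rw [Int.sign_mul_self_eq_natAbs]
        calc ((B.natAbs : ℕ) : ℚ) = (((B.natAbs : ℕ) : ℤ) : ℚ) := (Int.cast_natCast _).symm
          _ = ((B.sign * B : ℤ) : ℚ) := by rw [h14]
          _ = (B.sign : ℚ) * (B : ℚ) := Int.cast_mul _ _
      rw [h13]
      have h15 : (B : ℚ) ≠ 0 := by exact_mod_cast hB0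
      have h16 : (B.sign : ℚ) ≠ 0 := by
        have : B.sign ≠ 0 := by
          rw [Ne, Int.sign_eq_zero_iff_zero]
          exact hB0
        exact_mod_cast this
      push_cast
      field_simp
    rw [hfin]
    exact C9_main h4 hA hL3 hD9 f m b hfm hfb hNm _ _ hBn hBc P hP hP2
  · have e : r = ((r.num : ℤ) : ℚ) / (r.den : ℕ) := (Rat.num_div_den r).symm
    rw [e]
    exact C9_main h4 hA hL3 hD9 f m b hfm hfb hNm _ _ ho (Nat.Coprime.coprime_dvd_right hmM hr) P hP
      hP2

end Pool.Agent.DK.C
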