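import Pool.Agent.Lib.DK.C.Spec

/-!
# Theorem DK, part C, module ChR (helper47): sums over the ray class group
-/

set_option autoImplicit false

noncomputable section

namespace Pool.Agent.DK.C

open Pool.Agent.MuZ Pool.Agent.FW Pool.Agent.DK NumberField
open Pool.Agent.DI (io ofC io_inj exists_io io_ofC ofC_io VP MP UP TP ex sqr sqr_sq kap)

variable {k : ℕ}

private theorem ChR_coprime {a b : Ideal (OO k)} {N : ℕ} (ha : PrI a N) (hb : PrI b N) :
    PrI (a * b) N := by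
  unfold PrI at *
  rw [← Ideal.isCoprime_iff_sup_eq] at *
  exact ha.mul_left hb

theorem tChR (h2 : S_O2) (h6 : S_O6) (h7 : S_O7) (hC6 : S_C6) (hC9 : S_C9) : S_ChR := by
  classical
  intro k _ f M m R hFM hFR hRC hLv χ hχ
  have hf0 : 0 < f := lt_of_lt_of_le (by norm_num) hFM.three
  have hR : ∀ b ∈ R, FB f b ∧ IsLv f m {b} M := by
    intro b hb
    refine ⟨⟨(hFR b hb).1, (hFR b hb).2.1⟩, hLv.odd, hLv.three, ?_⟩
    refine dvd_trans ?_ hLv.dvd
    unfold lev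
    rw [Finset.prod_singleton]
    refine Nat.mul_dvd_mul_left _ (pow_dvd_pow_of_dvd ?_ 3)
    exact Nat.mul_dvd_mul_left _ (Finset.dvd_prod_of_mem _ hb)
  obtain ⟨j, hj, hpow⟩ := hχ.odd
  have hj0 : 0 < j := hj.pos
  have hne : ∀ b : Ideal (OO k), FB f b → χ b ≠ 0 := by
    intro b hb h0
    have h := hpow b hb.ne hb.cop
    rw [h0, zero_pow hj0.ne'] at h
    exact zero_ne_one h
  have htopF : FB f (⊤ : Ideal (OO k)) := by
    refine ⟨top_ne_bot, ?_⟩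
    unfold PrI
    exact top_sup_eq _
  have htop : χ ⊤ = 1 := by
    have h := hχ.mul ⊤ ⊤
    rw [Ideal.mul_top] at h
    exact (mul_left_cancel₀ (hne ⊤ htopF) (by rw [← h, mul_one])).symm
  refine ⟨hR, htop, fun b hb => ⟨hne b hb, ?_⟩, ?_⟩
  · intro Q hQ
    have := hQ.1
    refine DI.UP.of_pow hj0 ?_
    rw [hpow b hb.ne hb.cop]
    exact DI.UP.one
  intro c₀ hc₀
  obtain ⟨hrefl, hsymm, htrans, hmul, hcancel, -, -, -, -, -⟩ := h7 k f hf0
  have hFc : ∀ b ∈ R, FB f (c₀ * b) := fun b hb =>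
    ⟨mul_ne_zero hc₀.ne (hR b hb).1.ne, ChR_coprime hc₀.cop (hR b hb).1.cop⟩
  have hex : ∀ b : Ideal (OO k), ∃ b' : Ideal (OO k), b ∈ R → b' ∈ R ∧ Ray f (c₀ * b) b' := by
    intro b
    by_cases hb : b ∈ R
    · obtain ⟨b', hb', hray⟩ := hRC.ex (c₀ * b) (hFc b hb).ne (hFc b hb).cop
      exact ⟨b', fun _ => ⟨hb', hray⟩⟩
    · exact ⟨b, fun h => absurd h hb⟩
  choose φ hφ using hex
  have hinj : ∀ b ∈ R, ∀ b' ∈ R, φ b = φ b' → b = b' := by
    intro b hb b' hb' h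
    have h1 := (hφ b hb).2
    have h3 := (hφ b' hb').2
    rw [h] at h1
    have h4 : Ray f (c₀ * b) (c₀ * b') := htrans _ _ _ h1 (hsymm _ _ h3)
    rw [mul_comm c₀ b, mul_comm c₀ b'] at h4
    exact hRC.uni b hb b' hb' (hcancel b b' c₀ hc₀.ne hc₀.cop h4)
  have hmaps : Set.MapsTo φ (R : Set (Ideal (OO k))) R := fun b hb => (hφ b hb).1
  have hsurj : Set.SurjOn φ (R : Set (Ideal (OO k))) R :=
    Finset.surjOn_of_injOn_of_card_le φ hmaps (fun b hb b' hb' h => hinj b hb b' hb' h) le_rfl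
  have heta : ∀ b ∈ R, ∀ r : ℚ, etaM f m (c₀ * b) r = etaM f m (φ b) r := fun b hb r =>
    ((hC6 k f m (c₀ * b) hFM (hFc b hb)).1 (φ b) (hR (φ b) (hφ b hb).1).1 (hφ b hb).2).2 r
  refine ⟨?_, ?_⟩
  · intro r
    unfold etaX
    rw [Finset.mul_sum]
    refine Finset.sum_nbij φ hmaps (fun b hb b' hb' h => hinj b hb b' hb' h) hsurj ?_
    intro b hb
    have h5 : χ (c₀ * b) = χ (φ b) :=
      hχ.ray (c₀ * b) (φ b) (hFc b hb).ne (hR (φ b) (hφ b hb).1).1.ne (hFc b hb).cop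
        (hR (φ b) (hφ b hb).1).1.cop (hφ b hb).2
    rw [← mul_assoc, ← hχ.mul, h5, heta b hb r]
  · intro b hb
    refine ⟨hFc b hb, ?_⟩
    intro r hr P hP h2P
    rw [heta b hb r]
    exact hC9 k f M m (φ b) hFM (hR (φ b) (hφ b hb).1).1 (hFR (φ b) (hφ b hb).1).2.2
      (hR (φ b) (hφ b hb).1).2 r hr P hP h2P

end Pool.Agent.DK.C
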