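import Pool.Agent.Lib.DK.C.Spec

/-!
THEOREM DK, part C, module Der: derivative and growth of the functions `Th`.
-/

set_option autoImplicit false

open Filter Topology
open scoped Pointwise

noncomputable section

namespace Pool.Agent.DK.C

open Pool.Agent.MuZ Pool.Agent.FW NumberField
open Pool.Agent.DI (io ofC io_inj exists_io io_ofC ofC_io VP MP UP TP ex sqr sqr_sq kap)

private theorem Der_ex (c w : ℂ) : HasDerivAt (fun w => ex (c * w))
    (2 * Real.pi * Complex.I * c * ex (c * w)) w := by
  have h : HasDerivAt (fun w => 2 * Real.pi * Complex.I * (c * w))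
      (2 * Real.pi * Complex.I * (c * 1)) w :=
    ((hasDerivAt_id w).const_mul c).const_mul _
  have h2 := h.cexp
  have e : 2 * Real.pi * Complex.I * c * ex (c * w) =
      Complex.exp (2 * Real.pi * Complex.I * (c * w)) * (2 * Real.pi * Complex.I * (c * 1)) := by
    unfold ex
    ring
  rw [e]
  exact h2

theorem tDer (hB : S_Bas) (hS : S_Sum) : S_Der := by
  intro k _ f ρ hf hρ
  obtain ⟨b1, b2, -, -, b5, b6, -, -, -, b10⟩ := hB k
  obtain ⟨s1, s2, s3⟩ := hS k
  obtain ⟨C, hC, hCρ⟩ := s3 f ρ hf hρ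
  have hpi : 0 < Real.pi := Real.pi_pos
  have hN0 : ∀ v : OO k, (0 : ℝ) ≤ (Nm v : ℝ) := fun v => by exact_mod_cast (b6 v).1
  have hN1 : ∀ v : OO k, v ≠ 0 → (1 : ℝ) ≤ (Nm v : ℝ) := by
    intro v hv
    have h1 := (b6 v).1
    have h2 : Nm v ≠ 0 := fun h => hv ((b6 v).2.1.1 h)
    have h3 : (1 : ℤ) ≤ Nm v := by omega
    exact_mod_cast h3
  have hex : ∀ (v : OO k) (z : ℂ), ‖ex (Nm v * z)‖ = Real.exp (-(2 * Real.pi * z.im) * Nm v) := by
    intro v z
    rw [s2]
    congr 1
    have : ((Nm v : ℂ) * z).im = (Nm v : ℝ) * z.im := by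
      simp
    rw [this]
    ring
  -- the coefficients
  have hco : ∀ v : OO k, ‖ρ v / toC v‖ ≤ C := by
    intro v
    by_cases hv : v = 0
    · subst hv
      have : toC (0 : OO k) = 0 := (b10 0).2 rfl
      rw [this, div_zero, norm_zero]
      exact hC
    · rw [norm_div]
      have h1 := b1 v
      have h2 := hN1 v hv
      have h3 : 1 ≤ ‖toC v‖ := by
        by_contra h
        push Not at h
        have h4 := norm_nonneg (toC v)
        nlinarith
      exact le_trans (div_le_self (norm_nonneg _) h3) (hCρ v)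
  have hcj : ∀ v : OO k, ‖toC (cjO v)‖ ≤ (Nm v : ℝ) + 1 := by
    intro v
    have h1 := b1 (cjO v)
    rw [(b5 v).2.1] at h1
    have h4 := norm_nonneg (toC (cjO v))
    nlinarith [sq_nonneg (‖toC (cjO v)‖ - 1)]
  have hterm : ∀ v : OO k, ρ v / toC v * (2 * Real.pi * Complex.I * (Nm v : ℂ)) =
      2 * Real.pi * Complex.I * (ρ v * toC (cjO v)) := by
    intro v
    have h5 : ((Nm v : ℤ) : ℂ) = toC v * toC (cjO v) := by
      rw [← toC_mul, ← (b5 v).1, toC_int]
    by_cases hv : toC v = 0
    · have h6 : toC (cjO v) = 0 := by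
        rw [b2, hv, map_zero]
      rw [h6, hv]
      simp
    · rw [h5]
      field_simp
  -- summability of the terms
  have hsum : ∀ z : ℂ, 0 < z.im → Summable fun v : OO k => ρ v / toC v * ex (Nm v * z) := by
    intro z hz
    have h1 := (s1 (2 * Real.pi * z.im) 0 (by positivity)).mul_left C
    refine Summable.of_norm_bounded h1 ?_
    intro v
    rw [norm_mul, hex, pow_zero, one_mul]
    exact mul_le_mul_of_nonneg_right (hco v) (Real.exp_pos _).le
  refine ⟨?_, hsum, ?_⟩
  · intro z hz
    have hδ : 0 < z.im / 2 := by positivity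
    have hopen : IsOpen {w : ℂ | z.im / 2 < w.im} :=
      isOpen_lt continuous_const Complex.continuous_im
    have hconv : Convex ℝ {w : ℂ | z.im / 2 < w.im} := convex_halfSpace_im_gt _
    have hu := ((s1 (2 * Real.pi * (z.im / 2)) 1 (by positivity)).mul_left (2 * Real.pi * C))
    have hz' : z ∈ {w : ℂ | z.im / 2 < w.im} := by
      change z.im / 2 < z.im
      linarith
    have hmain := hasDerivAt_tsum_of_isPreconnected
      (g := fun (v : OO k) (w : ℂ) => ρ v / toC v * ex (Nm v * w))
      (g' := fun (v : OO k) (w : ℂ) => 2 * Real.pi * Complex.I * (ρ v * toC (cjO v) * ex (Nm v * w)))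
      hu hopen hconv.isPreconnected (by
        intro v w _
        have h1 := (Der_ex (Nm v : ℂ) w).const_mul (ρ v / toC v)
        have e : 2 * Real.pi * Complex.I * (ρ v * toC (cjO v) * ex (Nm v * w)) =
            ρ v / toC v * (2 * Real.pi * Complex.I * (Nm v : ℂ) * ex (Nm v * w)) := by
          rw [← mul_assoc (ρ v / toC v), hterm v]
          ring
        rw [e]
        exact h1) (by
        intro v w hw
        have hw' : z.im / 2 < w.im := hw
        have e1 : ‖(2 * Real.pi * Complex.I : ℂ)‖ = 2 * Real.pi := by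
          rw [norm_mul, norm_mul, Complex.norm_I, mul_one, Complex.norm_real, Complex.norm_ofNat,
            Real.norm_of_nonneg hpi.le]
        have e0 : ‖2 * Real.pi * Complex.I * (ρ v * toC (cjO v) * ex (Nm v * w))‖ =
            2 * Real.pi * (‖ρ v‖ * ‖toC (cjO v)‖ * Real.exp (-(2 * Real.pi * w.im) * Nm v)) := by
          rw [norm_mul (2 * Real.pi * Complex.I : ℂ), e1, norm_mul, norm_mul, hex]
        rw [e0, pow_one]
        have e2 : Real.exp (-(2 * Real.pi * w.im) * Nm v) ≤
            Real.exp (-(2 * Real.pi * (z.im / 2)) * Nm v) := by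
          apply Real.exp_le_exp.mpr
          have h2 : (2 * Real.pi * (z.im / 2)) * (Nm v : ℝ) ≤ (2 * Real.pi * w.im) * Nm v := by
            apply mul_le_mul_of_nonneg_right _ (hN0 v)
            apply mul_le_mul_of_nonneg_left hw'.le
            positivity
          linarith
        have e3 : ‖ρ v‖ * ‖toC (cjO v)‖ ≤ C * ((Nm v : ℝ) + 1) :=
          mul_le_mul (hCρ v) (hcj v) (norm_nonneg _) hC
        have e4 : ‖ρ v‖ * ‖toC (cjO v)‖ * Real.exp (-(2 * Real.pi * w.im) * Nm v) ≤
            C * ((Nm v : ℝ) + 1) * Real.exp (-(2 * Real.pi * (z.im / 2)) * Nm v) :=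
          mul_le_mul e3 e2 (Real.exp_pos _).le (by
            have := hN0 v
            positivity)
        calc 2 * Real.pi * (‖ρ v‖ * ‖toC (cjO v)‖ * Real.exp (-(2 * Real.pi * w.im) * Nm v))
            ≤ 2 * Real.pi * (C * ((Nm v : ℝ) + 1) *
              Real.exp (-(2 * Real.pi * (z.im / 2)) * Nm v)) :=
              mul_le_mul_of_nonneg_left e4 (by positivity)
          _ = 2 * Real.pi * C * (((Nm v : ℝ) + 1) *
              Real.exp (-(2 * Real.pi * (z.im / 2)) * Nm v)) := by ring)
      hz' (hsum z hz) hz'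
    have h3 := hmain.const_mul (1 / 2 : ℂ)
    have e5 : 2 * Real.pi * Complex.I * Gt ρ z = 1 / 2 *
        ∑' v : OO k, 2 * Real.pi * Complex.I * (ρ v * toC (cjO v) * ex (Nm v * z)) := by
      unfold Gt
      rw [tsum_mul_left]
      ring
    rw [e5]
    exact h3
  · have hS1 := s1 (2 * Real.pi) 0 (by positivity)
    refine ⟨1 / 2 * (C * Real.exp (2 * Real.pi) *
      ∑' v : OO k, ((Nm v : ℝ) + 1) ^ 0 * Real.exp (-(2 * Real.pi) * Nm v)), ?_⟩
    intro z hz
    have hz0 : 0 < z.im := by linarith
    have hbd : ∀ v : OO k, ‖ρ v / toC v * ex (Nm v * z)‖ ≤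
        C * Real.exp (2 * Real.pi) * Real.exp (-2 * Real.pi * z.im) *
          (((Nm v : ℝ) + 1) ^ 0 * Real.exp (-(2 * Real.pi) * Nm v)) := by
      intro v
      by_cases hv : v = 0
      · subst hv
        have : toC (0 : OO k) = 0 := (b10 0).2 rfl
        rw [this, div_zero, zero_mul, norm_zero]
        have := hN0 0
        positivity
      · rw [norm_mul, hex, pow_zero, one_mul]
        have e6 : Real.exp (-(2 * Real.pi * z.im) * Nm v) ≤
            Real.exp (2 * Real.pi) * Real.exp (-2 * Real.pi * z.im) *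
              Real.exp (-(2 * Real.pi) * Nm v) := by
          rw [← Real.exp_add, ← Real.exp_add]
          apply Real.exp_le_exp.mpr
          have h7 := hN1 v hv
          have h8 : 0 ≤ (z.im - 1) * ((Nm v : ℝ) - 1) := mul_nonneg (by linarith) (by linarith)
          nlinarith
        calc ‖ρ v / toC v‖ * Real.exp (-(2 * Real.pi * z.im) * Nm v)
            ≤ C * (Real.exp (2 * Real.pi) * Real.exp (-2 * Real.pi * z.im) *
              Real.exp (-(2 * Real.pi) * Nm v)) :=
              mul_le_mul (hco v) e6 (Real.exp_pos _).le hC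
          _ = C * Real.exp (2 * Real.pi) * Real.exp (-2 * Real.pi * z.im) *
              Real.exp (-(2 * Real.pi) * Nm v) := by ring
    have h9 := tsum_of_norm_bounded (hS1.mul_left
      (C * Real.exp (2 * Real.pi) * Real.exp (-2 * Real.pi * z.im))).hasSum hbd
    rw [tsum_mul_left] at h9
    unfold Th
    rw [norm_mul]
    have e7 : ‖(1 / 2 : ℂ)‖ = 1 / 2 := by
      rw [norm_div, norm_one, Complex.norm_ofNat]
    rw [e7]
    calc 1 / 2 * ‖∑' v : OO k, ρ v / toC v * ex (Nm v * z)‖ ≤ 1 / 2 *
        (C * Real.exp (2 * Real.pi) * Real.exp (-2 * Real.pi * z.im) *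
          ∑' v : OO k, ((Nm v : ℝ) + 1) ^ 0 * Real.exp (-(2 * Real.pi) * Nm v)) :=
          mul_le_mul_of_nonneg_left h9 (by norm_num)
      _ = _ := by ring

end Pool.Agent.DK.C
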