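import Pool.Agent.Lib.DK.C.Spec
import Pool.Agent.Lib.DK.Ded

/-!
# THEOREM DK, Part C, module C/Dis: the distribution relation for `2`

After the docstring of `S_Dis`; the ideal `J` is `x b`.
-/

set_option autoImplicit false

open Filter Topology
open scoped Pointwise

noncomputable section

namespace Pool.Agent.DK.C

open Pool.Agent.MuZ Pool.Agent.FW NumberField
open Pool.Agent.DI (io ofC io_inj exists_io io_ofC ofC_io VP MP UP TP ex sqr sqr_sq kap)

private lemma Dis_ex_add (x y : ℂ) : ex (x + y) = ex x * ex y := by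
  unfold ex
  rw [← Complex.exp_add]
  ring_nf

private lemma Dis_ex_int (n : ℤ) : ex n = 1 := by
  unfold ex
  rw [Complex.exp_eq_one_iff]
  exact ⟨n, by ring⟩

private lemma Dis_ex_half : ex (1 / 2) = -1 := by
  unfold ex
  rw [show 2 * (Real.pi : ℂ) * Complex.I * (1 / 2) = Real.pi * Complex.I by ring, Complex.exp_pi_mul_I]

private lemma Dis_ex_even (m : ℕ) (h : Even m) : ex ((m : ℂ) / 2) = 1 := by
  obtain ⟨j, rfl⟩ := h
  rw [show (((j + j : ℕ) : ℂ)) / 2 = ((j : ℤ) : ℂ) by push_cast; ring, Dis_ex_int]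

private lemma Dis_ex_odd (m : ℕ) (h : ¬ Even m) : ex ((m : ℂ) / 2) = -1 := by
  obtain ⟨j, rfl⟩ := Nat.not_even_iff_odd.1 h
  rw [show (((2 * j + 1 : ℕ) : ℂ)) / 2 = ((j : ℤ) : ℂ) + 1 / 2 by push_cast; ring, Dis_ex_add,
    Dis_ex_int, Dis_ex_half, one_mul]

section

variable {k : ℕ} [SqK k]

/-- The ideal `x b`. -/
private def Dis_J (b : Ideal (OO k)) (x : ℂ) : Ideal (OO k) where
  carrier := {w | ∃ c ∈ b, toC w = toC c * x}
  add_mem' := by
    rintro w w' ⟨c, hc, h⟩ ⟨c', hc', h'⟩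
    exact ⟨c + c', b.add_mem hc hc', by rw [toC_add, toC_add, h, h']; ring⟩
  zero_mem' := ⟨0, b.zero_mem, by rw [toC_zero, zero_mul]⟩
  smul_mem' := by
    rintro r w ⟨c, hc, h⟩
    exact ⟨r * c, b.mul_mem_left r hc, by rw [smul_eq_mul, toC_mul, h, toC_mul]; ring⟩

private lemma Dis_mem {b : Ideal (OO k)} {x : ℂ} {w : OO k} :
    w ∈ Dis_J b x ↔ ∃ c ∈ b, toC w = toC c * x := Iff.rfl

/-- `n ‖x‖²` is the norm of `x b`. -/
private lemma Dis_norm (h2 : S_O2) {b : Ideal (OO k)} (hn : 0 < NI b) {x : ℂ}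
    (hx : x ∈ Lam b) {u : OO k} (hu : x = toC u / NI b) :
    (NI b : ℝ) * ‖x‖ ^ 2 = NI (Dis_J b x) := by
  obtain ⟨-, -, -, hsp, hmul, -, -, -⟩ := h2 k
  set n := NI b with hnd
  have hn0 : (n : ℂ) ≠ 0 := by exact_mod_cast hn.ne'
  have key : ∀ c w : OO k, toC w = toC c * x ↔ (n : OO k) * w = u * c := by
    intro c w
    constructor
    · intro h
      apply toC_inj
      rw [toC_mul, toC_mul, toC_nat, h, hu]
      field_simp
    · intro h
      have h1 := congrArg toC h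
      rw [toC_mul, toC_mul, toC_nat] at h1
      rw [hu]
      field_simp
      linear_combination h1
  have hid : sp u * b = sp (n : OO k) * Dis_J b x := by
    apply le_antisymm
    · rw [Ideal.mul_le]
      intro r hr c hc
      obtain ⟨t, rfl⟩ := Ideal.mem_span_singleton'.1 hr
      obtain ⟨w, hw⟩ := hx c hc
      have h1 := (key c w).1 hw.symm
      have h3 : t * u * c = (t * (n : OO k)) * w := by
        rw [mul_assoc, mul_assoc, h1]
      rw [h3]
      exact Ideal.mul_mem_mul (Ideal.mem_span_singleton'.2 ⟨t, rfl⟩) ⟨c, hc, hw.symm⟩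
    · rw [Ideal.mul_le]
      rintro r hr w ⟨c, hc, hw⟩
      obtain ⟨t, rfl⟩ := Ideal.mem_span_singleton'.1 hr
      have h1 := (key c w).1 hw
      have h3 : t * (n : OO k) * w = (t * u) * c := by
        rw [mul_assoc, mul_assoc, h1]
      rw [h3]
      exact Ideal.mul_mem_mul (Ideal.mem_span_singleton'.2 ⟨t, rfl⟩) hc
  have h1 : (NI (sp u) : ℤ) * NI b = (NI (sp (n : OO k)) : ℤ) * NI (Dis_J b x) := by
    have := congrArg NI hid
    rw [hmul, hmul] at this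
    exact_mod_cast this
  rw [hsp, hsp, Nm_nat, ← hnd] at h1
  have h3 : (Nm u : ℤ) = n * NI (Dis_J b x) := by
    have hnz : (n : ℤ) ≠ 0 := by exact_mod_cast hn.ne'
    apply mul_right_cancel₀ hnz
    rw [h1]
    ring
  have h4 : ‖x‖ ^ 2 = (Nm u : ℝ) / (n : ℝ) ^ 2 := by
    rw [hu, norm_div, div_pow, ← Nm_norm, Complex.norm_natCast]
  have hnr : (n : ℝ) ≠ 0 := by exact_mod_cast hn.ne'
  rw [h4, h3]
  push_cast
  field_simp

omit [SqK k] in
/-- `2 ∣ h w` for all `h` in `P'`, `P P' = (2)`. -/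
private lemma Dis_cancel {P P' : Ideal (OO k)} (hm : P * P' = sp (2 : OO k)) (hP : P.IsPrime)
    {h0 : OO k} (h1 : h0 ∈ P') (h2 : h0 ∉ P) (w : OO k) :
    (∀ h ∈ P', (2 : OO k) ∣ h * w) ↔ w ∈ P := by
  constructor
  · intro h
    have h3 : h0 * w ∈ P := by
      have h4 : h0 * w ∈ P * P' := by
        rw [hm]
        exact Ideal.mem_span_singleton.2 (h h0 h1)
      exact (Ideal.mul_le.2 (fun r hr s _ => P.mul_mem_right s hr) : P * P' ≤ P) h4
    exact (hP.mem_or_mem h3).resolve_left h2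
  · intro hw h hh
    have h4 : w * h ∈ P * P' := Ideal.mul_mem_mul hw hh
    rw [hm] at h4
    obtain ⟨t, ht⟩ := Ideal.mem_span_singleton.1 h4
    exact ⟨t, (mul_comm h w).trans ht⟩

private lemma Dis_half {P P' : Ideal (OO k)} (hm : P * P' = sp (2 : OO k)) (hP : P.IsPrime)
    {h0 : OO k} (h1 : h0 ∈ P') (h2 : h0 ∉ P) {b : Ideal (OO k)} {x : ℂ} (hx : x ∈ Lam b) :
    Dis_J b x ≤ P ↔ x / 2 ∈ Lam (P' * b) := by
  rw [lam_prod]
  constructor
  · intro hJ h hh c hc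
    obtain ⟨w, hw⟩ := hx c hc
    obtain ⟨u', hu'⟩ := (Dis_cancel hm hP h1 h2 w).2 (hJ ⟨c, hc, hw.symm⟩) h hh
    refine ⟨u', ?_⟩
    have h3 := congrArg toC hu'
    rw [toC_mul, toC_mul, toC_two, ← hw] at h3
    linear_combination h3 / 2
  · rintro hL w ⟨c, hc, hw⟩
    rw [← Dis_cancel hm hP h1 h2 w]
    intro h hh
    obtain ⟨u', hu'⟩ := hL h hh c hc
    refine ⟨u', ?_⟩
    apply toC_inj
    rw [toC_mul, toC_mul, toC_two, hw]
    linear_combination 2 * hu'

private lemma Dis_par (h2 : S_O2) (h4 : S_O4) (J : Ideal (OO k)) :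
    Even (NI J) ↔ J ≤ pp k ∨ J ≤ ppb k := by
  obtain ⟨-, -, -, hsp, hmul, -, -, -⟩ := h2 k
  obtain ⟨-, -, -, -, hN1, hN2, -, -, -, hm1, hm2⟩ := h4 k
  constructor
  · intro he
    by_contra hc
    push Not at hc
    obtain ⟨hc1, hc2⟩ := hc
    obtain ⟨a, ha, ha'⟩ := SetLike.not_le_iff_exists.1 hc1
    obtain ⟨c, hc, hc'⟩ := SetLike.not_le_iff_exists.1 hc2
    rw [hm1] at ha'
    rw [hm2] at hc'
    have hj : (1 - wI k) * a + wI k * c ∈ J :=
      J.add_mem (J.mul_mem_left _ ha) (J.mul_mem_left _ hc)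
    have hre : ((1 - wI k) * a + wI k * c).re = a.re + 2 * k * a.im - 2 * k * c.im := by
      have e1 : ((1 - wI k) * a + wI k * c).re = ((1 - wI k) * a).re + (wI k * c).re := rfl
      have e2 : (1 - wI k : OO k).re = 1 := by
        have : (1 - wI k : OO k).re = (1 : OO k).re - (wI k).re := rfl
        rw [this, re_one]; rfl
      have e3 : (1 - wI k : OO k).im = -1 := by
        have : (1 - wI k : OO k).im = (1 : OO k).im - (wI k).im := rfl
        rw [this, im_one]; rfl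
      have e4 : (wI k : OO k).re = 0 := rfl
      have e5 : (wI k : OO k).im = 1 := rfl
      rw [e1, re_mul, re_mul, e2, e3, e4, e5]
      ring
    have him : ((1 - wI k) * a + wI k * c).im = c.re + c.im - a.re := by
      have e1 : ((1 - wI k) * a + wI k * c).im = ((1 - wI k) * a).im + (wI k * c).im := rfl
      have e2 : (1 - wI k : OO k).re = 1 := by
        have : (1 - wI k : OO k).re = (1 : OO k).re - (wI k).re := rfl
        rw [this, re_one]; rfl
      have e3 : (1 - wI k : OO k).im = -1 := by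
        have : (1 - wI k : OO k).im = (1 : OO k).im - (wI k).im := rfl
        rw [this, im_one]; rfl
      have e4 : (wI k : OO k).re = 0 := rfl
      have e5 : (wI k : OO k).im = 1 := rfl
      rw [e1, im_mul, im_mul, e2, e3, e4, e5]
      ring
    set j := (1 - wI k) * a + wI k * c with hjd
    have hle : sp j ≤ J := by
      rw [Ideal.span_singleton_le_iff_mem]
      exact hj
    obtain ⟨J', hJ'⟩ := Ideal.dvd_iff_le.2 hle
    have hN := congrArg NI hJ'
    rw [hmul] at hN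
    have hN' : (Nm j : ℤ) = NI J * NI J' := by
      rw [← hsp, hN]
      push_cast
      ring
    obtain ⟨r, hr⟩ := he
    have h5 : (2 : ℤ) ∣ Nm j := ⟨r * NI J', by rw [hN', hr]; push_cast; ring⟩
    have h6 : Nm j = j.re ^ 2 + j.re * j.im + 2 * k * j.im ^ 2 := rfl
    have h7 : ¬ (2 : ℤ) ∣ j.re := by
      rw [hre]
      intro h
      apply ha'
      obtain ⟨y, hy⟩ := h
      exact ⟨y - k * a.im + k * c.im, by linear_combination hy⟩
    have h8 : (2 : ℤ) ∣ j.im := by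
      rw [him]
      omega
    obtain ⟨y, hy⟩ := h8
    obtain ⟨y', hy'⟩ := h5
    apply h7
    have h9 : (2 : ℤ) ∣ j.re ^ 2 := ⟨y' - j.re * y - k * j.im ^ 2, by
      rw [h6] at hy'
      rw [hy] at hy' ⊢
      linear_combination hy'⟩
    exact Int.prime_two.dvd_of_dvd_pow h9
  · rintro (hJ | hJ)
    · obtain ⟨J', hJ'⟩ := Ideal.dvd_iff_le.2 hJ
      rw [hJ', hmul, hN1]
      exact even_two_mul _
    · obtain ⟨J', hJ'⟩ := Ideal.dvd_iff_le.2 hJ
      rw [hJ', hmul, hN2]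
      exact even_two_mul _

private lemma Dis_int (b : Ideal (OO k)) (g : ℤ) : (g : ℂ) ∈ Lam b := fun v _ =>
  ⟨v * (g : OO k), by rw [toC_mul, toC_int]⟩

private lemma Dis_set {f h : ℕ} (hf : Odd f) {g : ℤ} (hg : 2 * (h : ℤ) - 1 = f * g)
    (a b : Ideal (OO k)) (h2 : (2 : OO k) ∈ a) (v : ℂ) :
    v ∈ (fun v : ℂ => 2 * v) '' cs (((h : ℤ) : ℂ) / f) (a * b) ↔
      v ∈ cs (((1 : ℤ) : ℂ) / f) b ∧ (f * v) / 2 ∈ Lam (a * b) := by
  have hf0 : (f : ℂ) ≠ 0 := by
    have : f ≠ 0 := by rintro rfl; exact absurd hf (by decide)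
    exact_mod_cast this
  have hg' : 2 * (h : ℂ) - 1 = f * g := by exact_mod_cast congrArg (Int.cast : ℤ → ℂ) hg
  constructor
  · rintro ⟨v', hv', rfl⟩
    have hy : v' - ((h : ℤ) : ℂ) / f ∈ Lam (a * b) := hv'
    have h3 : toC (2 : OO k) * (v' - ((h : ℤ) : ℂ) / f) ∈ Lam b := lam_prod.1 hy 2 h2
    rw [toC_two] at h3
    refine ⟨?_, ?_⟩
    · show 2 * v' - ((1 : ℤ) : ℂ) / f ∈ Lam b
      have e : 2 * v' - ((1 : ℤ) : ℂ) / f = 2 * (v' - ((h : ℤ) : ℂ) / f) + (g : ℂ) := by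
        push_cast
        field_simp
        linear_combination hg'
      rw [e]
      exact lam_add h3 (Dis_int b g)
    · have e : (f : ℂ) * (2 * v') / 2 = f * (v' - ((h : ℤ) : ℂ) / f) + ((h : ℤ) : ℂ) := by
        field_simp
        ring
      rw [e]
      exact lam_add (lam_nat f hy) (Dis_int _ h)
  · rintro ⟨h3, h4⟩
    have h3' : v - ((1 : ℤ) : ℂ) / f ∈ Lam b := h3
    refine ⟨v / 2, ?_, by ring⟩
    show v / 2 - ((h : ℤ) : ℂ) / f ∈ Lam (a * b)
    obtain ⟨m, hm⟩ := hf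
    have hm' : (f : ℂ) = 2 * m + 1 := by exact_mod_cast congrArg (Nat.cast : ℕ → ℂ) hm
    have h5 : 2 * (v / 2 - ((h : ℤ) : ℂ) / f) ∈ Lam (a * b) := by
      have e : 2 * (v / 2 - ((h : ℤ) : ℂ) / f) = (v - ((1 : ℤ) : ℂ) / f) - (g : ℂ) := by
        push_cast
        field_simp
        linear_combination -hg'
      rw [e]
      exact lam_sub (lam_mono h3') (Dis_int _ g)
    have h6 : f * (v / 2 - ((h : ℤ) : ℂ) / f) ∈ Lam (a * b) := by
      have e : f * (v / 2 - ((h : ℤ) : ℂ) / f) = f * v / 2 - ((h : ℤ) : ℂ) := by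
        field_simp
      rw [e]
      exact lam_sub h4 (Dis_int _ h)
    have e : v / 2 - ((h : ℤ) : ℂ) / f =
        f * (v / 2 - ((h : ℤ) : ℂ) / f) - m * (2 * (v / 2 - ((h : ℤ) : ℂ) / f)) := by
      generalize v / 2 - ((h : ℤ) : ℂ) / f = y
      rw [hm']
      ring
    rw [e]
    exact lam_sub h6 (lam_nat m h5)

end

theorem tDis (hL : S_Lt) (hT : S_Tt) (hR : S_Red) (h2 : S_O2) (_h3 : S_O3) (h4 : S_O4) : S_Dis := by
  intro k _ f b h hf hb hh hfh z hz
  obtain ⟨g, hg⟩ := hfh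
  have hf0 : 0 < f := hf.pos
  obtain ⟨hn, hLm, -, -, -, -, hsum⟩ := hL k b hb
  obtain ⟨hT1, -, hT3, hT4, -⟩ := hT
  obtain ⟨hO1, -, hP1, hP2, hN1, hN2, -, hb1, hb2, hm1, hm2⟩ := h4 k
  have hmul := (h2 k).2.2.2.2.1
  have hI0 := (h2 k).2.2.2.2.2.1
  have hne : ∀ a : Ideal (OO k), a ≠ ⊥ → a * b ≠ ⊥ := by
    intro a ha h
    rcases Ideal.mul_eq_bot.1 h with h | h
    · exact ha h
    · exact hb h
  -- the two elements
  have w1 : wI k ∈ pp k := (hm1 _).2 ⟨0, rfl⟩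
  have w2 : wI k ∉ ppb k := by
    rw [hm2]
    rintro ⟨y, hy⟩
    have e1 : (wI k : OO k).re = 0 := rfl
    have e2 : (wI k : OO k).im = 1 := rfl
    rw [e1, e2] at hy
    omega
  have e2 : (1 - wI k : OO k).re = 1 := by
    have : (1 - wI k : OO k).re = (1 : OO k).re - (wI k).re := rfl
    rw [this, re_one]; rfl
  have e3 : (1 - wI k : OO k).im = -1 := by
    have : (1 - wI k : OO k).im = (1 : OO k).im - (wI k).im := rfl
    rw [this, im_one]; rfl
  have w3 : 1 - wI k ∈ ppb k := by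
    rw [hm2, e2, e3]
    exact ⟨0, by ring⟩
  have w4 : 1 - wI k ∉ pp k := by
    rw [hm1, e2]
    rintro ⟨y, hy⟩
    omega
  have t1 : (2 : OO k) ∈ pp k := Ideal.subset_span (by simp)
  have t2 : (2 : OO k) ∈ ppb k := Ideal.subset_span (by simp)
  have hO1' : ppb k * pp k = sp 2 := (mul_comm _ _).trans hO1
  -- the sets
  set A : Set ℂ := cs (((1 : ℤ) : ℂ) / f) b with hA
  set E1 : Set ℂ := (fun v : ℂ => 2 * v) '' cs (((h : ℤ) : ℂ) / f) (ppb k * b) with hE1
  set E2 : Set ℂ := (fun v : ℂ => 2 * v) '' cs (((h : ℤ) : ℂ) / f) (pp k * b) with hE2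
  have m1 : ∀ v : ℂ, v ∈ E1 ↔ v ∈ A ∧ (f * v) / 2 ∈ Lam (ppb k * b) := Dis_set hf hg _ _ t2
  have m2 : ∀ v : ℂ, v ∈ E2 ↔ v ∈ A ∧ (f * v) / 2 ∈ Lam (pp k * b) := Dis_set hf hg _ _ t1
  have m3 : E1 ∩ E2 = (fun v : ℂ => 2 * v) '' cs (((h : ℤ) : ℂ) / f) b := by
    ext v
    have h5 := Dis_set hf hg ⊤ b (Submodule.mem_top) v
    rw [Ideal.top_mul] at h5
    rw [h5, Set.mem_inter_iff, m1, m2]
    constructor
    · rintro ⟨⟨h6, h7⟩, -, h8⟩
      refine ⟨h6, ?_⟩
      have e : (f : ℂ) * v / 2 = toC (1 - wI k) * (f * v / 2) + toC (wI k) * (f * v / 2) := by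
        rw [toC_sub, toC_one]
        ring
      rw [e]
      exact lam_add (lam_prod.1 h7 _ w3) (lam_prod.1 h8 _ w1)
    · rintro ⟨h6, h7⟩
      exact ⟨⟨h6, lam_mono h7⟩, h6, lam_mono h7⟩
  set W : ℝ := (f : ℝ) ^ 2 * NI b with hW
  have hW0 : 0 < W := by positivity
  -- parity
  have hpar : ∀ v ∈ A, ∃ m : ℕ, W * ‖v‖ ^ 2 = m ∧ (Even m ↔ v ∈ E1 ∪ E2) := by
    intro v hv
    have hfv : (f : ℂ) * v ∈ Lam b := by
      have e : (f : ℂ) * v = f * (v - ((1 : ℤ) : ℂ) / f) + ((1 : ℤ) : ℂ) := by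
        have : (f : ℂ) ≠ 0 := by exact_mod_cast hf0.ne'
        field_simp
        ring
      rw [e]
      exact lam_add (lam_nat f hv) (Dis_int b 1)
    obtain ⟨u, -, hu⟩ := (hLm _).1 hfv
    refine ⟨NI (Dis_J b ((f : ℂ) * v)), ?_, ?_⟩
    · rw [← Dis_norm h2 hn hfv hu, hW, norm_mul, Complex.norm_natCast]
      ring
    · rw [Dis_par h2 h4, Dis_half hO1 hP1 w3 w4 hfv, Dis_half hO1' hP2 w1 w2 hfv, Set.mem_union,
        m1, m2]
      constructor
      · rintro (h | h)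
        · exact Or.inl ⟨hv, h⟩
        · exact Or.inr ⟨hv, h⟩
      · rintro (⟨-, h⟩ | ⟨-, h⟩)
        · exact Or.inl h
        · exact Or.inr h
  have hEA : E1 ∪ E2 ⊆ A := by
    rintro v (hv | hv)
    · exact ((m1 v).1 hv).1
    · exact ((m2 v).1 hv).1
  -- summability
  have htor : Tor k (((1 : ℤ) : ℂ) / f) := ⟨((1 : ℤ) : OO k), f, hf0, by rw [toC_int]⟩
  have hz1 : 0 < (z / 2).im := by
    have : (z / 2).im = z.im / 2 := by simp
    rw [this]
    positivity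
  have hz2 : 0 < ((z + 1) / 2).im := by
    have : ((z + 1) / 2).im = z.im / 2 := by simp
    rw [this]
    positivity
  set F : ℂ → ℂ := fun v => v⁻¹ * ex (W * ‖v‖ ^ 2 * (z / 2)) with hF
  set G : ℂ → ℂ := fun v => v⁻¹ * ex (W * ‖v‖ ^ 2 * ((z + 1) / 2)) with hG
  have s1 : Summable (A.indicator F) :=
    summable_subtype_iff_indicator.1 (hsum _ W (z / 2) htor hW0 hz1)
  have s2 : Summable (A.indicator G) :=
    summable_subtype_iff_indicator.1 (hsum _ W ((z + 1) / 2) htor hW0 hz2)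
  have s3 : Summable fun v : (E1 ∪ E2 : Set ℂ) => (v : ℂ)⁻¹ * ex (W * ‖(v : ℂ)‖ ^ 2 * (z / 2)) := by
    have h5 : Summable ((E1 ∪ E2).indicator F) := by
      have h6 := s1.indicator (E1 ∪ E2)
      rwa [Set.indicator_indicator, Set.inter_eq_left.2 hEA] at h6
    exact summable_subtype_iff_indicator.2 h5
  have hpt : ∀ v : ℂ, A.indicator F v + A.indicator G v = 2 * (E1 ∪ E2).indicator F v := by
    intro v
    by_cases hv : v ∈ A
    · obtain ⟨m, hm, hev⟩ := hpar v hv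
      have hm' : (W : ℂ) * ‖v‖ ^ 2 = m := by exact_mod_cast congrArg (Complex.ofReal) hm
      have hGF : G v = F v * ex ((m : ℂ) / 2) := by
        rw [hG, hF]
        show v⁻¹ * ex (W * ‖v‖ ^ 2 * ((z + 1) / 2)) = v⁻¹ * ex (W * ‖v‖ ^ 2 * (z / 2)) * ex (m / 2)
        have h9 : (W : ℂ) * ‖v‖ ^ 2 * ((z + 1) / 2) = W * ‖v‖ ^ 2 * (z / 2) + m / 2 := by
          rw [hm']
          ring
        rw [h9, Dis_ex_add]
        ring
      rw [Set.indicator_of_mem hv, Set.indicator_of_mem hv, hGF]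
      by_cases he : Even m
      · rw [Dis_ex_even m he, Set.indicator_of_mem (hev.1 he)]
        ring
      · rw [Dis_ex_odd m he, Set.indicator_of_notMem (fun hc => he (hev.2 hc))]
        ring
    · rw [Set.indicator_of_notMem hv, Set.indicator_of_notMem hv,
        Set.indicator_of_notMem (fun hc => hv (hEA hc))]
      ring
  have hS : TT A W (z / 2) + TT A W ((z + 1) / 2) = 2 * TT (E1 ∪ E2) W (z / 2) := by
    have q1 : TT A W (z / 2) = ∑' v, A.indicator F v := tsum_subtype A F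
    have q2 : TT A W ((z + 1) / 2) = ∑' v, A.indicator G v := tsum_subtype A G
    have q3 : TT (E1 ∪ E2) W (z / 2) = ∑' v, (E1 ∪ E2).indicator F v := tsum_subtype _ F
    rw [q1, q2, q3, ← s1.tsum_add s2, ← tsum_mul_left]
    exact tsum_congr hpt
  have hU := hT4 E1 E2 W (z / 2) s3
  rw [m3] at hU
  have h20 : (2 : ℂ) ≠ 0 := two_ne_zero
  have hc : ∀ B : Set ℂ, TT ((fun v : ℂ => 2 * v) '' B) W (z / 2) = 2⁻¹ * TT B (W * 2 * 2) (z / 2) := by
    intro B
    rw [hT1 B 2 W (z / 2) h20, Complex.norm_ofNat]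
    congr 2
    ring
  have hd : ∀ B : Set ℂ, TT B (W * 2 * 2) (z / 2) = TT B (W * 2) z := by
    intro B
    rw [hT3 B (W * 2) 2 (z / 2)]
    congr 1
    push_cast
    ring
  have he : ∀ B : Set ℂ, TT B (W * 2) z = TT B W (2 * z) := by
    intro B
    rw [hT3 B W 2 z]
    congr 1
  have r1 : Tc f b 1 (z / 2) = TT A W (z / 2) := (hR k f b hf0 hb 1).2.2.1 (z / 2)
  have r2 : Tc f b 1 ((z + 1) / 2) = TT A W ((z + 1) / 2) := (hR k f b hf0 hb 1).2.2.1 _
  have r3 : Tc f b h (2 * z) = TT (cs (((h : ℤ) : ℂ) / f) b) W (2 * z) :=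
    (hR k f b hf0 hb h).2.2.1 _
  have r4 : Tc f (ppb k * b) h z = TT (cs (((h : ℤ) : ℂ) / f) (ppb k * b)) (W * 2) z := by
    rw [(hR k f (ppb k * b) hf0 (hne _ hb2) h).2.2.1 z, hmul, hN2]
    congr 1
    rw [hW]
    push_cast
    ring
  have r5 : Tc f (pp k * b) h z = TT (cs (((h : ℤ) : ℂ) / f) (pp k * b)) (W * 2) z := by
    rw [(hR k f (pp k * b) hf0 (hne _ hb1) h).2.2.1 z, hmul, hN1]
    congr 1
    rw [hW]
    push_cast
    ring
  rw [hE1, hE2, hc, hc, hc, hd, hd, hd, he (cs (((h : ℤ) : ℂ) / f) b), ← hE1, ← hE2] at hU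
  rw [r1, r2, r3, r4, r5, hS]
  linear_combination 2 * hU

end Pool.Agent.DK.C
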