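import Pool.Agent.Lib.DK.C.Spec

/-!
# THEOREM DK, Part C, module EpsB: the multiplier is `ε(d)`, reduction to prime `d`
-/

set_option autoImplicit false

open Filter Topology
open scoped Pointwise

noncomputable section

namespace Pool.Agent.DK.C

open Pool.Agent.MuZ Pool.Agent.FW NumberField
open Pool.Agent.DI (io ofC io_inj exists_io io_ofC ofC_io VP MP UP TP ex sqr sqr_sq kap)

variable {k : ℕ}

/-- Part (A) of the proof of `S_Eps`. -/
def Eps_A : Prop := ∀ (k : ℕ) [SqK k] (f : ℕ) (a b c : ℤ) (p : ℕ), Odd f → 3 ≤ f → p.Prime →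
  Dk k < p → jacobiSym p (Dk k) = -1 → a * p - b * c = 1 → (Dk k * f ^ 2 : ℤ) ∣ c → ∀ κ : ℂ,
  (∀ ρ : OO k → ℂ, OddO ρ → PerO f ρ → ∀ z : ℂ, 0 < z.im →
    Gt ρ (mob a b c p z) = κ * ((c : ℂ) * z + p) ^ 2 * Gt (tw ρ ((p : ℤ) : OO k)) z) → κ = -1

private theorem epsB_ex_add (a b : ℂ) : ex (a + b) = ex a * ex b := by
  unfold ex
  rw [← Complex.exp_add]
  congr 1
  ring

private theorem epsB_ex_int (n : ℤ) : ex n = 1 := by
  unfold ex
  rw [Complex.exp_eq_one_iff]
  exact ⟨n, by ring⟩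

private theorem epsB_Gt_add (ρ : OO k → ℂ) (z : ℂ) (n : ℤ) : Gt ρ (z + n) = Gt ρ z := by
  unfold Gt
  congr 1
  congr 1
  funext v
  have h1 : (Nm v : ℂ) * (z + n) = Nm v * z + ((Nm v * n : ℤ) : ℂ) := by
    push_cast
    ring
  rw [h1, epsB_ex_add, epsB_ex_int, mul_one]

private theorem epsB_Gt_neg (ρ : OO k → ℂ) (hρ : OddO ρ) (d : ℤ) (z : ℂ) :
    Gt (tw ρ ((-d : ℤ) : OO k)) z = -Gt (tw ρ (d : OO k)) z := by
  unfold Gt
  rw [← mul_neg (1 / 2 : ℂ), ← tsum_neg]
  congr 1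
  congr 1
  funext v
  have h1 : tw ρ ((-d : ℤ) : OO k) v = -tw ρ (d : OO k) v := by
    unfold tw
    have h2 : ((-d : ℤ) : OO k) * v = -((d : OO k) * v) := by
      rw [Int.cast_neg, neg_mul]
    rw [h2, hρ]
  rw [h1]
  ring

private theorem epsB_mob_neg (a b c d : ℤ) (z : ℂ) : mob (-a) (-b) (-c) (-d) z = mob a b c d z := by
  unfold mob
  push_cast
  rw [show (-(a : ℂ) * z + -(b : ℂ)) = -((a : ℂ) * z + b) by ring,
    show (-(c : ℂ) * z + -(d : ℂ)) = -((c : ℂ) * z + d) by ring, neg_div_neg_eq]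

/-- Case (B). -/
private theorem epsB_minus [SqK k] (hK : S_Kap) (hA : Eps_A) (f : ℕ) (a b c d : ℤ) (hf : Odd f)
    (h3 : 3 ≤ f) (hdet : a * d - b * c = 1) (hc : (Dk k * f ^ 2 : ℤ) ∣ c)
    (hd : jacobiSym d (Dk k) = -1)
    (ρ : OO k → ℂ) (hodd : OddO ρ) (hper : PerO f ρ) (z : ℂ) (hz : 0 < z.im) :
    Gt ρ (mob a b c d z) = -((c : ℂ) * z + d) ^ 2 * Gt (tw ρ (d : OO k)) z := by
  rcases eq_or_ne c 0 with h0 | h0
  · subst h0
    have had : a * d = 1 := by linarith
    have hcase : (a = 1 ∧ d = 1) ∨ (a = -1 ∧ d = -1) := Int.mul_eq_one_iff_eq_one_or_neg_one.1 had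
    rcases hcase with ⟨rfl, rfl⟩ | ⟨rfl, rfl⟩
    · rw [jacobiSym.one_left] at hd
      norm_num at hd
    · have h1 : mob (-1) b 0 (-1) z = z + ((-b : ℤ) : ℂ) := by
        unfold mob
        push_cast
        ring
      have h2 : tw ρ ((1 : ℤ) : OO k) = ρ := by
        funext v
        unfold tw
        rw [Int.cast_one, one_mul]
      rw [h1, epsB_Gt_add, epsB_Gt_neg ρ hodd 1 z, h2]
      push_cast
      ring
  · -- Dirichlet
    have hq : c.natAbs ≠ 0 := Int.natAbs_ne_zero.2 h0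
    have hcop : IsCoprime d (c.natAbs : ℤ) := by
      have h1 : IsCoprime d c := ⟨a, -b, by linear_combination hdet⟩
      rw [Int.isCoprime_iff_gcd_eq_one] at h1 ⊢
      rw [← h1, Int.gcd, Int.gcd, Int.natAbs_natCast]
    obtain ⟨p, hpD, hpp, hpd⟩ := Nat.forall_exists_prime_gt_and_zmodEq (Dk k) hq hcop
    have hdvd : c ∣ (p : ℤ) - d := by
      have h1 : ((c.natAbs : ℤ)) ∣ (p : ℤ) - d := (Int.modEq_iff_dvd.1 hpd.symm)
      exact (Int.natAbs_dvd).1 h1
    obtain ⟨j, hj⟩ := hdvd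
    have hpj : (p : ℤ) = d + j * c := by linear_combination hj
    obtain ⟨κ, hκ⟩ := hK k f a b c d hf.pos hdet hc
    have hDc : (Dk k : ℤ) ∣ c := (Dvd.intro _ rfl).trans hc
    have hjac : jacobiSym p (Dk k) = -1 := by
      rw [← hd]
      apply jacobiSym.mod_left'
      obtain ⟨m, hm⟩ := hDc
      rw [hpj, hm]
      have h1 : d + j * ((Dk k : ℤ) * m) = d + (Dk k : ℤ) * (j * m) := by ring
      rw [h1]
      exact Int.add_mul_emod_self_left d (Dk k) (j * m)
    have hdet' : a * p - (b + j * a) * c = 1 := by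
      rw [hpj]
      linear_combination hdet
    have hκ1 : κ = -1 := by
      refine hA k f a (b + j * a) c p hf h3 hpp hpD hjac hdet' hc κ ?_
      intro ρ' hodd' hper' w hw
      have hw' : 0 < (w + (j : ℂ)).im := by
        rw [Complex.add_im, Complex.intCast_im, add_zero]
        exact hw
      have h1 := hκ ρ' hodd' hper' (w + j) hw'
      have h2 : mob a b c d (w + j) = mob a (b + j * a) c p w := by
        unfold mob
        rw [hpj]
        push_cast
        congr 1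
        · ring
        · ring
      have h3 : tw ρ' (d : OO k) = tw ρ' ((p : ℤ) : OO k) := by
        funext v
        unfold tw
        have hfc : (f : ℤ) ∣ c := by
          refine (Dvd.intro ((Dk k : ℤ) * (f : ℤ)) ?_).trans hc
          ring
        obtain ⟨m, hm⟩ := hfc
        have h4 : ((p : ℤ) : OO k) * v = (d : OO k) * v + (f : OO k) * (((j * m : ℤ) : OO k) * v) := by
          rw [hpj, hm]
          push_cast
          ring
        rw [h4, hper']
      have h5 : ((c : ℂ) * (w + j) + d) = (c : ℂ) * w + p := by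
        have h6 : ((p : ℤ) : ℂ) = ((d + j * c : ℤ) : ℂ) := by rw [hpj]
        push_cast at h6
        rw [h6]
        ring
      rw [h2, epsB_Gt_add, h3, h5] at h1
      exact h1
    rw [hκ ρ hodd hper z hz, hκ1]
    ring

private theorem Dk_odd [SqK k] : Odd (Dk k) := by
  have h1 := Dk_cast (k := k)
  have h2 := hk1 (k := k)
  exact ⟨4 * k - 1, by omega⟩

private theorem Dk_mod8 [SqK k] : Dk k % 8 = 7 := by
  have h1 := Dk_cast (k := k)
  have h2 := hk1 (k := k)
  omega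

/-- `(2/D) = 1`. -/
private theorem jac_two [SqK k] : jacobiSym 2 (Dk k) = 1 := by
  rw [jacobiSym.at_two Dk_odd, ZMod.χ₈_nat_mod_eight, Dk_mod8]
  decide

/-- `(-1/D) = -1`. -/
private theorem jac_neg_one [SqK k] : ZMod.χ₄ (Dk k) = -1 := by
  rw [ZMod.χ₄_nat_three_mod_four]
  have := Dk_mod8 (k := k)
  omega

theorem Eps_eps [SqK k] (d : ℤ) : eps (d : OO k) = jacobiSym d (Dk k) := by
  unfold eps
  rw [re_int, im_int, add_zero, jacobiSym.mul_left, jac_two, one_mul]

theorem Eps_B (hK : S_Kap) (hA : Eps_A) : S_Eps := by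
  intro k _ f a b c d ρ z hf h3 hdet hc hodd hper hz
  rw [Eps_eps]
  have hDc : (Dk k : ℤ) ∣ c := (Dvd.intro _ rfl).trans hc
  rcases jacobiSym.trichotomy d (Dk k) with h | h | h
  · exfalso
    have h1 : d.gcd ((Dk k : ℕ) : ℤ) ≠ 1 := fun h2 => jacobiSym.ne_zero h2 h
    apply h1
    rw [← Int.isCoprime_iff_gcd_eq_one]
    obtain ⟨m, hm⟩ := hDc
    refine ⟨a, -b * m, ?_⟩
    rw [hm] at hdet
    linear_combination hdet
  · have hneg : jacobiSym (-d) (Dk k) = -1 := by
      rw [jacobiSym.neg d Dk_odd, h, jac_neg_one]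
      decide
    have h1 := epsB_minus hK hA f (-a) (-b) (-c) (-d) hf h3 (by linear_combination hdet)
      ((dvd_neg).2 hc) hneg ρ hodd hper z hz
    rw [epsB_mob_neg, epsB_Gt_neg ρ hodd] at h1
    rw [h1, h]
    push_cast
    ring
  · rw [epsB_minus hK hA f a b c d hf h3 hdet hc h ρ hodd hper z hz, h]
    push_cast
    ring

end Pool.Agent.DK.C
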