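import Pool.Agent.Lib.DK.C.Spec

/-!
# Theorem DK, part C: rules for expansions at the cusps

Author helper72.
-/

set_option autoImplicit false

open Filter Topology
open scoped Pointwise

noncomputable section

namespace Pool.Agent.DK.C

open Pool.Agent.MuZ Pool.Agent.FW NumberField
open Pool.Agent.DI (io ofC io_inj exists_io io_ofC ofC_io VP MP UP TP ex sqr sqr_sq kap)

private theorem Exp_add (x y : ℂ) : ex (x + y) = ex x * ex y := by
  unfold ex
  rw [← Complex.exp_add]
  congr 1
  ring

private theorem Exp_norm (z : ℂ) : ‖ex z‖ = Real.exp (-2 * Real.pi * z.im) := by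
  unfold ex
  rw [Complex.norm_exp]
  congr 1
  simp [Complex.mul_re]

private theorem Exp_C {e : ℕ → ℂ} {C : ℝ} (h : ∀ n : ℕ, ‖e n‖ ≤ C * (n + 1) ^ 2) : 0 ≤ C := by
  have h0 := (norm_nonneg _).trans (h 0)
  simpa using h0

private theorem Exp_3 (M : ℕ) (G : ℂ → ℂ) (k0 : ℂ) (α δ : ℕ) (β : ℤ) (hM : 0 < M) (hα : 0 < α)
    (hδ : 0 < δ) (h : HasE M G k0) : HasE (M * δ) (fun z => G ((α * z + β) / δ)) k0 := by
  classical
  obtain ⟨e, C, he0, heC, hs⟩ := h
  have hC := Exp_C heC
  have hMC : (M : ℂ) ≠ 0 := by exact_mod_cast hM.ne'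
  have hδC : (δ : ℂ) ≠ 0 := by exact_mod_cast hδ.ne'
  refine ⟨fun j => if α ∣ j then e (j / α) * ex ((((j / α : ℕ) : ℝ) * β / (M * δ) : ℝ)) else 0, C,
    ?_, ?_, ?_⟩
  · simp [he0]
  · intro n
    simp only
    split_ifs with hd
    · have h1 : ‖ex ((((n / α : ℕ) : ℝ) * β / (M * δ) : ℝ))‖ = 1 := by
        rw [Exp_norm, Complex.ofReal_im]
        simp
      rw [norm_mul, h1, mul_one]
      refine (heC _).trans ?_
      have h2 : (((n / α : ℕ) : ℝ)) ≤ n := by exact_mod_cast Nat.div_le_self n α
      have h3 : (0 : ℝ) ≤ ((n / α : ℕ) : ℝ) := Nat.cast_nonneg _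
      gcongr
    · rw [norm_zero]
      positivity
  · intro z hz
    have hw : 0 < ((α * z + β) / δ : ℂ).im := by
      have e1 : ((α * z + β) / δ : ℂ) = ((1 / δ : ℝ) : ℂ) * (((α : ℝ) : ℂ) * z + ((β : ℝ) : ℂ)) := by
        push_cast
        field_simp
      have h2 : (0 : ℝ) < α := by exact_mod_cast hα
      have h3 : (0 : ℝ) < δ := by exact_mod_cast hδ
      rw [e1, Complex.im_ofReal_mul, Complex.add_im, Complex.im_ofReal_mul, Complex.ofReal_im,
        add_zero]
      positivity
    have hinj : Function.Injective (fun n : ℕ => α * n) := fun a b hab =>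
      Nat.eq_of_mul_eq_mul_left hα hab
    refine (hinj.hasSum_iff ?_).1 ?_
    · intro x hx
      have hd : ¬ α ∣ x := fun ⟨c, hc⟩ => hx ⟨c, hc.symm⟩
      simp only [if_neg hd, zero_mul]
    · have e2 : ((fun j : ℕ => (if α ∣ j then e (j / α) *
          ex ((((j / α : ℕ) : ℝ) * β / (M * δ) : ℝ)) else 0) * ex (j * z / (M * δ : ℕ))) ∘
          fun n : ℕ => α * n) = fun n : ℕ => e n * ex (n * ((α * z + β) / δ) / M) := by
        funext n
        simp only [Function.comp_apply, dvd_mul_right, if_true, Nat.mul_div_cancel_left n hα]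
        rw [mul_assoc, ← Exp_add]
        congr 2
        push_cast
        field_simp
        ring
      rw [e2]
      exact hs _ hw

theorem tExp : S_Exp := by
  refine ⟨?_, ?_, fun M G k0 α δ β hM hα hδ h => Exp_3 M G k0 α δ β hM hα hδ h, ?_⟩
  · rintro M M' G k0 hM hM' ⟨t, rfl⟩ h
    have ht : 0 < t := by
      rcases Nat.eq_zero_or_pos t with h0 | h0
      · simp [h0] at hM'
      · exact h0
    have h1 := Exp_3 M G k0 t t 0 hM ht ht h
    have htC : (t : ℂ) ≠ 0 := by exact_mod_cast ht.ne'
    have e : (fun z : ℂ => G ((t * z + ((0 : ℤ) : ℂ)) / t)) = G := by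
      funext z
      congr 1
      push_cast
      field_simp
      ring
    rwa [e] at h1
  · rintro M G G' k0 k0' x y hM ⟨e, C, he0, heC, hs⟩ ⟨e', C', he0', heC', hs'⟩
    refine ⟨fun n => x * e n + y * e' n, ‖x‖ * C + ‖y‖ * C', by simp [he0, he0'], ?_, ?_⟩
    · intro n
      refine (norm_add_le _ _).trans ?_
      rw [norm_mul, norm_mul]
      have h1 := mul_le_mul_of_nonneg_left (heC n) (norm_nonneg x)
      have h2 := mul_le_mul_of_nonneg_left (heC' n) (norm_nonneg y)
      linarith
    · intro z hz
      have h1 := ((hs z hz).mul_left x).add ((hs' z hz).mul_left y)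
      have e1 : (fun n : ℕ => (x * e n + y * e' n) * ex (n * z / M)) =
          fun n : ℕ => x * (e n * ex (n * z / M)) + y * (e' n * ex (n * z / M)) := by
        funext n
        ring
      have e2 : x * G z + y * G' z - (x * k0 + y * k0') = x * (G z - k0) + y * (G' z - k0') := by
        ring
      change HasSum (fun n : ℕ => (x * e n + y * e' n) * ex (n * z / M))
        (x * G z + y * G' z - (x * k0 + y * k0'))
      rw [e1, e2]
      exact h1
  · rintro M G k0 hM ⟨e, C, he0, heC, hs⟩
    have hC := Exp_C heC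
    have hMR : (0 : ℝ) < M := by exact_mod_cast hM
    set r : ℝ := Real.exp (-2 * Real.pi / M) with hr
    have hr0 : 0 < r := Real.exp_pos _
    have hr1 : r < 1 := by
      rw [hr, Real.exp_lt_one_iff]
      exact div_neg_of_neg_of_pos (by nlinarith [Real.pi_pos]) hMR
    have hrn : ‖r‖ < 1 := by rwa [Real.norm_of_nonneg hr0.le]
    have hsum : Summable fun n : ℕ => ((n : ℝ) + 1) ^ 2 * r ^ n := by
      have h2 := summable_pow_mul_geometric_of_norm_lt_one 2 hrn
      have h1 := summable_pow_mul_geometric_of_norm_lt_one 1 hrn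
      have h0 := summable_pow_mul_geometric_of_norm_lt_one 0 hrn
      refine ((h2.add (h1.mul_left 2)).add h0).congr ?_
      intro n
      ring
    obtain ⟨S, hS⟩ := hsum
    refine ⟨C * S * Real.exp (2 * Real.pi / M), ?_⟩
    intro z hz
    have h1 := hs z (by linarith)
    have h2 := hS.mul_left (C * Real.exp (2 * Real.pi / M) * Real.exp (-2 * Real.pi * z.im / M))
    have h3 := h1.norm_le_of_bounded h2 (fun n => ?_)
    · refine h3.trans (le_of_eq ?_)
      ring
    · rw [norm_mul, Exp_norm]
      rcases Nat.eq_zero_or_pos n with rfl | hn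
      · rw [he0, norm_zero, zero_mul]
        positivity
      · have e1 : (n * z / M : ℂ).im = n * z.im / M := by
          have e2 : (n * z / M : ℂ) = ((n / M : ℝ) : ℂ) * z := by
            push_cast
            ring
          rw [e2, Complex.im_ofReal_mul]
          ring
        have hn1 : (1 : ℝ) ≤ n := by exact_mod_cast hn
        have h4 : Real.exp (-2 * Real.pi * (n * z / M : ℂ).im) ≤
            Real.exp (2 * Real.pi / M) * Real.exp (-2 * Real.pi * z.im / M) * r ^ n := by
          rw [hr, ← Real.exp_nat_mul, ← Real.exp_add, ← Real.exp_add, Real.exp_le_exp, e1]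
          have h5 : 2 * Real.pi / M + -2 * Real.pi * z.im / M + n * (-2 * Real.pi / M) -
              (-2 * Real.pi * (n * z.im / M)) = 2 * Real.pi / M * ((n - 1) * (z.im - 1)) := by
            field_simp
            ring
          have h6 : 0 ≤ 2 * Real.pi / M * ((n - 1) * (z.im - 1)) := by
            have := Real.pi_pos
            have h7 : 0 ≤ (n : ℝ) - 1 := by linarith
            have h8 : 0 ≤ z.im - 1 := by linarith
            positivity
          linarith
        calc ‖e n‖ * Real.exp (-2 * Real.pi * (n * z / M : ℂ).im)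
            ≤ (C * (n + 1) ^ 2) * (Real.exp (2 * Real.pi / M) *
              Real.exp (-2 * Real.pi * z.im / M) * r ^ n) :=
              mul_le_mul (heC n) h4 (Real.exp_pos _).le (by positivity)
          _ = _ := by ring

end Pool.Agent.DK.C
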