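import Pool.Agent.Lib.DK.C.Spec

/-!
# THEOREM DK, Part C, module Gam: the finite sums for `D f² ∣ c`
-/

set_option autoImplicit false

open Filter Topology

noncomputable section

namespace Pool.Agent.DK.C

open Pool.Agent.MuZ Pool.Agent.FW NumberField
open Pool.Agent.DI (io ofC io_inj exists_io io_ofC ofC_io VP MP UP TP ex sqr sqr_sq kap)

variable {k : ℕ}

private lemma ex_add' (x y : ℂ) : ex (x + y) = ex x * ex y := by
  unfold ex
  rw [mul_add, Complex.exp_add]

private lemma ex_int' (n : ℤ) : ex (n : ℂ) = 1 := by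
  unfold ex
  have h : 2 * (Real.pi : ℂ) * Complex.I * (n : ℂ) = (n : ℂ) * (2 * Real.pi * Complex.I) := by ring
  rw [h]
  exact Complex.exp_int_mul_two_pi_mul_I n

private lemma ex_congr' {x y : ℂ} (n : ℤ) (h : x = y + n) : ex x = ex y := by
  rw [h, ex_add', ex_int', mul_one]

private lemma ex_one' {x : ℂ} (h : ex x = 1) : ∃ n : ℤ, x = n := by
  unfold ex at h
  obtain ⟨n, hn⟩ := Complex.exp_eq_one_iff.1 h
  refine ⟨n, ?_⟩
  have h2 : (2 * (Real.pi : ℂ) * Complex.I) ≠ 0 := Complex.two_pi_I_ne_zero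
  have h3 : (2 * (Real.pi : ℂ) * Complex.I) * x = (2 * (Real.pi : ℂ) * Complex.I) * n := by
    rw [hn]; ring
  exact mul_left_cancel₀ h2 h3

private lemma rsum_eq (m : ℕ) (F : OO k → ℂ) :
    rsum m F = ∑ p ∈ Finset.range m ×ˢ Finset.range m, F ⟨(p.1 : ℤ), (p.2 : ℤ)⟩ := by
  unfold rsum
  rw [Finset.sum_product]

private lemma rsum_comm' (m n : ℕ) (G : OO k → OO k → ℂ) :
    rsum m (fun u => rsum n (fun v => G u v)) = rsum n (fun v => rsum m (fun u => G u v)) := by
  simp only [rsum_eq]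
  exact Finset.sum_comm

private lemma rsum_const' (m : ℕ) (x : ℂ) : rsum m (fun _ : OO k => x) = (m : ℂ) ^ 2 * x := by
  unfold rsum
  simp only [Finset.sum_const, Finset.card_range, nsmul_eq_mul]
  ring

private lemma rsum_mul' (m : ℕ) (x : ℂ) (F : OO k → ℂ) :
    rsum m (fun v => x * F v) = x * rsum m F := by
  unfold rsum
  simp only [Finset.mul_sum]

private lemma rsum_mul_r (m : ℕ) (x : ℂ) (F : OO k → ℂ) :
    rsum m (fun v => F v * x) = rsum m F * x := by
  unfold rsum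
  simp only [Finset.sum_mul]

private lemma Gam_pos [SqK k] : 0 < Dk k := by
  have h1 := Dk_cast (k := k)
  have h2 := hk1 (k := k)
  omega

private lemma Gam_ne [SqK k] : (Dk k : ℂ) ≠ 0 := by
  exact_mod_cast (Gam_pos (k := k)).ne'

/-- the trace -/
private def tr (v : OO k) : ℤ := 2 * v.re + v.im

/-- the summand of `B(u)` -/
private def FF (ρ : OO k → ℂ) (f : ℕ) (a d : ℤ) (c : ℕ) (u v : OO k) : ℂ :=
  ρ v * ex (a * Nm v / c - (v * cjO u).im / (f * c) + d * Nm u / (Dk k * f ^ 2 * c))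

private lemma nm_shift [SqK k] (g : ℤ) (v w : OO k) :
    Nm (v + (-(g : OO k) * sD k) * w) = Nm v + Dk k * g ^ 2 * Nm w - Dk k * g * (v * cjO w).im := by
  rw [Dk_cast]
  simp only [Nm, cjO, sD, re_mul, im_mul, QuadraticAlgebra.re_add, QuadraticAlgebra.im_add,
    QuadraticAlgebra.re_neg, QuadraticAlgebra.im_neg, re_int, im_int]
  ring

private lemma im_shift (g : ℤ) (w u : OO k) :
    (((-(g : OO k) * sD k) * w) * cjO u).im = -g * tr (w * cjO u) := by
  simp only [tr, cjO, sD, re_mul, im_mul, QuadraticAlgebra.re_add, QuadraticAlgebra.im_add,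
    QuadraticAlgebra.re_neg, QuadraticAlgebra.im_neg, re_int, im_int]
  ring

private lemma nm_per (g : ℤ) (v w : OO k) :
    Nm (v + (g : OO k) * w) = Nm v + g * (g * Nm w + tr (v * cjO w)) := by
  simp only [Nm, tr, cjO, re_mul, im_mul, QuadraticAlgebra.re_add, QuadraticAlgebra.im_add,
    re_int, im_int]
  ring

private lemma im_per (g : ℤ) (v w u : OO k) :
    ((v + (g : OO k) * w) * cjO u).im = (v * cjO u).im + g * (w * cjO u).im := by
  simp only [cjO, re_mul, im_mul, QuadraticAlgebra.re_add, QuadraticAlgebra.im_add,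
    re_int, im_int]
  ring

private lemma im_s7 (g : ℤ) (v w : OO k) :
    (v * cjO ((g : OO k) * sD k * w)).im = -g * tr (v * cjO w) := by
  simp only [tr, cjO, sD, re_mul, im_mul, re_int, im_int]
  ring

private lemma tr_s7 [SqK k] (g : ℤ) (v w : OO k) :
    tr (v * cjO ((g : OO k) * sD k * w)) = -(-(Dk k : ℤ) * g * (v * cjO w).im) := by
  rw [Dk_cast]
  simp only [tr, cjO, sD, re_mul, im_mul, re_int, im_int]
  ring

private lemma nm_s7 [SqK k] (g : ℤ) (w : OO k) : Nm ((g : OO k) * sD k * w) = Dk k * g ^ 2 * Nm w := by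
  rw [Dk_cast]
  simp only [Nm, sD, re_mul, im_mul, re_int, im_int]
  ring

private lemma im_conj (v w : OO k) : (v * cjO w).im = (cjO w * v).im := by
  rw [mul_comm v (cjO w)]

private lemma im_conj2 (v w : OO k) : (v * cjO w).im = -(cjO v * w).im := by
  simp only [cjO, im_mul]
  ring

private lemma nm_dil (d : ℤ) (v w : OO k) :
    Nm (v + (d : OO k) * w) = Nm v + d ^ 2 * Nm w + d * tr (v * cjO w) := by
  simp only [Nm, tr, cjO, re_mul, im_mul, QuadraticAlgebra.re_add, QuadraticAlgebra.im_add,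
    re_int, im_int]
  ring

variable {f c : ℕ} {a b d : ℤ} {ρ : OO k → ℂ}

private lemma BB_eq (u : OO k) : BB ρ f a d c u = rsum (f * c) (FF ρ f a d c u) := rfl

/-- the summand is periodic -/
private lemma FF_per (hf : 0 < f) (hc : 0 < c) (hρ : PerO f ρ) (u : OO k) :
    PerO (f * c) (FF ρ f a d c u) := by
  intro v w
  have hf' : (f : ℂ) ≠ 0 := by exact_mod_cast hf.ne'
  have hc' : (c : ℂ) ≠ 0 := by exact_mod_cast hc.ne'
  unfold FF
  have h1 : ρ (v + ((f * c : ℕ) : OO k) * w) = ρ v := by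
    have h2 : ((f * c : ℕ) : OO k) * w = (f : OO k) * ((c : OO k) * w) := by push_cast; ring
    rw [h2, hρ]
  have e0 : ((f * c : ℕ) : OO k) = (((f * c : ℕ) : ℤ) : OO k) := by push_cast; ring
  have h3 : Nm (v + ((f * c : ℕ) : OO k) * w) = Nm v + ((f * c : ℕ) : ℤ) *
      (((f * c : ℕ) : ℤ) * Nm w + tr (v * cjO w)) := by
    rw [e0]; exact nm_per _ v w
  have h4 : ((v + ((f * c : ℕ) : OO k) * w) * cjO u).im =
      (v * cjO u).im + ((f * c : ℕ) : ℤ) * (w * cjO u).im := by
    rw [e0]; exact im_per _ v w u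
  rw [h1, h3, h4]
  congr 1
  refine ex_congr' (a * f * (((f * c : ℕ) : ℤ) * Nm w + tr (v * cjO w)) - (w * cjO u).im) ?_
  push_cast
  field_simp
  ring

/-- the shift -/
private lemma FF_shift [SqK k] {c' : ℕ} (hf : 0 < f) (hc' : 0 < c') (hc : c = Dk k * f ^ 2 * c')
    (hρ : PerO f ρ) (u w v : OO k) :
    FF ρ f a d c u (v + (-(((f * c' : ℕ) : ℤ) : OO k) * sD k) * w) = FF ρ f a d c u v *
      ex (-(a * (v * cjO w).im / f) + tr (w * cjO u) / (Dk k * f ^ 2)) := by
  have hf' : (f : ℂ) ≠ 0 := by exact_mod_cast hf.ne'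
  have hc'' : (c' : ℂ) ≠ 0 := by exact_mod_cast hc'.ne'
  have hD := Gam_ne (k := k)
  unfold FF
  have h1 : ρ (v + (-(((f * c' : ℕ) : ℤ) : OO k) * sD k) * w) = ρ v := by
    have h2 : (-(((f * c' : ℕ) : ℤ) : OO k) * sD k) * w = (f : OO k) * (-((c' : OO k) * sD k * w)) := by
      push_cast; ring
    rw [h2, hρ]
  rw [h1, nm_shift, add_mul, QuadraticAlgebra.im_add, im_shift, mul_assoc (ρ v), ← ex_add']
  congr 1
  refine ex_congr' (a * c' * Nm w) ?_
  rw [hc]
  push_cast
  field_simp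
  ring

private lemma tr_f (v w : OO k) : tr (((f : ℕ) : OO k) * v * w) = f * tr (v * w) := by
  simp only [tr, re_mul, im_mul, re_nat, im_nat]
  ring

/-- (1): if `B(u)` is not zero then `u` is in `f √-7 O` -/
private lemma part1 [SqK k] {c' : ℕ} (hR : S_Res) (hf : 0 < f) (hc' : 0 < c') (hc : c = Dk k * f ^ 2 * c')
    (hρ : PerO f ρ) (u : OO k) (hne : BB ρ f a d c u ≠ 0) : (f * sD k : OO k) ∣ u := by
  have hf' : (f : ℂ) ≠ 0 := by exact_mod_cast hf.ne'
  have hc0 : 0 < c := by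
    have h0 := Gam_pos (k := k)
    rw [hc]
    positivity
  have hD := Gam_ne (k := k)
  have key : ∀ w : OO k, ∃ n : ℤ, tr (w * cjO u) = Dk k * f * n := by
    intro w
    have h1 := (hR k).1 (f * c) (FF ρ f a d c u) (Nat.mul_pos hf hc0) (FF_per hf hc0 hρ u)
      ((-(((f * c' : ℕ) : ℤ) : OO k) * sD k) * ((f : OO k) * w))
    have h2 : (fun v => FF ρ f a d c u (v + (-(((f * c' : ℕ) : ℤ) : OO k) * sD k) * ((f : OO k) * w))) =
        fun v => FF ρ f a d c u v * ex (tr (w * cjO u) / (Dk k * f)) := by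
      funext v
      rw [FF_shift hf hc' hc hρ]
      congr 1
      have h3 : (v * cjO ((f : OO k) * w)).im = f * (v * cjO w).im := by
        simp only [cjO, re_mul, im_mul, re_nat, im_nat]
        ring
      rw [h3, tr_f]
      refine ex_congr' (-(a * (v * cjO w).im)) ?_
      push_cast
      field_simp
      ring
    rw [h2, rsum_mul_r] at h1
    rw [BB_eq] at hne
    have h4 : ex (tr (w * cjO u) / (Dk k * f)) = 1 := by
      have h5 : rsum (f * c) (FF ρ f a d c u) * ex (tr (w * cjO u) / (Dk k * f)) =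
          rsum (f * c) (FF ρ f a d c u) * 1 := by rw [h1, mul_one]
      exact mul_left_cancel₀ hne h5
    obtain ⟨n, hn⟩ := ex_one' h4
    refine ⟨n, ?_⟩
    rw [div_eq_iff (mul_ne_zero hD hf')] at hn
    have h6 : ((tr (w * cjO u) : ℤ) : ℂ) = ((Dk k * f * n : ℤ) : ℂ) := by
      rw [hn]; push_cast; ring
    exact_mod_cast h6
  obtain ⟨q, hq⟩ := key 1
  obtain ⟨p, hp⟩ := key (wI k)
  have hq' : 2 * u.re + u.im = Dk k * f * q := by
    rw [← hq, one_mul]
    simp only [tr, cjO]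
    ring
  have hp' : u.re + 4 * k * u.im = Dk k * f * p := by
    rw [← hp]
    simp only [tr, cjO, wI, re_mul, im_mul]
    ring
  have hD' : ((Dk k : ℕ) : ℤ) ≠ 0 := by exact_mod_cast (Gam_pos (k := k)).ne'
  refine ⟨⟨p, -q⟩, ?_⟩
  apply ext'
  · simp only [sD, re_mul, im_mul, re_nat, im_nat]
    refine mul_left_cancel₀ hD' ?_
    have h1 : ((Dk k : ℕ) : ℤ) * u.re = 4 * k * (2 * u.re + u.im) - (u.re + 4 * k * u.im) := by
      rw [Dk_cast]
      ring
    rw [h1, hq', hp']
    ring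
  · simp only [sD, re_mul, im_mul, re_nat, im_nat]
    refine mul_left_cancel₀ hD' ?_
    have h1 : ((Dk k : ℕ) : ℤ) * u.im = 2 * (u.re + 4 * k * u.im) - (2 * u.re + u.im) := by
      rw [Dk_cast]
      ring
    rw [h1, hq', hp']
    ring

/-- divisibility modulo `f` -/
private lemma dvd_iff' (hab : a * d - b * c = 1) (hfc : f ∣ c) (v w : OO k) :
    (f : OO k) ∣ -((a : OO k) * v + w) ↔ (f : OO k) ∣ v + (d : OO k) * w := by
  obtain ⟨t, ht⟩ := hfc
  have ht' : ((c : ℤ) : OO k) = (f : OO k) * (t : OO k) := by rw [ht]; push_cast; ring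
  have h0 : (a : OO k) * (d : OO k) = 1 + (b : OO k) * ((c : ℤ) : OO k) := by
    have : (a * d : ℤ) = 1 + b * c := by linarith
    exact_mod_cast congrArg (fun n : ℤ => (n : OO k)) this
  rw [dvd_neg]
  constructor
  · rintro ⟨x, hx⟩
    refine ⟨(d : OO k) * x - (b : OO k) * (t : OO k) * v, ?_⟩
    have h1 : (d : OO k) * ((a : OO k) * v + w) = (d : OO k) * ((f : OO k) * x) := by rw [hx]
    have h2 : (d : OO k) * ((a : OO k) * v + w) = (a : OO k) * (d : OO k) * v + (d : OO k) * w := by ring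
    rw [h2, h0, ht'] at h1
    linear_combination h1
  · rintro ⟨x, hx⟩
    refine ⟨(a : OO k) * x - (b : OO k) * (t : OO k) * w, ?_⟩
    have h1 : (a : OO k) * (v + (d : OO k) * w) = (a : OO k) * ((f : OO k) * x) := by rw [hx]
    have h2 : (a : OO k) * (v + (d : OO k) * w) = (a : OO k) * v + (a : OO k) * (d : OO k) * w := by ring
    rw [h2, h0, ht'] at h1
    linear_combination h1

open Classical in
/-- the function of the Gauss sum -/
private def HH (f c : ℕ) (a : ℤ) (y : ℂ) (x : OO k) : ℂ :=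
  if (f : OO k) ∣ x then y * ex (a * Nm x / c) else 0

private lemma HH_per (hf : 0 < f) (hc : 0 < c) (y : ℂ) : PerO (f * c) (HH (k := k) f c a y) := by
  intro v w
  have hf' : (f : ℂ) ≠ 0 := by exact_mod_cast hf.ne'
  have hc' : (c : ℂ) ≠ 0 := by exact_mod_cast hc.ne'
  unfold HH
  have e0 : ((f * c : ℕ) : OO k) = (((f * c : ℕ) : ℤ) : OO k) := by push_cast; ring
  have h3 : Nm (v + ((f * c : ℕ) : OO k) * w) = Nm v + ((f * c : ℕ) : ℤ) *
      (((f * c : ℕ) : ℤ) * Nm w + tr (v * cjO w)) := by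
    rw [e0]; exact nm_per _ v w
  have h4 : (f : OO k) ∣ v + ((f * c : ℕ) : OO k) * w ↔ (f : OO k) ∣ v := by
    have h5 : ((f * c : ℕ) : OO k) * w = (f : OO k) * ((c : OO k) * w) := by push_cast; ring
    rw [h5]
    exact dvd_add_left (Dvd.intro _ rfl)
  by_cases h : (f : OO k) ∣ v
  · rw [if_pos h, if_pos (h4.2 h), h3]
    congr 1
    refine ex_congr' (a * f * (((f * c : ℕ) : ℤ) * Nm w + tr (v * cjO w))) ?_
    push_cast
    field_simp
  · rw [if_neg h, if_neg (fun h' => h (h4.1 h'))]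

private lemma FF_dvd [SqK k] (hf : 0 < f) (hc : 0 < c) (hρ : PerO f ρ) (hab : a * d - b * c = 1) (v w : OO k)
    (h : (f : OO k) ∣ v + (d : OO k) * w) :
    FF ρ f a d c (f * sD k * w) v = ρ (-(d * w)) * ex (a * Nm (v + (d : OO k) * w) / c) := by
  have hf' : (f : ℂ) ≠ 0 := by exact_mod_cast hf.ne'
  have hc' : (c : ℂ) ≠ 0 := by exact_mod_cast hc.ne'
  have hD := Gam_ne (k := k)
  obtain ⟨x, hx⟩ := h
  have h1 : v = -((d : OO k) * w) + (f : OO k) * x := by rw [← hx]; ring
  have h2 : ρ v = ρ (-(d * w)) := by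
    conv_lhs => rw [h1]
    rw [hρ]
  unfold FF
  rw [h2]
  congr 1
  have e1 : (f : OO k) = (((f : ℕ) : ℤ) : OO k) := by push_cast; ring
  have h3 : (v * cjO ((f : OO k) * sD k * w)).im = -((f : ℕ) : ℤ) * tr (v * cjO w) := by
    rw [e1]; exact im_s7 _ v w
  have h4 : Nm ((f : OO k) * sD k * w) = Dk k * ((f : ℕ) : ℤ) ^ 2 * Nm w := by
    rw [e1]; exact nm_s7 _ w
  rw [h3, h4, nm_dil]
  symm
  refine ex_congr' (b * (d * Nm w + tr (v * cjO w))) ?_
  have h5 : (a : ℂ) * d = 1 + b * c := by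
    have : (a * d : ℤ) = 1 + b * c := by linarith
    exact_mod_cast congrArg (fun n : ℤ => (n : ℂ)) this
  push_cast
  field_simp
  linear_combination (d * (Nm w : ℂ) + (tr (v * cjO w) : ℂ)) * h5

private lemma part2 [SqK k] {c' : ℕ} (hR : S_Res) (hf : 0 < f) (hc' : 0 < c') (hc : c = Dk k * f ^ 2 * c')
    (hρ : PerO f ρ) (hab : a * d - b * c = 1) (w : OO k) :
    BB ρ f a d c (f * sD k * w) = ρ (-(d * w)) * GG k f a c := by
  have hf' : (f : ℂ) ≠ 0 := by exact_mod_cast hf.ne'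
  have hc0 : 0 < c := by
    have h0 := Gam_pos (k := k)
    rw [hc]
    positivity
  have hD := Gam_ne (k := k)
  have hfc : f ∣ c := ⟨Dk k * f * c', by rw [hc]; ring⟩
  have e1 : (f : OO k) = (((f : ℕ) : ℤ) : OO k) := by push_cast; ring
  have hA : ∀ u : OO k, rsum (f * c) (fun v => FF ρ f a d c (f * sD k * w) v *
      ex ((cjO u * (-((a : OO k) * v + w))).im / f)) = BB ρ f a d c (f * sD k * w) := by
    intro u
    have h1 := (hR k).1 (f * c) (FF ρ f a d c (f * sD k * w)) (Nat.mul_pos hf hc0)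
      (FF_per hf hc0 hρ _) ((-(((f * c' : ℕ) : ℤ) : OO k) * sD k) * u)
    rw [BB_eq, ← h1]
    congr 1
    funext v
    rw [FF_shift hf hc' hc hρ]
    congr 1
    have h2 : tr (u * cjO ((f : OO k) * sD k * w)) = Dk k * f * (u * cjO w).im := by
      rw [e1, tr_s7]; push_cast; ring
    have h3 : (cjO u * (-((a : OO k) * v + w))).im = -a * (v * cjO u).im + (u * cjO w).im := by
      rw [im_conj v u, im_conj2 u w]
      simp only [cjO, re_mul, im_mul, QuadraticAlgebra.re_add, QuadraticAlgebra.im_add,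
        QuadraticAlgebra.re_neg, QuadraticAlgebra.im_neg, re_int, im_int]
      ring
    rw [h2, h3]
    congr 1
    push_cast
    field_simp
  have hB : (f : ℂ) ^ 2 * BB ρ f a d c (f * sD k * w) =
      rsum (f * c) (fun v => FF ρ f a d c (f * sD k * w) v *
        rsum f (fun u => ex ((cjO u * (-((a : OO k) * v + w))).im / f))) := by
    rw [← rsum_const']
    have h1 : (fun _ : OO k => BB ρ f a d c (f * sD k * w)) =
        fun u => rsum (f * c) (fun v => FF ρ f a d c (f * sD k * w) v *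
          ex ((cjO u * (-((a : OO k) * v + w))).im / f)) := by
      funext u
      exact (hA u).symm
    rw [h1, rsum_comm']
    congr 1
    funext v
    rw [rsum_mul']
  have hD : (fun v => FF ρ f a d c (f * sD k * w) v *
        rsum f (fun u => ex ((cjO u * (-((a : OO k) * v + w))).im / f))) =
      fun v => (f : ℂ) ^ 2 * HH f c a (ρ (-(d * w))) (v + (d : OO k) * w) := by
    funext v
    have h1 := (hR k).2.2.2.1 f (-((a : OO k) * v + w)) hf
    unfold HH
    by_cases h : (f : OO k) ∣ -((a : OO k) * v + w)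
    · rw [h1.1 h, if_pos ((dvd_iff' hab hfc v w).1 h),
        FF_dvd hf hc0 hρ hab v w ((dvd_iff' hab hfc v w).1 h)]
      ring
    · rw [h1.2 h, if_neg (fun h' => h ((dvd_iff' hab hfc v w).2 h'))]
      ring
  rw [hD, rsum_mul'] at hB
  have hE := mul_left_cancel₀ (pow_ne_zero 2 hf') hB
  rw [hE, (hR k).1 (f * c) (HH f c a (ρ (-(d * w)))) (Nat.mul_pos hf hc0) (HH_per hf hc0 _)]
  unfold GG
  rw [← rsum_mul']
  congr 1
  funext x
  unfold HH
  split_ifs <;> simp

theorem tGam (hB : S_Bas) (hR : S_Res) : S_Gam := by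
  have _ := hB
  intro k _ f c a b d ρ hf hc hρ hab hdvd
  obtain ⟨c', hc'⟩ := hdvd
  have hc'0 : 0 < c' := by
    rcases Nat.eq_zero_or_pos c' with h | h
    · rw [h, mul_zero] at hc'; omega
    · exact h
  refine ⟨fun u hu => ?_, fun v => part2 hR hf hc'0 hc' hρ hab v⟩
  by_contra hne
  exact hu (part1 hR hf hc'0 hc' hρ u hne)

end Pool.Agent.DK.C
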