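import Pool.Agent.Lib.DK.C.Spec

/-!
# THEOREM DK (MP_d0239a_nt), Part C: the Gauss sum of the norm form (port of DI/C/Gau; helper49)
-/

set_option autoImplicit false

noncomputable section

namespace Pool.Agent.DK.C

open Pool.Agent.MuZ Pool.Agent.FW NumberField
open Pool.Agent.DI (ex)
open Finset

/-- the quadratic character with values in `ℂ` -/
def Gau_chi (p : ℕ) [Fact p.Prime] : MulChar (ZMod p) ℂ :=
  (quadraticChar (ZMod p)).ringHomComp (Int.castRingHom ℂ)

theorem Gau_chi_apply (p : ℕ) [Fact p.Prime] (a : ZMod p) :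
    Gau_chi p a = ((quadraticChar (ZMod p) a : ℤ) : ℂ) := by
  unfold Gau_chi
  rw [MulChar.ringHomComp_apply]
  rfl

theorem Gau_Q (p : ℕ) [Fact p.Prime] (hp : p ≠ 2) (t : ZMod p) (ht : t ≠ 0) :
    Gau_chi p t * ∑ s : ZMod p, (ZMod.stdAddChar (t * s ^ 2) : ℂ) =
      gaussSum (Gau_chi p) (ZMod.stdAddChar (N := p)) := by
  classical
  have h1 : ∑ s : ZMod p, (ZMod.stdAddChar (t * s ^ 2) : ℂ) =
      ∑ a : ZMod p, (Gau_chi p a + 1) * ZMod.stdAddChar (t * a) := by
    rw [← Finset.sum_fiberwise (Finset.univ) (fun s : ZMod p => s ^ 2)]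
    refine Finset.sum_congr rfl fun a _ => ?_
    have h2 : ∀ s ∈ Finset.univ.filter (fun s : ZMod p => s ^ 2 = a),
        (ZMod.stdAddChar (t * s ^ 2) : ℂ) = ZMod.stdAddChar (t * a) := by
      intro s hs
      rw [(Finset.mem_filter.1 hs).2]
    rw [Finset.sum_congr rfl h2, Finset.sum_const, nsmul_eq_mul]
    congr 1
    have h3 := quadraticChar_card_sqrts (F := ZMod p) (by rw [ZMod.ringChar_zmod_n]; exact hp) a
    have h4 : (Set.toFinset {x : ZMod p | x ^ 2 = a}) =
        Finset.univ.filter (fun s : ZMod p => s ^ 2 = a) := by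
      ext x
      simp
    rw [h4] at h3
    rw [Gau_chi_apply]
    exact_mod_cast h3
  rw [h1]
  have h5 : ∑ a : ZMod p, (Gau_chi p a + 1) * (ZMod.stdAddChar (t * a) : ℂ) =
      gaussSum (Gau_chi p) (AddChar.mulShift (ZMod.stdAddChar (N := p)) t) := by
    unfold gaussSum
    have h6 : ∑ a : ZMod p, (ZMod.stdAddChar (t * a) : ℂ) = 0 := by
      have h7 := AddChar.sum_mulShift (R' := ℂ) t (ZMod.isPrimitive_stdAddChar p)
      rw [if_neg ht] at h7
      simpa [mul_comm] using h7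
    simp only [add_mul, one_mul, Finset.sum_add_distrib, h6, add_zero, AddChar.mulShift_apply]
  rw [h5]
  have h8 := gaussSum_mulShift (Gau_chi p) (ZMod.stdAddChar (N := p)) (Units.mk0 t ht)
  simpa using h8

theorem Gau_range (p : ℕ) [NeZero p] (g : ZMod p → ℂ) :
    ∑ x ∈ Finset.range p, g (((x : ℤ)) : ZMod p) = ∑ a : ZMod p, g a := by
  refine Finset.sum_nbij' (fun x => (x : ZMod p)) (fun a => a.val) ?_ ?_ ?_ ?_ ?_
  · intro x _; exact Finset.mem_univ _
  · intro a _; exact Finset.mem_range.2 (ZMod.val_lt a)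
  · intro x hx; exact ZMod.val_cast_of_lt (Finset.mem_range.1 hx)
  · intro a _; exact ZMod.natCast_zmod_val a
  · intro x _; simp

theorem Gau_Dge (k : ℕ) [h : SqK k] : 7 ≤ Dk k := by
  have := h.pos
  unfold Dk
  omega

theorem Gau_neg (k : ℕ) [h : SqK k] (p : ℕ) (hp : p.Prime) (hpD : Dk k < p)
    (hj : jacobiSym p (Dk k) = -1) : jacobiSym (-(Dk k : ℤ)) p = -1 := by
  have hD := Gau_Dge k
  have hk := h.pos
  have hodd : Odd p := hp.odd_of_ne_two (by omega)
  have hDo : Odd (Dk k) := by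
    refine Nat.odd_iff.2 ?_
    unfold Dk
    omega
  have h1 : jacobiSym (-((Dk k : ℕ) : ℤ)) p = ZMod.χ₄ p * jacobiSym (Dk k : ℕ) p :=
    jacobiSym.neg _ hodd
  have h2 : jacobiSym (Dk k : ℕ) p = (-1) ^ (Dk k / 2 * (p / 2)) * jacobiSym p (Dk k) :=
    jacobiSym.quadratic_reciprocity hDo hodd
  have h3 : ZMod.χ₄ p = (-1) ^ (p / 2) := ZMod.χ₄_eq_neg_one_pow (Nat.odd_iff.1 hodd)
  rw [h1, h2, h3, hj]
  have h5 : ((-1 : ℤ) ^ (p / 2)) * ((-1) ^ (Dk k / 2 * (p / 2)) * -1) =
      -((-1) ^ (p / 2 + Dk k / 2 * (p / 2))) := by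
    rw [pow_add]
    ring
  have h6 : Even (p / 2 + Dk k / 2 * (p / 2)) := by
    have h7 : Dk k / 2 = 4 * k - 1 := by
      unfold Dk
      omega
    have h8 : p / 2 + Dk k / 2 * (p / 2) = 2 * (2 * k * (p / 2)) := by
      rw [h7]
      obtain ⟨m, rfl⟩ : ∃ m, k = m + 1 := ⟨k - 1, by omega⟩
      have h9 : 4 * (m + 1) - 1 = 4 * m + 3 := by omega
      rw [h9]
      ring
    rw [h8]
    exact even_two_mul _
  rw [h5, h6.neg_one_pow]

theorem tGau : S_Gau := by
  intro k _ p hp hpD hj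
  haveI : Fact p.Prime := ⟨hp⟩
  have hD7 := Gau_Dge k
  have hp2 : p ≠ 2 := by omega
  have hmD := Gau_neg k p hp hpD hj
  refine ⟨?_, ?_⟩
  · intro j hj
    have hj0 : ((j : ℤ) : ZMod p) ≠ 0 := by
      rwa [Ne, ZMod.intCast_zmod_eq_zero_iff_dvd]
    have h20 : (2 : ZMod p) ≠ 0 := by
      intro h2
      have : ((2 : ℕ) : ZMod p) = 0 := by exact_mod_cast h2
      rw [ZMod.natCast_eq_zero_iff] at this
      have := Nat.le_of_dvd (by norm_num) this
      omega
    have hD0 : ((Dk k : ℕ) : ZMod p) ≠ 0 := by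
      intro h2
      rw [ZMod.natCast_eq_zero_iff] at h2
      have := Nat.le_of_dvd (by omega) h2
      omega
    have hDc : ((Dk k : ℕ) : ZMod p) = 8 * (k : ZMod p) - 1 := by
      have h := Dk_cast (k := k)
      have h' : (((Dk k : ℕ) : ℤ) : ZMod p) = ((8 * k - 1 : ℤ) : ZMod p) := by rw [h]
      push_cast at h'
      exact h'
    have h40 : (4 : ZMod p) ≠ 0 := by
      have : (4 : ZMod p) = 2 * 2 := by norm_num
      rw [this]; exact mul_ne_zero h20 h20
    have h1 : rsum p (fun β : OO k => ex (j * Nm β / p)) =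
        ∑ x : ZMod p, ∑ y : ZMod p,
          (ZMod.stdAddChar ((j : ZMod p) * (x ^ 2 + x * y + 2 * (k : ZMod p) * y ^ 2)) : ℂ) := by
      unfold rsum
      rw [← Gau_range p (fun x => ∑ y : ZMod p,
        (ZMod.stdAddChar ((j : ZMod p) * (x ^ 2 + x * y + 2 * (k : ZMod p) * y ^ 2)) : ℂ))]
      refine Finset.sum_congr rfl fun x _ => ?_
      rw [← Gau_range p (fun y => (ZMod.stdAddChar ((j : ZMod p) *
        ((((x : ℤ)) : ZMod p) ^ 2 + (((x : ℤ)) : ZMod p) * y + 2 * (k : ZMod p) * y ^ 2)) : ℂ))]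
      refine Finset.sum_congr rfl fun y _ => ?_
      have h2 : (j : ZMod p) * ((((x : ℤ)) : ZMod p) ^ 2 + (((x : ℤ)) : ZMod p) *
          (((y : ℤ)) : ZMod p) + 2 * (k : ZMod p) * (((y : ℤ)) : ZMod p) ^ 2) =
          ((j * Nm (⟨(x : ℤ), (y : ℤ)⟩ : OO k) : ℤ) : ZMod p) := by
        unfold Nm
        push_cast
        ring
      rw [h2, ZMod.stdAddChar_coe]
      unfold ex
      congr 1
      push_cast
      ring_nf
    have h2 : ∑ x : ZMod p, ∑ y : ZMod p,
          (ZMod.stdAddChar ((j : ZMod p) * (x ^ 2 + x * y + 2 * (k : ZMod p) * y ^ 2)) : ℂ) =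
        (∑ s : ZMod p, (ZMod.stdAddChar ((j : ZMod p) * s ^ 2) : ℂ)) *
          ∑ y : ZMod p, (ZMod.stdAddChar ((j * (Dk k : ℕ) / 4 : ZMod p) * y ^ 2) : ℂ) := by
      rw [Finset.sum_comm, Finset.mul_sum]
      refine Finset.sum_congr rfl fun y _ => ?_
      rw [Finset.sum_mul]
      refine Fintype.sum_equiv (Equiv.addRight (y / 2)) _ _ fun x => ?_
      rw [← AddChar.map_add_eq_mul]
      congr 1
      simp only [Equiv.coe_addRight]
      rw [hDc]
      field_simp
      ring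
    have h3 : ((j : ZMod p) * (Dk k : ℕ) / 4) ≠ 0 := div_ne_zero (mul_ne_zero hj0 hD0) h40
    have h4 := Gau_Q p hp2 j hj0
    have h5 := Gau_Q p hp2 (j * (Dk k : ℕ) / 4) h3
    have hchi1 : Gau_chi p ≠ 1 := by
      unfold Gau_chi
      refine (MulChar.ringHomComp_ne_one_iff (Int.castRingHom ℂ).injective_int).2 ?_
      exact quadraticChar_ne_one (by rw [ZMod.ringChar_zmod_n]; exact hp2)
    have hchi2 : (Gau_chi p).IsQuadratic := (quadraticChar_isQuadratic (ZMod p)).comp _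
    have h6 := gaussSum_sq hchi1 hchi2 (ZMod.isPrimitive_stdAddChar p)
    rw [ZMod.card] at h6
    -- the character values
    have h7 : Gau_chi p j * Gau_chi p (j * (Dk k : ℕ) / 4) * (Gau_chi p (Dk k : ℕ)) = 1 := by
      rw [← map_mul, ← map_mul]
      have h8 : (j : ZMod p) * (j * (Dk k : ℕ) / 4) * (Dk k : ℕ) = (j * (Dk k : ℕ) / 2) ^ 2 := by
        field_simp
        norm_num
      rw [h8, Gau_chi_apply, map_pow, quadraticChar_sq_one]
      · simp
      · exact div_ne_zero (mul_ne_zero hj0 hD0) h20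
    have h9 : Gau_chi p (Dk k : ℕ) * Gau_chi p (-1) = -1 := by
      rw [← map_mul, Gau_chi_apply]
      have h10 : quadraticChar (ZMod p) ((Dk k : ℕ) * -1) = jacobiSym (-(Dk k : ℤ)) p := by
        rw [← jacobiSym.legendreSym.to_jacobiSym]
        unfold legendreSym
        congr 1
        push_cast
        ring
      rw [h10, hmD]
      simp
    rw [h1, h2]
    set A := ∑ s : ZMod p, (ZMod.stdAddChar ((j : ZMod p) * s ^ 2) : ℂ) with hA
    set B := ∑ y : ZMod p, (ZMod.stdAddChar ((j * (Dk k : ℕ) / 4 : ZMod p) * y ^ 2) : ℂ) with hB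
    have h11 : Gau_chi p j * Gau_chi p (j * (Dk k : ℕ) / 4) * (A * B) = Gau_chi p (-1) * p := by
      rw [← h6, sq]
      nth_rewrite 1 [← h4]
      rw [← h5]
      ring
    calc A * B = (Gau_chi p j * Gau_chi p (j * (Dk k : ℕ) / 4) * (Gau_chi p (Dk k : ℕ))) *
          (A * B) := by
          rw [h7, one_mul]
      _ = Gau_chi p (Dk k : ℕ) * (Gau_chi p j * Gau_chi p (j * (Dk k : ℕ) / 4) * (A * B)) := by
          ring
      _ = (Gau_chi p (Dk k : ℕ) * Gau_chi p (-1)) * p := by rw [h11]; ring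
      _ = -(p : ℂ) := by rw [h9]; ring
  · intro u hu
    have hDz := Dk_cast (k := k)
    have h1 : (p : ℤ) ∣ (2 * u.re + u.im) ^ 2 - (-(Dk k : ℤ)) * u.im ^ 2 := by
      have h2 : (2 * u.re + u.im) ^ 2 - (-(Dk k : ℤ)) * u.im ^ 2 = 4 * Nm u := by
        rw [hDz]
        unfold Nm
        ring
      rw [h2, hu]
      exact Dvd.intro_left (4 * p) (by ring)
    obtain ⟨h2, h3⟩ := jacobiSym.prime_dvd_of_eq_neg_one hmD h1
    have h4 : (p : ℤ) ∣ 2 * u.re := by
      have : 2 * u.re = (2 * u.re + u.im) - u.im := by ring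
      rw [this]; exact dvd_sub h2 h3
    have h5 : (p : ℤ) ∣ u.re := by
      have hcop : IsCoprime (p : ℤ) 2 := by
        exact (Nat.isCoprime_iff_coprime (m := p) (n := 2)).2
          ((Nat.coprime_primes hp Nat.prime_two).2 hp2)
      exact hcop.dvd_of_dvd_mul_left h4
    obtain ⟨x, hx⟩ := h5
    obtain ⟨y, hy⟩ := h3
    have hp0 : (p : ℤ) ^ 2 ≠ 0 := by
      have : (p : ℤ) ≠ 0 := by exact_mod_cast hp.ne_zero
      exact pow_ne_zero 2 this
    have h6 : x ^ 2 + x * y + 2 * k * y ^ 2 = 1 := by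
      have h7 : (p : ℤ) ^ 2 * (x ^ 2 + x * y + 2 * k * y ^ 2) = (p : ℤ) ^ 2 * 1 := by
        unfold Nm at hu
        rw [hx, hy] at hu
        linear_combination hu
      exact mul_left_cancel₀ hp0 h7
    have hk1 : (1 : ℤ) ≤ k := hk1
    have h8 : y = 0 := by
      have h9 : (8 * (k : ℤ) - 1) * y ^ 2 ≤ 4 := by nlinarith [sq_nonneg (2 * x + y)]
      have h9' : 7 * y ^ 2 ≤ 4 := by nlinarith [mul_nonneg (sub_nonneg.2 hk1) (sq_nonneg y)]
      have h10 : y < 1 := by nlinarith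
      have h11 : -1 < y := by nlinarith
      omega
    subst h8
    have h12 : x ^ 2 = 1 := by linarith
    have hre : u.re = p * x := hx
    have him : u.im = 0 := by rw [hy]; ring
    have h13 : (x - 1) * (x + 1) = 0 := by linear_combination h12
    have h14 : x = 1 ∨ x = -1 := by
      rcases mul_eq_zero.1 h13 with h | h
      · left; omega
      · right; omega
    rcases h14 with h | h
    · left
      apply QuadraticAlgebra.ext
      · rw [hre, h, mul_one]; rfl
      · rw [him]; rfl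
    · right
      apply QuadraticAlgebra.ext
      · rw [hre, h]; simp
      · rw [him]; simp

end Pool.Agent.DK.C
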