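import Pool.Agent.Lib.DK.C.Spec

/-!
# THEOREM DK, Part C, module Gen: the theta function of weight 2 at `g z`
-/

set_option autoImplicit false

noncomputable section

namespace Pool.Agent.DK.C

open Pool.Agent.MuZ Pool.Agent.FW NumberField
open Pool.Agent.DI (io ofC io_inj exists_io io_ofC ofC_io VP MP UP TP ex sqr sqr_sq kap)

variable {k : ℕ}

private theorem Gen_ex_add (x y : ℂ) : ex (x + y) = ex x * ex y := by
  unfold ex
  rw [← Complex.exp_add]
  congr 1
  ring

private theorem Gen_ex_int (n : ℤ) : ex n = 1 := by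
  unfold ex
  rw [mul_comm]
  exact Complex.exp_int_mul_two_pi_mul_I n

private theorem Gen_Nm (m : ℕ) (v u : OO k) : ∃ j : ℤ, Nm (v + (m : OO k) * u) = Nm v + m * j := by
  have h1 : ((m : OO k) * u).re = m * u.re := by
    rw [re_mul, re_nat, im_nat]
    ring
  have h2 : ((m : OO k) * u).im = m * u.im := by
    rw [im_mul, re_nat, im_nat]
    ring
  have h3 : (v + (m : OO k) * u).re = v.re + m * u.re := by
    rw [QuadraticAlgebra.re_add, h1]
  have h4 : (v + (m : OO k) * u).im = v.im + m * u.im := by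
    rw [QuadraticAlgebra.im_add, h2]
  refine ⟨2 * v.re * u.re + v.re * u.im + v.im * u.re + 4 * k * v.im * u.im + m * Nm u, ?_⟩
  unfold Nm
  rw [h3, h4]
  ring

private theorem Gen_rsum_mul (m : ℕ) (t : ℂ) (F : OO k → ℂ) :
    rsum m (fun v => t * F v) = t * rsum m F := by
  unfold rsum
  simp only [Finset.mul_sum]

private theorem Gen_rsum_tsum (m : ℕ) (H : OO k → OO k → ℂ) (h : ∀ v, Summable (H v)) :
    rsum m (fun v => ∑' u, H v u) = ∑' u, rsum m (fun v => H v u) := by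
  unfold rsum
  rw [Summable.tsum_finsetSum]
  · refine Finset.sum_congr rfl fun x _ => ?_
    rw [Summable.tsum_finsetSum]
    intro y _
    exact h _
  · intro x _
    exact summable_sum fun y _ => h _

private theorem Gen_norm [SqK k] (v : OO k) : ‖toC (cjO v)‖ ≤ (Nm v : ℝ) + 1 := by
  have h1 := Nm_norm (cjO v)
  rw [Nm_cjO] at h1
  have h3 : (0 : ℝ) ≤ ‖toC (cjO v)‖ := norm_nonneg _
  nlinarith [sq_nonneg (‖toC (cjO v)‖ - 1), h1, h3]

/-- Summability of `ρ(v) v̄ e(N v z + real)`. -/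
private theorem Gen_sum [SqK k] (hS : S_Sum) (C : ℝ) (hC : 0 ≤ C) (ρ : OO k → ℂ)
    (hρ : ∀ v, ‖ρ v‖ ≤ C) (z : ℂ) (hz : 0 < z.im) (q : OO k → ℝ) :
    Summable fun v : OO k => ρ v * toC (cjO v) * ex (Nm v * z - q v) := by
  have h1 := (hS k).1 (2 * Real.pi * z.im) 1 (by positivity)
  refine Summable.of_norm_bounded (h1.mul_left C) fun v => ?_
  rw [norm_mul, norm_mul, (hS k).2.1]
  have h2 : ((Nm v : ℂ) * z - (q v : ℂ)).im = Nm v * z.im := by
    rw [Complex.sub_im, Complex.ofReal_im, sub_zero]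
    have h3 : ((Nm v : ℤ) : ℂ) = (((Nm v : ℤ) : ℝ) : ℂ) := by push_cast; rfl
    rw [h3, Complex.im_ofReal_mul]
  rw [h2, pow_one]
  have h4 : -2 * Real.pi * ((Nm v : ℝ) * z.im) = -(2 * Real.pi * z.im) * Nm v := by ring
  rw [h4, ← mul_assoc]
  have h5 := Gen_norm v
  have h6 := hρ v
  gcongr

theorem tGen (hT : S_Two) (hR : S_Res) (hS : S_Sum) : S_Gen := by
  intro k _ f c a b d ρ z hf hc hper hdet hz
  obtain ⟨C, hC, hρ⟩ := (hS k).2.2 f ρ hf hper
  have hcC : (c : ℂ) ≠ 0 := by exact_mod_cast hc.ne'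
  have hfC : (f : ℂ) ≠ 0 := by exact_mod_cast hf.ne'
  have hcR : (0 : ℝ) < c := by exact_mod_cast hc
  have hfR : (0 : ℝ) < f := by exact_mod_cast hf
  have hDR : (0 : ℝ) < (Dk k : ℝ) := by
    rw [Dk_castR]
    have h1 : (1 : ℝ) ≤ k := by exact_mod_cast hk1 (k := k)
    linarith
  have hDC : (Dk k : ℂ) ≠ 0 := by
    intro h
    have h1 : ((Dk k : ℕ) : ℝ) = 0 := by exact_mod_cast h
    exact hDR.ne' h1
  set w : ℂ := (c : ℂ) * z + d with hw
  have hwim : w.im = c * z.im := by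
    rw [hw]
    simp
  have hwim0 : 0 < w.im := by
    rw [hwim]
    positivity
  have hw0 : w ≠ 0 := by
    intro h
    rw [h] at hwim0
    simp at hwim0
  set τ : ℂ := -1 / (c * w) with hτ
  have hτim : 0 < τ.im := by
    have h1 : τ = (((c : ℝ)⁻¹ : ℝ) : ℂ) * (-w⁻¹) := by
      rw [hτ]
      push_cast
      field_simp
    rw [h1, Complex.im_ofReal_mul, Complex.neg_im, Complex.inv_im]
    have h2 : 0 < Complex.normSq w := Complex.normSq_pos.2 hw0
    rw [neg_div, neg_neg]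
    positivity
  have hdetC : (a : ℂ) * d - b * c = 1 := by exact_mod_cast hdet
  have hmob : mob a b c d z = a / c + τ := by
    unfold mob
    rw [hτ]
    have h1 : ((c : ℤ) : ℂ) * z + d = w := by
      rw [hw]
      push_cast
      rfl
    rw [h1]
    field_simp
    rw [hw]
    linear_combination (-1 : ℂ) * hdetC
  have hgim : 0 < (mob a b c d z).im := by
    rw [hmob, Complex.add_im]
    have h1 : ((a : ℂ) / c).im = 0 := by
      have h2 : ((a : ℂ) / c) = (((a : ℝ) / (c : ℝ) : ℝ) : ℂ) := by push_cast; rfl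
      rw [h2, Complex.ofReal_im]
    rw [h1, zero_add]
    exact hτim
  have hm : 0 < f * c := Nat.mul_pos hf hc
  have hF : Summable fun v : OO k => ρ v * toC (cjO v) * ex (Nm v * mob a b c d z) := by
    have h1 := Gen_sum hS C hC ρ hρ _ hgim (fun _ => 0)
    simpa using h1
  unfold Gt
  rw [((hR k).2.1 (f * c) _ hm hF).2]
  have key : ∀ v u : OO k, ρ (v + ((f * c : ℕ) : OO k) * u) * toC (cjO (v + ((f * c : ℕ) : OO k) * u)) *
      ex (Nm (v + ((f * c : ℕ) : OO k) * u) * mob a b c d z) = ρ v * ex (a * Nm v / c) *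
        (toC (cjO (v + ((f * c : ℕ) : OO k) * u)) * ex (Nm (v + ((f * c : ℕ) : OO k) * u) * τ)) := by
    intro v u
    have h1 : ρ (v + ((f * c : ℕ) : OO k) * u) = ρ v := by
      rw [Nat.cast_mul, mul_assoc]
      exact hper v _
    have h2 : ex (Nm (v + ((f * c : ℕ) : OO k) * u) * mob a b c d z)
        = ex (a * Nm v / c) * ex (Nm (v + ((f * c : ℕ) : OO k) * u) * τ) := by
      obtain ⟨j, hj⟩ := Gen_Nm (f * c) v u
      have h3 : (Nm (v + ((f * c : ℕ) : OO k) * u) : ℂ) * mob a b c d z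
          = a * Nm v / c + ((a * f * j : ℤ) : ℂ) + Nm (v + ((f * c : ℕ) : OO k) * u) * τ := by
        rw [hmob, hj]
        push_cast
        field_simp
      rw [h3, Gen_ex_add, Gen_ex_add, Gen_ex_int, mul_one]
    rw [h1, h2]
    ring
  have key2 : ∀ v : OO k, ∑' u : OO k, ρ (v + ((f * c : ℕ) : OO k) * u) *
      toC (cjO (v + ((f * c : ℕ) : OO k) * u)) *
      ex (Nm (v + ((f * c : ℕ) : OO k) * u) * mob a b c d z)
      = (-w ^ 2 / (Dk k * f ^ 3 * c)) * ∑' u : OO k, toC (cjO u) * ex (Nm u * z / (Dk k * f ^ 2)) *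
        (ρ v * ex (a * Nm v / c - (v * cjO u).im / (f * c) + d * Nm u / (Dk k * f ^ 2 * c))) := by
    intro v
    rw [tsum_congr (key v), tsum_mul_left, hT k (f * c) v τ hm hτim]
    have h1 : (-1 : ℂ) / (Dk k * ((f * c : ℕ) : ℂ) ^ 3 * τ ^ 2) = -w ^ 2 / (Dk k * f ^ 3 * c) := by
      rw [hτ]
      push_cast
      field_simp
    rw [h1, mul_left_comm, ← tsum_mul_left]
    congr 1
    refine tsum_congr fun u => ?_
    have h2 : (-(Nm u : ℂ)) / (Dk k * ((f * c : ℕ) : ℂ) ^ 2 * τ)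
        - ((v * cjO u).im : ℂ) / ((f * c : ℕ) : ℂ)
        + a * Nm v / c = Nm u * z / (Dk k * f ^ 2)
        + (a * Nm v / c - (v * cjO u).im / (f * c) + d * Nm u / (Dk k * f ^ 2 * c)) := by
      rw [hτ, hw]
      have h3 : (c : ℂ) * z + d ≠ 0 := by rw [← hw]; exact hw0
      push_cast
      field_simp
      ring
    have h4 := congrArg ex h2
    rw [Gen_ex_add, Gen_ex_add (Nm u * z / (Dk k * f ^ 2))] at h4
    linear_combination (ρ v * toC (cjO u)) * h4
  have hsum : ∀ v : OO k, Summable fun u : OO k => toC (cjO u) * ex (Nm u * z / (Dk k * f ^ 2)) *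
        (ρ v * ex (a * Nm v / c - (v * cjO u).im / (f * c) + d * Nm u / (Dk k * f ^ 2 * c))) := by
    intro v
    have hz1 : 0 < (z / ((Dk k : ℂ) * (f : ℂ) ^ 2)).im := by
      have h2 : z / ((Dk k : ℂ) * (f : ℂ) ^ 2) = ((((Dk k : ℝ) * (f : ℝ) ^ 2)⁻¹ : ℝ) : ℂ) * z := by
        push_cast
        field_simp
      rw [h2, Complex.im_ofReal_mul]
      positivity
    have h1 := Gen_sum hS 1 zero_le_one (fun _ : OO k => 1) (by simp) _ hz1
      (fun u => -((a * Nm v / c - (v * cjO u).im / (f * c) + d * Nm u / (Dk k * f ^ 2 * c) : ℝ)))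
    refine (h1.mul_left (ρ v)).congr fun u => ?_
    have h2 : (Nm u : ℂ) * (z / ((Dk k : ℂ) * (f : ℂ) ^ 2))
        - ((-((a * Nm v / c - (v * cjO u).im / (f * c) + d * Nm u / (Dk k * f ^ 2 * c) : ℝ)) : ℝ) : ℂ)
        = Nm u * z / (Dk k * f ^ 2)
          + (a * Nm v / c - (v * cjO u).im / (f * c) + d * Nm u / (Dk k * f ^ 2 * c)) := by
      push_cast
      ring
    rw [h2, Gen_ex_add]
    ring
  rw [show (fun v : OO k => ∑' u : OO k, ρ (v + ((f * c : ℕ) : OO k) * u) *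
      toC (cjO (v + ((f * c : ℕ) : OO k) * u)) *
      ex (Nm (v + ((f * c : ℕ) : OO k) * u) * mob a b c d z)) = _ from funext key2, Gen_rsum_mul,
    Gen_rsum_tsum _ _ hsum]
  have h5 : ∀ u : OO k, rsum (f * c) (fun v : OO k => toC (cjO u) * ex (Nm u * z / (Dk k * f ^ 2)) *
        (ρ v * ex (a * Nm v / c - (v * cjO u).im / (f * c) + d * Nm u / (Dk k * f ^ 2 * c))))
      = toC (cjO u) * ex (Nm u * z / (Dk k * f ^ 2)) * BB ρ f a d c u := by
    intro u
    rw [Gen_rsum_mul]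
    rfl
  rw [tsum_congr h5]
  ring

end Pool.Agent.DK.C
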