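import Pool.Agent.Lib.DK.C.Spec

/-!
# THEOREM DK, Part C, module Kap: `Γ_0(D f²)` with an unknown multiplier
-/

set_option autoImplicit false

open Filter Topology
open scoped Pointwise

noncomputable section

namespace Pool.Agent.DK.C

open Pool.Agent.MuZ Pool.Agent.FW NumberField
open Pool.Agent.DI (io ofC io_inj exists_io io_ofC ofC_io VP MP UP TP ex sqr sqr_sq kap)

variable {k : ℕ}

private lemma ex_add' (x y : ℂ) : ex (x + y) = ex x * ex y := by
  unfold ex
  rw [mul_add, Complex.exp_add]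

private lemma ex_int' (n : ℤ) : ex (n : ℂ) = 1 := by
  unfold ex
  have h : 2 * (Real.pi : ℂ) * Complex.I * (n : ℂ) = (n : ℂ) * (2 * Real.pi * Complex.I) := by ring
  rw [h]
  exact Complex.exp_int_mul_two_pi_mul_I n

private lemma ex_congr' {x y : ℂ} (n : ℤ) (h : x = y + n) : ex x = ex y := by
  rw [h, ex_add', ex_int', mul_one]

private lemma sD_ne : sD k ≠ 0 := by
  intro h
  have h2 := congrArg QuadraticAlgebra.im h
  simp [sD] at h2

private lemma cj_sD : cjO (sD k) = -sD k := by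
  apply ext'
  · simp only [cjO, sD, QuadraticAlgebra.re_neg]
    norm_num
  · simp only [cjO, sD, QuadraticAlgebra.im_neg]

private lemma nm_sD [SqK k] : Nm (sD k) = (Dk k : ℤ) := by
  rw [Dk_cast]
  simp only [Nm, sD]
  ring

private lemma Dk_ne [SqK k] : ((Dk k : ℕ) : ℂ) ≠ 0 := by
  have h1 := Dk_cast (k := k)
  have h2 := hk1 (k := k)
  have h3 : Dk k ≠ 0 := by omega
  exact_mod_cast h3

private lemma cj_fsD (f : ℕ) (v : OO k) :
    cjO ((f : OO k) * sD k * v) = -((f : OO k) * sD k * cjO v) := by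
  rw [cjO_mul, cjO_mul, cjO_nat, cj_sD]
  ring

private lemma nm_fsD [SqK k] (f : ℕ) (v : OO k) :
    Nm ((f : OO k) * sD k * v) = Dk k * (f : ℤ) ^ 2 * Nm v := by
  rw [Nm_mul, Nm_mul, Nm_nat, nm_sD]
  ring

private lemma Gt_per (ρ : OO k → ℂ) (z : ℂ) (n : ℤ) : Gt ρ (z + n) = Gt ρ z := by
  unfold Gt
  congr 1
  refine tsum_congr fun v => ?_
  congr 1
  refine ex_congr' (Nm v * n) ?_
  push_cast
  ring

private lemma Gt_neg (ρ : OO k → ℂ) (z : ℂ) : Gt (fun v => -ρ v) z = -Gt ρ z := by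
  unfold Gt
  rw [← mul_neg, ← tsum_neg]
  congr 1
  refine tsum_congr fun v => ?_
  ring

private lemma tw_neg (ρ : OO k → ℂ) (hρ : OddO ρ) (d : ℤ) :
    tw ρ (((-d : ℤ)) : OO k) = fun v => -tw ρ (d : OO k) v := by
  funext v
  unfold tw
  rw [← hρ]
  congr 1
  push_cast
  ring

private lemma pos_case [SqK k] (hG : S_Gen) (hC : S_Gam) {f c : ℕ} {a b d : ℤ}
    {ρ : OO k → ℂ} {z : ℂ} (hf : 0 < f) (hc : 0 < c) (hρ : PerO f ρ) (hodd : OddO ρ)
    (hab : a * d - b * c = 1) (hdvd : Dk k * f ^ 2 ∣ c) (hz : 0 < z.im) :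
    Gt ρ (mob a b c d z) = KK k f a c * ((c : ℂ) * z + d) ^ 2 * Gt (tw ρ (d : OO k)) z := by
  have hf' : (f : ℂ) ≠ 0 := by exact_mod_cast hf.ne'
  have hc' : (c : ℂ) ≠ 0 := by exact_mod_cast hc.ne'
  have hD := Dk_ne (k := k)
  have hs : toC (sD k) ≠ 0 := toC_ne sD_ne
  obtain ⟨h1, h2⟩ := hC k f c a b d ρ hf hc hρ hab hdvd
  rw [hG k f c a b d ρ z hf hc hρ hab hz]
  have hinj : Function.Injective (fun v : OO k => (f : OO k) * sD k * v) := by
    intro v w hvw
    have h3 : (f : OO k) * sD k * (v - w) = 0 := by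
      have : (f : OO k) * sD k * v = (f : OO k) * sD k * w := hvw
      rw [mul_sub, this, sub_self]
    have h4 : toC ((f : OO k) * sD k * (v - w)) = 0 := by rw [h3, toC_zero]
    rw [toC_mul, toC_mul, toC_nat] at h4
    have h5 : toC (v - w) = 0 := by
      rcases mul_eq_zero.1 h4 with h | h
      · exact absurd h (mul_ne_zero hf' hs)
      · exact h
    exact sub_eq_zero.1 (toC_eq_zero.1 h5)
  have hsum : ∑' u : OO k, toC (cjO u) * ex (Nm u * z / (Dk k * f ^ 2)) * BB ρ f a d c u =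
      ∑' v : OO k, (f : ℂ) * toC (sD k) * GG k f a c *
        (tw ρ (d : OO k) v * toC (cjO v) * ex (Nm v * z)) := by
    rw [← hinj.tsum_eq (f := fun u : OO k =>
      toC (cjO u) * ex (Nm u * z / (Dk k * f ^ 2)) * BB ρ f a d c u)]
    · refine tsum_congr fun v => ?_
      have e1 : toC (cjO ((f : OO k) * sD k * v)) = -((f : ℂ) * toC (sD k) * toC (cjO v)) := by
        rw [cj_fsD, toC_neg, toC_mul, toC_mul, toC_nat]
      have e2 : ex (Nm ((f : OO k) * sD k * v) * z / (Dk k * f ^ 2)) = ex (Nm v * z) := by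
        rw [nm_fsD]
        congr 1
        push_cast
        field_simp
      have e3 : BB ρ f a d c ((f : OO k) * sD k * v) = -tw ρ (d : OO k) v * GG k f a c := by
        rw [h2 v, hodd]
        rfl
      show toC (cjO ((f : OO k) * sD k * v)) * ex (Nm ((f : OO k) * sD k * v) * z /
        (Dk k * f ^ 2)) * BB ρ f a d c ((f : OO k) * sD k * v) = _
      rw [e1, e2, e3]
      ring
    · intro u hu
      by_contra hnot
      apply hu
      have h3 : ¬ ((f : OO k) * sD k : OO k) ∣ u := by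
        rintro ⟨v, hv⟩
        exact hnot ⟨v, hv.symm⟩
      show toC (cjO u) * ex (Nm u * z / (Dk k * f ^ 2)) * BB ρ f a d c u = 0
      rw [h1 u h3, mul_zero]
  rw [hsum, tsum_mul_left]
  unfold KK Gt
  field_simp

theorem tKap (hG : S_Gen) (hM : S_Gam) (hS : S_Sum) : S_Kap := by
  have _ := hS
  intro k _ f a b c d hf hab hdvd
  rcases lt_trichotomy c 0 with hneg | hzero | hpos
  · -- `c < 0`
    obtain ⟨n, hn⟩ : ∃ n : ℕ, (n : ℤ) = -c := ⟨(-c).toNat, Int.toNat_of_nonneg (by omega)⟩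
    have hn0 : 0 < n := by omega
    have hc : c = -(n : ℤ) := by omega
    have hdvd' : Dk k * f ^ 2 ∣ n := by
      have h1 : ((Dk k * f ^ 2 : ℕ) : ℤ) ∣ (n : ℤ) := by
        rw [hn, dvd_neg]; push_cast; exact hdvd
      exact_mod_cast h1
    refine ⟨-KK k f (-a) n, fun ρ hodd hρ z hz => ?_⟩
    have h1 := pos_case hG hM (a := -a) (b := -b) (d := -d) hf hn0 hρ hodd
      (by rw [hn]; linarith) hdvd' hz
    have h2 : mob (-a) (-b) n (-d) z = mob a b c d z := by
      unfold mob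
      rw [hc]
      push_cast
      rw [← neg_div_neg_eq]
      congr 1 <;> ring
    rw [h2, tw_neg ρ hodd, Gt_neg] at h1
    rw [h1, hc]
    push_cast
    ring
  · -- `c = 0`
    subst hzero
    refine ⟨(d : ℂ), fun ρ hodd hρ z hz => ?_⟩
    have had : a * d = 1 := by linarith
    rcases Int.eq_one_or_neg_one_of_mul_eq_one' had with ⟨ha, hd⟩ | ⟨ha, hd⟩
    · subst ha hd
      have h1 : mob 1 b 0 1 z = z + b := by
        unfold mob; push_cast; simp
      have h2 : tw ρ ((1 : ℤ) : OO k) = ρ := by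
        funext v; unfold tw; simp
      rw [h1, h2, Gt_per]
      push_cast
      ring
    · subst ha hd
      have h1 : mob (-1) b 0 (-1) z = z + ((-b : ℤ) : ℂ) := by
        unfold mob; push_cast
        rw [zero_mul, zero_add, div_neg, div_one]
        ring
      have h2 : tw ρ ((-1 : ℤ) : OO k) = fun v => -ρ v := by
        funext v; unfold tw
        rw [← hodd]
        congr 1
        push_cast
        ring
      rw [h1, h2, Gt_per, Gt_neg]
      push_cast
      ring
  · -- `c > 0`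
    obtain ⟨n, hn⟩ : ∃ n : ℕ, (n : ℤ) = c := ⟨c.toNat, Int.toNat_of_nonneg (by omega)⟩
    have hn0 : 0 < n := by omega
    have hdvd' : Dk k * f ^ 2 ∣ n := by
      have h1 : ((Dk k * f ^ 2 : ℕ) : ℤ) ∣ (n : ℤ) := by
        rw [hn]; push_cast; exact hdvd
      exact_mod_cast h1
    refine ⟨KK k f a n, fun ρ hodd hρ z hz => ?_⟩
    have h1 := pos_case hG hM (a := a) (b := b) (d := d) hf hn0 hρ hodd
      (by rw [hn]; exact hab) hdvd' hz
    rw [← hn]
    rw [h1]
    push_cast
    ring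

end Pool.Agent.DK.C
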