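import Pool.Agent.Lib.DK.C.Spec

/-!
# MP_d0239a_nt (theorem DK, part C): splitting modulo `n`
-/

set_option autoImplicit false

open Filter Topology
open scoped Pointwise

noncomputable section

namespace Pool.Agent.DK.C

open Pool.Agent.MuZ Pool.Agent.FW NumberField
open Pool.Agent.DI (io ofC io_inj exists_io io_ofC ofC_io VP MP UP TP ex sqr sqr_sq kap)

private lemma Spl_ex_add (x y : ℂ) : ex (x + y) = ex x * ex y := by
  unfold ex
  rw [mul_add, Complex.exp_add]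

private lemma Spl_ex_int (n : ℤ) : ex (n : ℂ) = 1 := by
  unfold ex
  rw [Complex.exp_eq_one_iff]
  exact ⟨n, by ring⟩

private lemma Spl_norm (x l : ℂ) (r : ℝ) :
    ‖x + r * l‖ ^ 2 = ‖x‖ ^ 2 + r * (‖x + l‖ ^ 2 - ‖x‖ ^ 2 - ‖l‖ ^ 2) + r ^ 2 * ‖l‖ ^ 2 := by
  simp only [Complex.sq_norm, Complex.normSq_apply, Complex.add_re, Complex.add_im, Complex.mul_re,
    Complex.mul_im, Complex.ofReal_re, Complex.ofReal_im]
  ring

/-- The value of one term. -/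
private lemma Spl_term (f n t N : ℕ) (hf : 0 < f) (hn : 0 < n) (u l : ℂ) (y : ℝ) (c : ℤ) (m : ℤ) (m' : ℕ)
    (h1 : (N : ℝ) * (‖(1 + f * n * u) + l‖ ^ 2 - ‖1 + f * n * u‖ ^ 2 - ‖l‖ ^ 2) = m)
    (h2 : (N : ℝ) * ‖l‖ ^ 2 = m') :
    ex ((((f : ℝ) ^ 2 * N * ‖(n : ℂ)‖ ^ 2 : ℝ) : ℂ) * ((‖1 / (f * n) + u + l‖ : ℝ) : ℂ) ^ 2 *
        (t * ((c : ℂ) / n + y * Complex.I))) =
      ex (c * (t * N * ((‖1 + f * n * u‖ : ℝ) : ℂ) ^ 2) / n) *
        ((Real.exp (-(2 * Real.pi * y * f ^ 2 * N * t * n ^ 2) * ‖1 / (f * n) + u + l‖ ^ 2) : ℝ) : ℂ) := by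
  have hf' : (f : ℂ) ≠ 0 := by exact_mod_cast hf.ne'
  have hn' : (n : ℂ) ≠ 0 := by exact_mod_cast hn.ne'
  have hfr : (f : ℝ) ≠ 0 := by exact_mod_cast hf.ne'
  have hnr : (n : ℝ) ≠ 0 := by exact_mod_cast hn.ne'
  have e0 : (f * n : ℂ) * (1 / (f * n) + u + l) = (1 + f * n * u) + (((f * n : ℕ) : ℝ) : ℂ) * l := by
    push_cast
    field_simp
  have e1 : ((f : ℝ) * n) ^ 2 * ‖1 / ((f : ℂ) * n) + u + l‖ ^ 2 =
      ‖(1 + f * n * u) + (((f * n : ℕ) : ℝ) : ℂ) * l‖ ^ 2 := by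
    rw [← e0, norm_mul, norm_mul, Complex.norm_natCast, Complex.norm_natCast, mul_pow]
    ring
  rw [Spl_norm] at e1
  have e2 : (N : ℝ) * (((f : ℝ) * n) ^ 2 * ‖1 / ((f : ℂ) * n) + u + l‖ ^ 2) =
      N * ‖1 + (f : ℂ) * n * u‖ ^ 2 + f * n * m + (f * n) ^ 2 * m' := by
    rw [e1, ← h1, ← h2]
    push_cast
    ring
  have e3 : (N : ℂ) * (((f : ℂ) * n) ^ 2 * ((‖1 / ((f : ℂ) * n) + u + l‖ : ℝ) : ℂ) ^ 2) =
      N * ((‖1 + (f : ℂ) * n * u‖ : ℝ) : ℂ) ^ 2 + f * n * m + (f * n) ^ 2 * m' := by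
    have := congrArg (fun r : ℝ => (r : ℂ)) e2
    push_cast at this
    exact this
  have e4 : (((f : ℝ) ^ 2 * N * ‖(n : ℂ)‖ ^ 2 : ℝ) : ℂ) * ((‖1 / (f * n) + u + l‖ : ℝ) : ℂ) ^ 2 *
        (t * ((c : ℂ) / n + y * Complex.I)) =
      c * (t * N * ((‖1 + f * n * u‖ : ℝ) : ℂ) ^ 2) / n + (((c * t * (f * m + f ^ 2 * n * m') : ℤ) : ℂ) +
        (((2 * Real.pi * y * f ^ 2 * N * t * n ^ 2) * ‖1 / ((f : ℂ) * n) + u + l‖ ^ 2 / (2 * Real.pi) : ℝ) : ℂ) *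
          Complex.I) := by
    have e5 : (((f : ℝ) ^ 2 * N * ‖(n : ℂ)‖ ^ 2 : ℝ) : ℂ) * ((‖1 / (f * n) + u + l‖ : ℝ) : ℂ) ^ 2 =
        (N : ℂ) * (((f : ℂ) * n) ^ 2 * ((‖1 / ((f : ℂ) * n) + u + l‖ : ℝ) : ℂ) ^ 2) := by
      rw [Complex.norm_natCast]
      push_cast
      ring
    have e6 : (((2 * Real.pi * y * f ^ 2 * N * t * n ^ 2) * ‖1 / ((f : ℂ) * n) + u + l‖ ^ 2 /
          (2 * Real.pi) : ℝ) : ℂ) =
        (N : ℂ) * (((f : ℂ) * n) ^ 2 * ((‖1 / ((f : ℂ) * n) + u + l‖ : ℝ) : ℂ) ^ 2) * (t * y) := by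
      have hpi : (Real.pi : ℂ) ≠ 0 := by exact_mod_cast Real.pi_ne_zero
      push_cast
      field_simp
    rw [e5, e6, e3]
    push_cast
    field_simp
    ring
  rw [e4, Spl_ex_add, Spl_ex_add, Spl_ex_int, one_mul]
  congr 1
  unfold ex
  rw [Complex.ofReal_exp]
  congr 1
  have hpi : (Real.pi : ℂ) ≠ 0 := by exact_mod_cast Real.pi_ne_zero
  push_cast
  field_simp
  rw [Complex.I_sq]
  ring

theorem tSpl (hL : S_Lt) (hT : S_Tt) (hR : S_Red) : S_Spl := by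
  intro k _ f n t b c U hf hn ht hb hU y hy
  obtain ⟨hN, hmem, htr, hint, hint2, hbd, hsum⟩ := hL k b hb
  obtain ⟨T1, _, _, _, T5⟩ := hT
  obtain ⟨_, _, R3, _⟩ := hR k f b hf hb 1
  have hf' : (f : ℂ) ≠ 0 := by exact_mod_cast hf.ne'
  have hn' : (n : ℂ) ≠ 0 := by exact_mod_cast hn.ne'
  have hone : (1 : ℂ) ∈ Lam b := fun v _ => ⟨v, mul_one _⟩
  have hset : cs (((1 : ℤ) : ℂ) / f) b = ⋃ u ∈ U, (fun v => (n : ℂ) * v) '' cs (1 / (f * n) + u) b := by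
    ext v
    simp only [Set.mem_iUnion, Set.mem_image, cs, Set.mem_ofPred_eq, exists_prop]
    constructor
    · intro hv
      have h1 : v / n - 1 / (f * n) ∈ Lam (sp (n : OO k) * b) := by
        rw [lam_sp, toC_nat]
        have : (n : ℂ) * (v / n - 1 / (f * n)) = v - ((1 : ℤ) : ℂ) / f := by
          push_cast
          field_simp
        rw [this]
        exact hv
      obtain ⟨u, hu, h2⟩ := hU.ex _ h1
      refine ⟨u, hu, v / n, ?_, by field_simp⟩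
      have : v / n - (1 / (f * n) + u) = v / n - 1 / (f * n) - u := by ring
      rw [this]
      exact h2
    · rintro ⟨u, hu, w, hw, rfl⟩
      have h1 : u ∈ Lam (sp (n : OO k) * b) := hU.mem u hu
      rw [lam_sp, toC_nat] at h1
      have h2 := lam_nat n hw
      have : (n : ℂ) * w - ((1 : ℤ) : ℂ) / f = n * (w - (1 / (f * n) + u)) + n * u := by
        push_cast
        field_simp
        ring
      rw [this]
      exact lam_add h2 h1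
  have hdis : ∀ u ∈ U, ∀ u' ∈ U, ∀ v : ℂ, v ∈ (fun v => (n : ℂ) * v) '' cs (1 / (f * n) + u) b →
      v ∈ (fun v => (n : ℂ) * v) '' cs (1 / (f * n) + u') b → u = u' := by
    rintro u hu u' hu' v ⟨w, hw, rfl⟩ ⟨w', hw', h⟩
    have h1 : w' = w := mul_left_cancel₀ hn' h
    subst h1
    refine hU.uni u hu u' hu' ?_
    have : u - u' = (w' - (1 / (f * n) + u')) - (w' - (1 / (f * n) + u)) := by ring
    rw [this]
    exact lam_sub hw' hw
  have htor : Tor k (((1 : ℤ) : ℂ) / f) := by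
    refine ⟨1, f, hf, ?_⟩
    rw [toC_one]
    push_cast
    rfl
  have him : 0 < ((t : ℂ) * ((c : ℂ) / n + y * Complex.I)).im := by
    have h1 : ((t : ℂ) * ((c : ℂ) / n + y * Complex.I)).im = t * y := by
      have h2 : (t : ℂ) * ((c : ℂ) / n + y * Complex.I) = ((t * (c / n) : ℝ) : ℂ) + ((t * y : ℝ) : ℂ) * Complex.I := by
        push_cast
        ring
      rw [h2]
      simp
    rw [h1]
    have : (0 : ℝ) < t := by exact_mod_cast ht
    positivity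
  have hw : (0 : ℝ) < (f : ℝ) ^ 2 * NI b := by
    have h1 : (0 : ℝ) < f := by exact_mod_cast hf
    have h2 : (0 : ℝ) < NI b := by exact_mod_cast hN
    positivity
  have hS := hsum _ _ _ htor hw him
  rw [R3]
  have h5 := T5 U (fun u => (fun v => (n : ℂ) * v) '' cs (1 / (f * n) + u) b) ((f : ℝ) ^ 2 * NI b)
    ((t : ℂ) * ((c : ℂ) / n + y * Complex.I)) hdis (by rw [← hset]; exact hS)
  rw [← hset] at h5
  rw [h5, Finset.mul_sum]
  refine Finset.sum_congr rfl fun u hu => ?_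
  rw [T1 _ _ _ _ hn']
  congr 1
  have hx : 1 + (f : ℂ) * n * u ∈ Lam b := by
    have h1 : u ∈ Lam (sp (n : OO k) * b) := hU.mem u hu
    rw [lam_sp, toC_nat] at h1
    have h2 := lam_nat f h1
    have : (f : ℂ) * n * u = f * (n * u) := by ring
    rw [this]
    exact lam_add hone h2
  have hK : KtC b (2 * Real.pi * y * f ^ 2 * NI b * t * n ^ 2) (1 / (f * n) + u) =
      ∑' v : cs (1 / ((f : ℂ) * n) + u) b, (v : ℂ)⁻¹ *
        ((Real.exp (-(2 * Real.pi * y * f ^ 2 * NI b * t * n ^ 2) * ‖(v : ℂ)‖ ^ 2) : ℝ) : ℂ) :=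
    htr (1 / ((f : ℂ) * n) + u) (fun v => v⁻¹ *
        ((Real.exp (-(2 * Real.pi * y * f ^ 2 * NI b * t * n ^ 2) * ‖v‖ ^ 2) : ℝ) : ℂ))
  rw [hK, ← tsum_mul_left]
  unfold TT
  refine tsum_congr fun v => ?_
  obtain ⟨v, hv⟩ := v
  have hl : v - (1 / ((f : ℂ) * n) + u) ∈ Lam b := hv
  obtain ⟨m', hm'⟩ := hint _ hl
  obtain ⟨m, hm⟩ := hint2 _ hx _ hl
  have h := Spl_term f n t (NI b) hf hn u _ y c m m' hm hm'
  have h7 : 1 / ((f : ℂ) * n) + u + (v - (1 / ((f : ℂ) * n) + u)) = v := by ring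
  rw [h7] at h
  change v⁻¹ * _ = _ * (v⁻¹ * _)
  rw [h]
  ring

end Pool.Agent.DK.C
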