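import Pool.Agent.Lib.DK.C.Spec

/-!
# Theorem DK, part C: cusps of `Tc`
-/

set_option autoImplicit false

open scoped Pointwise

noncomputable section

namespace Pool.Agent.DK.C

open Pool.Agent.MuZ Pool.Agent.FW NumberField

private theorem Tcc_den {a b c d : ℤ} (h : a * d - b * c = 1) {z : ℂ} (hz : 0 < z.im) :
    (c : ℂ) * z + d ≠ 0 := by
  intro h0
  have him := congrArg Complex.im h0
  have hre := congrArg Complex.re h0
  simp only [Complex.add_im, Complex.mul_im, Complex.intCast_re, Complex.intCast_im, zero_mul,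
    add_zero, Complex.zero_im] at him
  simp only [Complex.add_re, Complex.mul_re, Complex.intCast_re, Complex.intCast_im, zero_mul,
    sub_zero, Complex.zero_re] at hre
  rcases mul_eq_zero.1 him with hc | hc
  · rw [hc, zero_mul, zero_add] at hre
    have hc' : c = 0 := by exact_mod_cast hc
    have hd' : d = 0 := by exact_mod_cast hre
    rw [hc', hd'] at h
    simp at h
  · exact hz.ne' hc

private theorem Tcc_im {a b c d : ℤ} (h : a * d - b * c = 1) {z : ℂ} (hz : 0 < z.im) :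
    0 < (mob a b c d z).im := by
  have hden := Tcc_den h hz
  have hN : 0 < Complex.normSq ((c : ℂ) * z + d) := Complex.normSq_pos.2 hden
  have hR : (a : ℝ) * d - b * c = 1 := by exact_mod_cast h
  unfold mob
  rw [Complex.div_im, ← sub_div]
  apply div_pos _ hN
  simp only [Complex.add_im, Complex.mul_im, Complex.intCast_re, Complex.intCast_im, zero_mul,
    add_zero, Complex.add_re, Complex.mul_re, sub_zero]
  have e : (a : ℝ) * z.im * (c * z.re + d) - (a * z.re + b) * (c * z.im) =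
      (a * d - b * c) * z.im := by ring
  rw [e, hR, one_mul]
  exact hz

/-- the function matters only on the upper half plane -/
private theorem Tcc_congr {M : ℕ} {G G' : ℂ → ℂ} {k0 : ℂ} (h : HasE M G k0)
    (hG : ∀ z : ℂ, 0 < z.im → G z = G' z) : HasE M G' k0 := by
  obtain ⟨e, C, h0, hb, hs⟩ := h
  exact ⟨e, C, h0, hb, fun z hz => hG z hz ▸ hs z hz⟩

/-- the matrix identity -/
private theorem Tcc_mat {a b' c d : ℤ} (hdet : a * d - b' * c = 1) {t n : ℕ} (ht : 0 < t)
    (hn : 0 < n) : ∃ (p x q y : ℤ) (α δ : ℕ) (β : ℤ), p * y - x * q = 1 ∧ 0 < α ∧ 0 < δ ∧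
      α * δ = t * n ∧ (t : ℤ) * a = α * p ∧ (n : ℤ) * c = α * q ∧ p * β + x * δ = t * b' ∧
      q * β + y * δ = n * d := by
  have ht' : (t : ℤ) ≠ 0 := by exact_mod_cast ht.ne'
  have hn' : (n : ℤ) ≠ 0 := by exact_mod_cast hn.ne'
  have hg : 0 < Int.gcd (t * a) (n * c) := by
    rw [Int.gcd_pos_iff]
    by_contra h
    push Not at h
    obtain ⟨h1, h3⟩ := h
    have ha : a = 0 := (mul_eq_zero.1 h1).resolve_left ht'
    have hc : c = 0 := (mul_eq_zero.1 h3).resolve_left hn'
    rw [ha, hc] at hdet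
    simp at hdet
  obtain ⟨p, q, hpq, hp, hq⟩ := Int.exists_gcd_one hg
  obtain ⟨α, hα⟩ : ∃ α : ℕ, α = Int.gcd (t * a) (n * c) := ⟨_, rfl⟩
  rw [← hα] at hp hq hg
  obtain ⟨u, v, huv⟩ := Int.isCoprime_iff_gcd_eq_one.2 hpq
  have hαd : (α : ℤ) ∣ t * n := by
    refine ⟨d * p * n - b' * q * t, ?_⟩
    have e : (t : ℤ) * n = d * (t * a) * n - b' * (n * c) * t := by
      have : d * ((t : ℤ) * a) * n - b' * (n * c) * t = t * n * (a * d - b' * c) := by ring
      rw [this, hdet, mul_one]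
    rw [e, hp, hq]
    ring
  have hαd' : α ∣ t * n := by exact_mod_cast hαd
  obtain ⟨δ, hδ⟩ := hαd'
  have hα' : (α : ℤ) ≠ 0 := by exact_mod_cast hg.ne'
  have hδ0 : 0 < δ := by
    rcases Nat.eq_zero_or_pos δ with h | h
    · rw [h, mul_zero] at hδ
      have := Nat.mul_pos ht hn
      omega
    · exact h
  have hδ' : (t : ℤ) * n = α * δ := by exact_mod_cast hδ
  have hbz : p * u - -v * q = 1 := by linarith
  refine ⟨p, -v, q, u, α, δ, u * t * b' - -v * n * d, hbz, hg, hδ0, hδ.symm, by rw [hp]; ring,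
    by rw [hq]; ring, ?_, ?_⟩
  · apply mul_left_cancel₀ hα'
    have e1 : (α : ℤ) * (p * (u * t * b' - -v * n * d) + -v * δ) =
        (p * α) * (u * t * b' - -v * n * d) + -v * (α * δ) := by ring
    rw [e1, ← hδ', ← hp]
    have e2 : (t : ℤ) * a * (u * t * b' - -v * n * d) + -v * (t * n) =
        t * b' * (u * (t * a) - -v * (n * c)) + t * n * v * (a * d - b' * c - 1) := by ring
    rw [e2, hdet, hp, hq]
    have e3 : (t : ℤ) * b' * (u * (p * α) - -v * (q * α)) + t * n * v * (1 - 1) =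
        t * b' * α * (p * u - -v * q) := by ring
    rw [e3, hbz]
    ring
  · apply mul_left_cancel₀ hα'
    have e1 : (α : ℤ) * (q * (u * t * b' - -v * n * d) + u * δ) =
        (q * α) * (u * t * b' - -v * n * d) + u * (α * δ) := by ring
    rw [e1, ← hδ', ← hq]
    have e2 : (n : ℤ) * c * (u * t * b' - -v * n * d) + u * (t * n) =
        n * d * (u * (t * a) - -v * (n * c)) - u * t * n * (a * d - b' * c - 1) := by ring
    rw [e2, hdet, hp, hq]
    have e3 : (n : ℤ) * d * (u * (p * α) - -v * (q * α)) - u * t * n * (1 - 1) =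
        n * d * α * (p * u - -v * q) := by ring
    rw [e3, hbz]
    ring

theorem tTcc (hC : S_Cus) (hE : S_Exp) (hR : S_Red) (h2 : S_O2) : S_Tcc := by
  intro k _ f b s hf hb a b' c d hdet t M ht hM hdvd
  obtain ⟨_, _, _, _, _, n6, _, _⟩ := h2 k
  obtain ⟨E1, E2, E3, _⟩ := hE
  obtain ⟨n, hnb⟩ : ∃ n : ℕ, n = NI b := ⟨_, rfl⟩
  have hn0 : 0 < n := by
    rw [hnb]
    exact Nat.pos_of_ne_zero fun h => hb ((n6 b).1 h)
  obtain ⟨⟨r1, r2⟩, r3, _, _, _, _, _⟩ := hR k f b hf hb s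
  rw [← hnb] at hdvd r2 r3
  obtain ⟨p, x, q, y, α, δ, β, hpq, hα, hδ, hαδ, hp, hq, h1, h3⟩ := Tcc_mat hdet ht hn0
  obtain ⟨k0, hk0⟩ := hC k (f * n) p x q y (rhS f b s) (Nat.mul_pos hf hn0) hpq r2
  have hD : 0 < Dk k := by
    have := DK.hk (k := k)
    unfold Dk
    omega
  have hDF : 0 < Dk k * (f * n) ^ 2 := Nat.mul_pos hD (pow_pos (Nat.mul_pos hf hn0) 2)
  have hs1 := E3 _ _ _ α δ β hDF hα hδ hk0
  have hdv : Dk k * (f * n) ^ 2 * δ ∣ M := by
    refine Dvd.dvd.trans ⟨α, ?_⟩ hdvd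
    have e : Dk k * (f * n) ^ 2 * δ * α = Dk k * (f * n) ^ 2 * (α * δ) := by ring
    rw [e, hαδ]
    ring
  have hs2 := E1 _ M _ _ (Nat.mul_pos hDF hδ) hM hdv hs1
  have hs3 := E2 M _ _ _ _ ((f * n : ℕ) : ℂ) 0 hM hs2 hs2
  refine ⟨_, Tcc_congr hs3 fun z hz => ?_⟩
  have hden := Tcc_den hdet hz
  have hn' : (n : ℂ) ≠ 0 := by exact_mod_cast hn0.ne'
  have ht' : (t : ℂ) ≠ 0 := by exact_mod_cast ht.ne'
  have hδ' : (δ : ℂ) ≠ 0 := by exact_mod_cast hδ.ne'
  have him : 0 < ((t : ℂ) * mob a b' c d z).im := by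
    have e := Complex.re_ofReal_mul (t : ℝ) (mob a b' c d z)
    have e' := Complex.im_ofReal_mul (t : ℝ) (mob a b' c d z)
    rw [Complex.ofReal_natCast] at e'
    rw [e']
    exact mul_pos (by exact_mod_cast ht) (Tcc_im hdet hz)
  have hmat : mob p x q y ((α * z + β) / δ) = t * mob a b' c d z / n := by
    have c1 : (p : ℂ) * β + x * δ = t * b' := by exact_mod_cast h1
    have c2 : (q : ℂ) * β + y * δ = n * d := by exact_mod_cast h3
    have c3 : (t : ℂ) * a = α * p := by exact_mod_cast hp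
    have c4 : (n : ℂ) * c = α * q := by exact_mod_cast hq
    have f1 : ((p : ℂ) * ((α * z + β) / δ) + x) * δ = t * (a * z + b') := by
      have : ((p : ℂ) * ((α * z + β) / δ) + x) * δ = α * p * z + (p * β + x * δ) := by
        field_simp
        ring
      rw [this, c1, ← c3]
      ring
    have f2 : ((q : ℂ) * ((α * z + β) / δ) + y) * δ = n * (c * z + d) := by
      have : ((q : ℂ) * ((α * z + β) / δ) + y) * δ = α * q * z + (q * β + y * δ) := by
        field_simp
        ring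
      rw [this, c2, ← c4]
      ring
    unfold mob
    rw [← mul_div_mul_right _ _ hδ', f1, f2, ← mul_div_assoc, div_div, mul_comm (n : ℂ)]
  rw [zero_mul, add_zero, hmat, ← r3 _ him]

end Pool.Agent.DK.C
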