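import Pool.Agent.Lib.DK.C.Spec

/-!
# Theorem DK, part C: transformation of `Tc`
-/

set_option autoImplicit false

open scoped Pointwise

noncomputable section

namespace Pool.Agent.DK.C

open Pool.Agent.MuZ Pool.Agent.FW NumberField

private theorem Tct_den {a b c d : ℤ} (h : a * d - b * c = 1) {z : ℂ} (hz : 0 < z.im) :
    (c : ℂ) * z + d ≠ 0 := by
  intro h0
  have him := congrArg Complex.im h0
  have hre := congrArg Complex.re h0
  simp only [Complex.add_im, Complex.mul_im, Complex.intCast_re, Complex.intCast_im, zero_mul,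
    add_zero, Complex.zero_im] at him
  simp only [Complex.add_re, Complex.mul_re, Complex.intCast_re, Complex.intCast_im, zero_mul,
    sub_zero, Complex.zero_re] at hre
  rcases mul_eq_zero.1 him with hc | hc
  · rw [hc, zero_mul, zero_add] at hre
    have hc' : c = 0 := by exact_mod_cast hc
    have hd' : d = 0 := by exact_mod_cast hre
    rw [hc', hd'] at h
    simp at h
  · exact hz.ne' hc

private theorem Tct_im {a b c d : ℤ} (h : a * d - b * c = 1) {z : ℂ} (hz : 0 < z.im) :
    0 < (mob a b c d z).im := by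
  have hden := Tct_den h hz
  have hN : 0 < Complex.normSq ((c : ℂ) * z + d) := Complex.normSq_pos.2 hden
  have hR : (a : ℝ) * d - b * c = 1 := by exact_mod_cast h
  unfold mob
  rw [Complex.div_im, ← sub_div]
  apply div_pos _ hN
  simp only [Complex.add_im, Complex.mul_im, Complex.intCast_re, Complex.intCast_im, zero_mul,
    add_zero, Complex.add_re, Complex.mul_re, sub_zero]
  have e : (a : ℝ) * z.im * (c * z.re + d) - (a * z.re + b) * (c * z.im) =
      (a * d - b * c) * z.im := by ring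
  rw [e, hR, one_mul]
  exact hz

theorem tTct (hP : S_Phi) (hR : S_Red) (h2 : S_O2) (h6 : S_O6) : S_Tct := by
  intro k _ f b s hf hf3 hb hb2 a b' c d hdet hc
  obtain ⟨_, _, _, _, _, n6, _, _⟩ := h2 k
  obtain ⟨_, _, o3, _, _⟩ := h6 k
  have hf0 : 0 < f := by omega
  obtain ⟨hn, hnb⟩ : ∃ n : ℕ, n = NI b := ⟨_, rfl⟩
  have hn0 : 0 < hn := by
    rw [hnb]
    exact Nat.pos_of_ne_zero fun h => hb ((n6 b).1 h)
  obtain ⟨⟨r1, r2⟩, r3, _, r5, r6, r7, _⟩ := hR k f b hf0 hb s
  obtain ⟨_, r3', _, _, _, _, _⟩ := hR k f b hf0 hb ((a + 0) * s)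
  rw [← hnb] at hc r2 r3 r7
  have hodd : Odd hn := by
    have h1 : (NI b).Coprime 2 := (o3 2 b two_pos).1 hb2
    rw [← hnb] at h1
    exact Nat.coprime_two_right.1 h1
  have hnc : (hn : ℤ) ∣ c := by
    refine Dvd.dvd.trans ?_ hc
    exact_mod_cast dvd_mul_left hn (Dk k * f ^ 2)
  -- the number `j`
  obtain ⟨c', hc'⟩ := hnc
  obtain ⟨j, b₂, hj⟩ : ∃ j b₂ : ℤ, b' + j * d = hn * b₂ := by
    refine ⟨-(b' * a), -(b' * b' * c'), ?_⟩
    have e : b' + -(b' * a) * d = -(b' * (a * d - 1)) := by ring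
    have e2 : a * d - 1 = b' * c := by linarith
    rw [e, e2, hc']
    ring
  have hdet1 : (a + j * c) * d - b₂ * (c * hn) = 1 := by
    have e : (a + j * c) * d - b₂ * (c * hn) = a * d + j * c * d - hn * b₂ * c := by ring
    rw [e, ← hj]
    linarith
  have hdet2 : (a + j * c) * d - (b' + j * d) * c = 1 := by linarith
  have hF3 : 3 ≤ f * hn := le_trans hf3 (Nat.le_mul_of_pos_right f hn0)
  have hdvd : (Dk k * ((f * hn : ℕ) : ℤ) ^ 2 : ℤ) ∣ c * hn := by
    obtain ⟨e, he⟩ := hc
    refine ⟨e, ?_⟩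
    rw [he]
    push_cast
    ring
  have hfn : ((f * hn : ℕ) : ℤ) ∣ c := by
    refine Dvd.dvd.trans ?_ hc
    have : f * hn ∣ Dk k * f ^ 2 * hn := ⟨Dk k * f, by ring⟩
    exact_mod_cast this
  have hfc : (f : ℤ) ∣ c := by
    refine Dvd.dvd.trans ?_ hfn
    exact_mod_cast dvd_mul_right f hn
  have hρ : tw (rhS f b s) (d : OO k) = rhS f b ((a + j * c) * s) := by
    funext u
    unfold tw
    refine r7 (a + j * c) d ?_ u
    have e : (a + j * c) * d - 1 = b₂ * hn * c := by linarith
    rw [e]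
    exact hfn.mul_left _
  obtain ⟨_, q3, _, _, _, _, _⟩ := hR k f b hf0 hb ((a + j * c) * s)
  rw [← hnb] at q3
  obtain ⟨_, _, _, _, q6, _, _⟩ := hR k f b hf0 hb ((a + j * c) * s)
  refine ⟨(f * hn : ℕ) * PhC (rhS f b s) (a + j * c) b₂ (c * hn) d, fun z hz => ?_⟩
  have hn' : (hn : ℂ) ≠ 0 := by exact_mod_cast hn0.ne'
  have hden := Tct_den hdet hz
  have e1 : mob a b' c d z + j = mob (a + j * c) (b' + j * d) c d z := by
    unfold mob
    rw [div_add' _ _ _ hden]
    push_cast
    ring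
  have e2 : mob (a + j * c) (b' + j * d) c d z / hn = mob (a + j * c) b₂ (c * hn) d (z / hn) := by
    rw [hj]
    unfold mob
    have e3 : ((c * hn : ℤ) : ℂ) * (z / hn) + d = c * z + d := by
      push_cast
      field_simp
    rw [e3]
    push_cast
    field_simp
  have hw : 0 < (z / hn).im := by
    have : (z / (hn : ℂ)).im = z.im / hn := by
      have h1 := Complex.div_ofReal_im z (hn : ℝ)
      rwa [Complex.ofReal_natCast] at h1
    rw [this]
    exact div_pos hz (by exact_mod_cast hn0)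
  have hdvd' := hP k (f * hn) (rhS f b s) (hf.mul hodd) hF3 r1 r2 (a + j * c) b₂ (c * hn) d hdet1
    hdvd (z / hn) hw
  calc Tc f b s (mob a b' c d z) = Tc f b s (mob (a + j * c) (b' + j * d) c d z) := by
        rw [← e1, r5]
    _ = (f * hn : ℕ) * Th (rhS f b s) (mob (a + j * c) b₂ (c * hn) d (z / hn)) := by
        rw [r3 _ (Tct_im hdet2 hz), e2]
    _ = eps (d : OO k) * ((f * hn : ℕ) * Th (rhS f b ((a + j * c) * s)) (z / hn)) +
        (f * hn : ℕ) * PhC (rhS f b s) (a + j * c) b₂ (c * hn) d := by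
        rw [hdvd', hρ]
        ring
    _ = eps (d : OO k) * Tc f b (a * s) z +
        (f * hn : ℕ) * PhC (rhS f b s) (a + j * c) b₂ (c * hn) d := by
        rw [← q3 z hz, q6 (a * s) ?_ z]
        have e : (a + j * c) * s - a * s = j * s * c := by ring
        rw [e]
        exact hfc.mul_left _

end Pool.Agent.DK.C
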