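import Pool.Agent.Lib.DK.C.Spec

/-!
# THEOREM DK, Part C, module Tt: rules for sums over sets of complex numbers
-/

set_option autoImplicit false

open Filter Topology

noncomputable section

namespace Pool.Agent.DK.C

open Pool.Agent.DI (ex)

private def Tt_F (w : ℝ) (z : ℂ) (v : ℂ) : ℂ := v⁻¹ * ex (w * ‖v‖ ^ 2 * z)

private theorem Tt_TT (A : Set ℂ) (w : ℝ) (z : ℂ) : TT A w z = ∑' v : A, Tt_F w z v := rfl

private theorem Tt_ind (A : Set ℂ) (w : ℝ) (z : ℂ) : TT A w z = ∑' v : ℂ, A.indicator (Tt_F w z) v := by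
  rw [Tt_TT]
  exact tsum_subtype A (Tt_F w z)

private theorem Tt_sub {A B : Set ℂ} {w : ℝ} {z : ℂ} (h : A ⊆ B)
    (hB : Summable (B.indicator (Tt_F w z))) : Summable (A.indicator (Tt_F w z)) := by
  have h1 := hB.indicator A
  rwa [Set.indicator_indicator, Set.inter_eq_left.2 h] at h1

private theorem Tt_conj (x : ℂ) : (starRingEnd ℂ) (ex x) = ex (-(starRingEnd ℂ) x) := by
  unfold ex
  rw [← Complex.exp_conj]
  congr 1
  simp only [map_mul, Complex.conj_ofReal, Complex.conj_I, map_ofNat]
  ring

theorem tTt : S_Tt := by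
  refine ⟨?_, ?_, ?_, ?_, ?_⟩
  · intro A c w z hc
    rw [Tt_TT, Tt_TT, tsum_image (Tt_F w z) (Set.injOn_of_injective (mul_right_injective₀ hc)),
      ← tsum_mul_left]
    refine tsum_congr fun v => ?_
    unfold Tt_F
    rw [mul_inv, mul_assoc, norm_mul]
    congr 3
    push_cast
    ring
  · intro A w z
    rw [Tt_TT, Tt_TT, tsum_image (Tt_F w z) (Set.injOn_of_injective (starRingEnd ℂ).injective),
      Complex.conj_tsum]
    refine tsum_congr fun v => ?_
    unfold Tt_F
    rw [map_mul, map_inv₀, Tt_conj]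
    congr 2
    rw [RCLike.norm_conj]
    simp only [map_mul, map_pow, map_neg, Complex.conj_ofReal, Complex.conj_conj]
    ring
  · intro A w t z
    rw [Tt_TT, Tt_TT]
    refine tsum_congr fun v => ?_
    unfold Tt_F
    congr 2
    push_cast
    ring
  · intro A B w z h
    have h0 : Summable ((A ∪ B).indicator (Tt_F w z)) := summable_subtype_iff_indicator.1 h
    have hA := Tt_sub Set.subset_union_left h0
    have hB := Tt_sub Set.subset_union_right h0
    have hI : Summable ((A ∩ B).indicator (Tt_F w z)) :=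
      Tt_sub (Set.inter_subset_left.trans Set.subset_union_left) h0
    rw [Tt_ind, Tt_ind, Tt_ind, Tt_ind, ← h0.tsum_add hI, ← hA.tsum_add hB]
    refine tsum_congr fun v => ?_
    have h2 := congrFun (Set.indicator_union_add_inter (Tt_F w z) A B) v
    exact h2
  · intro U A w z hd h
    have h0 : Summable ((⋃ u ∈ U, A u).indicator (Tt_F w z)) := summable_subtype_iff_indicator.1 h
    have hA : ∀ u ∈ U, Summable ((A u).indicator (Tt_F w z)) := fun u hu =>
      Tt_sub (fun v hv => Set.mem_iUnion₂.2 ⟨u, hu, hv⟩) h0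
    rw [Tt_ind]
    have h3 : ∀ v : ℂ, (⋃ u ∈ U, A u).indicator (Tt_F w z) v =
        ∑ u ∈ U, (A u).indicator (Tt_F w z) v := by
      intro v
      by_cases hv : ∃ u ∈ U, v ∈ A u
      · obtain ⟨u, hu, hvu⟩ := hv
        rw [Finset.sum_eq_single u, Set.indicator_of_mem hvu, Set.indicator_of_mem]
        · exact Set.mem_biUnion (x := u) hu hvu
        · intro u' hu' hne
          refine Set.indicator_of_notMem (fun hv' => hne ?_) _
          exact hd u' hu' u hu v hv' hvu
        · intro h4
          exact absurd hu h4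
      · have h5 : ∀ u ∈ U, v ∉ A u := fun u hu hvu => hv ⟨u, hu, hvu⟩
        rw [Finset.sum_eq_zero fun u hu => Set.indicator_of_notMem (h5 u hu) _,
          Set.indicator_of_notMem]
        intro h6
        obtain ⟨u, hu, hvu⟩ := Set.mem_iUnion₂.1 h6
        exact h5 u hu hvu
    rw [tsum_congr h3, Summable.tsum_finsetSum hA]
    exact Finset.sum_congr rfl fun u _ => (Tt_ind (A u) w z).symm

end Pool.Agent.DK.C
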