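import Pool.Agent.Lib.DK.C.Spec
import Pool.Agent.Lib.DI.Val

/-!
# THEOREM DK, Part C, module V: the input of part V
-/

set_option autoImplicit false

noncomputable section

namespace Pool.Agent.DK.C

theorem tV (h2v : S_V2) (h4v : S_V4) (hR : S_ChR) (hC6 : S_C6) (hD : S_Den) : S_V := by
  intro k _ f M m R hm hFR hRC hM χ hχ
  obtain ⟨r1, -, r3, r4⟩ := hR k f M m R hm hFR hRC hM χ hχ
  refine ⟨?_, ?_, ?_⟩
  · intro P hP hP2 r hr
    have := hP.1
    have hT : FB f (⊤ : Ideal (OO k)) := ⟨top_ne_bot, top_sup_eq _⟩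
    unfold etaX
    refine DI.VP.sum R _ fun b hb => DI.VP.mul ((r3 b (r1 b hb).1).2 P hP).1 ?_
    have h1 := ((r4 ⊤ hT).2 b hb).2 r hr P hP hP2
    rwa [Ideal.top_mul] at h1
  · intro r
    unfold etaX
    exact Finset.sum_congr rfl fun b hb => by rw [(hC6 k f m b hm (r1 b hb).1).2.1 r]
  · intro P hP
    refine ⟨?_, ?_⟩
    · intro a b c d hG r hr
      obtain ⟨-, -, -, -, -, -, h2⟩ := hD M a b c d hM.three hG
      exact ⟨(h2 r hr).1, (h2 r hr).2, h2v k f M m R hm hFR hRC hM χ hχ P hP a b c d hG r hr⟩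
    · intro r hr
      exact h4v k f M m R hm hFR hRC hM χ hχ P hP r hr

end Pool.Agent.DK.C
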