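import Pool.Agent.Lib.DK.C.Spec

/-!
# THEOREM DK, part C, module V2: the transformation of `etaX` modulo `P`
-/

set_option autoImplicit false

open Filter Topology
open scoped Pointwise

noncomputable section

namespace Pool.Agent.DK.C

open Pool.Agent.MuZ Pool.Agent.FW NumberField
open Pool.Agent.DI (io ofC io_inj exists_io io_ofC ofC_io VP MP UP TP ex sqr sqr_sq kap)

variable {k : ℕ}

/-- `x = 1` modulo `P`. -/
private def V2_one (P : Ideal ZZ) (x : Om) : Prop := MP P (x - 1)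

private theorem V2_one.vp {P : Ideal ZZ} [P.IsPrime] {x : Om} (h : V2_one P x) : VP P x := by
  have e : x = x - 1 + 1 := by ring
  rw [e]
  exact DI.VP.add (DI.MP.vp h) DI.VP.one

private theorem V2_one.mul {P : Ideal ZZ} [P.IsPrime] {x y : Om} (hx : V2_one P x) (hy : V2_one P y) :
    V2_one P (x * y) := by
  unfold V2_one
  have e : x * y - 1 = x * (y - 1) + (x - 1) := by ring
  rw [e]
  exact DI.MP.add (DI.MP.mul_left hx.vp hy) hx

private theorem V2_one.of_TP {P : Ideal ZZ} [P.IsPrime] (h2 : MP P 2) {x : Om}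
    (h : TP P 2 (x - 1) ∨ TP P 2 (x + 1)) : V2_one P x := by
  unfold V2_one
  rcases h with ⟨y, hy, hxy⟩ | ⟨y, hy, hxy⟩
  · rw [hxy]
    exact DI.MP.mul_right h2 hy
  · have e : x - 1 = 2 * (y - 1) := by linear_combination hxy
    rw [e]
    exact DI.MP.mul_right h2 (DI.VP.sub hy DI.VP.one)

private theorem V2_one.odd {P : Ideal ZZ} [P.IsPrime] (h2 : MP P 2) {a : ℤ} (ha : Odd a) :
    V2_one P (a : Om) := by
  obtain ⟨m, hm⟩ := ha
  unfold V2_one
  have e : (a : Om) - 1 = 2 * (m : Om) := by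
    rw [hm]
    push_cast
    ring
  rw [e]
  exact DI.MP.mul_right h2 (DI.VP.int m)

private theorem V2_one.inv {P : Ideal ZZ} [P.IsPrime] {x : Om} (hx : V2_one P x) :
    V2_one P x⁻¹ := by
  have hu : UP P x := DI.UP.congr (DI.UP.one) hx
  have h0 : x ≠ 0 := DI.UP.ne_zero hu
  unfold V2_one
  have e : x⁻¹ - 1 = x⁻¹ * -(x - 1) := by
    field_simp
    ring
  rw [e]
  exact DI.MP.mul_left (DI.UP.inv hu).1 (DI.MP.neg hx)

private theorem V2_dvd {f M : ℕ} {m b : Ideal (OO k)} (h : IsLv f m {b} M) : Dk k ∣ M ∧ f ∣ M := by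
  have h1 := h.dvd
  unfold lev at h1
  rw [Finset.prod_singleton] at h1
  refine ⟨?_, ?_⟩
  · refine Dvd.dvd.trans ?_ h1
    exact ⟨f ^ 2 * (NI m * NI b) ^ 3, by ring⟩
  · refine Dvd.dvd.trans ?_ h1
    exact ⟨Dk k * f * (NI m * NI b) ^ 3, by ring⟩

private theorem V2_eps {d : ℤ} (hd : IsCoprime d (Dk k : ℤ)) (hk : Odd (Dk k)) :
    eps (d : OO k) = 1 ∨ eps (d : OO k) = -1 := by
  unfold eps
  rw [re_int, im_int, add_zero]
  apply jacobiSym.eq_one_or_neg_one
  rw [← Int.isCoprime_iff_gcd_eq_one]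
  refine IsCoprime.mul_left ?_ hd
  obtain ⟨j, hj⟩ := hk
  rw [hj]
  exact ⟨-j, 1, by push_cast; ring⟩

/-- **V2.** Part (ii) of `S_V`. -/
theorem tV2 (hR : S_ChR) (h1 : S_C1) (hC6 : S_C6) (hD9 : S_D9) (hD : S_Den) (h4 : S_O4)
    (h6 : S_O6) : S_V2 := by
  intro k _ f M m R hfm hFR hRC hlv χ hχ P hP
  have := hP.1.1
  have hP2 : MP P 2 := hP.2.1
  obtain ⟨r1, r2, r3, r4⟩ := hR k f M m R hfm hFR hRC hlv χ hχ
  have hM3 := hlv.three
  have hkM : Dk k ∣ M ∧ f ∣ M := by
    have h5 := hlv.dvd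
    unfold lev at h5
    refine ⟨?_, ?_⟩
    · refine Dvd.dvd.trans ?_ h5
      exact ⟨f ^ 2 * (NI m * ∏ b ∈ R, NI b) ^ 3, by ring⟩
    · refine Dvd.dvd.trans ?_ h5
      exact ⟨Dk k * f * (NI m * ∏ b ∈ R, NI b) ^ 3, by ring⟩
  have hper : ∀ r : ℚ, etaX f m R χ (r + 1) = etaX f m R χ r := by
    intro r
    unfold etaX
    refine Finset.sum_congr rfl fun b hb => ?_
    rw [(hC6 k f m b hfm (r1 b hb).1).2.1 r]
  -- the case of odd `a`
  have key : ∀ (a b c d : ℤ), Odd a → G0 M a b c d → ∀ r : ℚ, r.den.Coprime M →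
      MP P (etaX f m R χ ((a * r + b) / (c * r + d)) - χ (sp (d : OO k)) * etaX f m R χ r -
        (etaX f m R χ (b / d) - χ (sp (d : OO k)) * etaX f m R χ 0)) := by
    intro a b c d ha hG r hr
    obtain ⟨ha0, hd0, haM, hdM, hadM, -, -⟩ := hD M a b c d hM3 hG
    have hf0 : 0 < f := by have := hfm.three; omega
    have hcop : ∀ x : ℤ, IsCoprime x (M : ℤ) → Cop (x : OO k) f := by
      intro x hx
      unfold Cop
      rw [Nm_int]
      exact (hx.of_isCoprime_of_dvd_right (by exact_mod_cast hkM.2)).pow_left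
    have hne : ∀ x : ℤ, x ≠ 0 → (x : OO k) ≠ 0 := by
      intro x hx h
      have h5 := congrArg QuadraticAlgebra.re h
      rw [re_int, QuadraticAlgebra.re_zero] at h5
      exact hx h5
    have hFB : ∀ x : ℤ, x ≠ 0 → IsCoprime x (M : ℤ) → FB f (sp (x : OO k)) := by
      intro x hx hxM
      refine ⟨?_, ?_⟩
      · intro h
        rw [Ideal.span_singleton_eq_bot] at h
        exact hne x hx h
      · exact ((h6 k).2.2.2.1 f _ hf0).2 (hcop x hxM)
    have hFa := hFB a ha0 haM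
    have hFd := hFB d hd0 hdM
    obtain ⟨s1, s2⟩ := r4 (sp (a : OO k)) hFa
    -- `χ (sp a) χ (sp d) = 1`
    have hχad : χ (sp (a : OO k)) * χ (sp (d : OO k)) = 1 := by
      rw [← hχ.mul, Ideal.span_singleton_mul_span_singleton, ← r2]
      have hadz : a * d ≠ 0 := mul_ne_zero ha0 hd0
      have hadc : IsCoprime (a * d) (M : ℤ) := haM.mul_left hdM
      have hFad := hFB (a * d) hadz hadc
      rw [Int.cast_mul] at hFad
      refine hχ.ray _ _ hFad.ne top_ne_bot hFad.cop (by unfold PrI; exact top_sup_eq _) ?_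
      refine ⟨1, ((a * d : ℤ) : OO k), one_ne_zero, hne _ hadz, cop_one f, hcop _ hadc, ?_, ?_⟩
      · have h7 : (f : ℤ) ∣ a * d - 1 := by
          have h8 : (f : ℤ) ∣ (M : ℤ) := by exact_mod_cast hkM.2
          exact h8.trans hadM
        obtain ⟨q, hq⟩ := h7
        refine ⟨((-q : ℤ) : OO k), ?_⟩
        have h9 : ((a * d : ℤ) : OO k) = 1 + (f : OO k) * (q : OO k) := by
          have h10 : a * d = 1 + f * q := by linarith
          rw [h10]
          push_cast
          ring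
        rw [h9]
        push_cast
        ring
      · push_cast
        rw [Ideal.span_singleton_one, Ideal.mul_top, Ideal.top_mul]
    have hχa0 : χ (sp (a : OO k)) ≠ 0 := (r3 _ hFa).1
    have hχd : ∀ r : ℚ, χ (sp (d : OO k)) * etaX f m R χ r =
        ∑ b ∈ R, χ b * etaM f m (sp (a : OO k) * b) r := by
      intro r
      rw [← s1 r, ← mul_assoc, mul_comm (χ (sp (d : OO k))), hχad, one_mul]
    rw [hχd r, hχd 0]
    have hkodd : Odd (Dk k) := Odd.of_dvd_nat hlv.odd hkM.1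
    have hspa : ¬ sp (a : OO k) ≤ pp k := by
      intro h
      have h5 : (a : OO k) ∈ pp k := h (Ideal.mem_span_singleton_self _)
      rw [(h4 k).2.2.2.2.2.2.2.2.2.1, re_int] at h5
      obtain ⟨j, hj⟩ := ha
      omega
    -- the terms
    have hterm : ∀ b₀ ∈ R, ∃ u : Om, V2_one P u ∧
        etaM f m b₀ ((a * r + b) / (c * r + d)) = u * (etaM f m (sp (a : OO k) * b₀) r -
          etaM f m (sp (a : OO k) * b₀) 0) + etaM f m b₀ (b / d) := by
      intro b₀ hb₀
      obtain ⟨t1, t2⟩ := r1 b₀ hb₀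
      obtain ⟨-, -, t3⟩ := h1 k f M m b₀ hfm t1 (hFR b₀ hb₀).2.2 t2 a b c d hG
      refine ⟨_, ?_, (t3 r hr).2⟩
      refine V2_one.mul ?_ ?_
      · have hdk : IsCoprime d (Dk k : ℤ) :=
          hdM.of_isCoprime_of_dvd_right (by exact_mod_cast hkM.1)
        rcases V2_eps (k := k) hdk hkodd with h | h
        · rw [h]
          exact V2_one.odd hP2 (by decide)
        · rw [h]
          exact V2_one.odd hP2 (by decide)
      · rw [div_eq_mul_inv]
        refine V2_one.mul ?_ (V2_one.inv (V2_one.odd hP2 ha))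
        exact V2_one.of_TP hP2 ((hD9 k f hfm.odd hfm.three P hP.1 hP2).1 _ b₀ hFa.ne t1.ne hFa.cop
          t1.cop (Or.inl ⟨hP, hspa⟩))
    choose! u hu1 hu2 using hterm
    have e : etaX f m R χ ((a * r + b) / (c * r + d)) -
        ∑ b ∈ R, χ b * etaM f m (sp (a : OO k) * b) r -
        (etaX f m R χ (b / d) - ∑ b ∈ R, χ b * etaM f m (sp (a : OO k) * b) 0) =
        ∑ b₀ ∈ R, χ b₀ * ((u b₀ - 1) * (etaM f m (sp (a : OO k) * b₀) r -
          etaM f m (sp (a : OO k) * b₀) 0)) := by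
      unfold etaX
      rw [← Finset.sum_sub_distrib, ← Finset.sum_sub_distrib, ← Finset.sum_sub_distrib]
      refine Finset.sum_congr rfl fun b₀ hb₀ => ?_
      rw [hu2 b₀ hb₀]
      ring
    rw [e]
    refine DI.MP.sum _ _ fun b₀ hb₀ => ?_
    have hV := (s2 b₀ hb₀).2
    refine DI.MP.mul_left ((r3 b₀ (r1 b₀ hb₀).1).2 P hP.1).1 (DI.MP.mul_right (hu1 b₀ hb₀) ?_)
    exact DI.VP.sub (hV r hr P hP.1 hP2) (hV 0 (by simp) P hP.1 hP2)
  intro a b c d hG r hr
  rcases Int.even_or_odd a with ha | ha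
  · obtain ⟨-, hd0, -, -, -, -, hcr⟩ := hD M a b c d hM3 hG
    have hc : Odd c := by
      rcases Int.even_or_odd c with hc | hc
      · exfalso
        have h5 : Even (a * d - b * c) := (ha.mul_right d).sub (hc.mul_left b)
        rw [hG.1] at h5
        exact absurd h5 (by decide)
      · exact hc
    have hG' : G0 M (a + c) (b + d) c d := ⟨by linear_combination hG.1, hG.2⟩
    have h7 := key (a + c) (b + d) c d (ha.add_odd hc) hG' r hr
    have h8 := (hcr r hr).1
    have hdq : (d : ℚ) ≠ 0 := by exact_mod_cast hd0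
    have e1 : ((((a + c : ℤ) : ℚ) * r + ((b + d : ℤ) : ℚ)) / (c * r + d) : ℚ) =
        (a * r + b) / (c * r + d) + 1 := by
      push_cast
      field_simp
      ring
    have e2 : (((b + d : ℤ) : ℚ) / d : ℚ) = b / d + 1 := by
      push_cast
      field_simp
    rw [e1, e2, hper, hper] at h7
    exact h7
  · exact key a b c d ha hG r hr

end Pool.Agent.DK.C
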