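import Pool.Agent.Lib.DK.O.All
import Pool.Agent.Lib.DK.C.Bas
import Pool.Agent.Lib.DK.C.Sum
import Pool.Agent.Lib.DK.C.Poi
import Pool.Agent.Lib.DK.C.Two
import Pool.Agent.Lib.DK.C.Res
import Pool.Agent.Lib.DK.C.Gau
import Pool.Agent.Lib.DK.C.Uni
import Pool.Agent.Lib.DK.C.Gen
import Pool.Agent.Lib.DK.C.Gam
import Pool.Agent.Lib.DK.C.Kap
import Pool.Agent.Lib.DK.C.Eps
import Pool.Agent.Lib.DK.C.Der
import Pool.Agent.Lib.DK.C.Phi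
import Pool.Agent.Lib.DK.C.Cus
import Pool.Agent.Lib.DK.C.Exp
import Pool.Agent.Lib.DK.C.Tt
import Pool.Agent.Lib.DK.C.Lt
import Pool.Agent.Lib.DK.C.Red
import Pool.Agent.Lib.DK.C.Tct
import Pool.Agent.Lib.DK.C.Tcc
import Pool.Agent.Lib.DK.C.TrS
import Pool.Agent.Lib.DK.C.CuS
import Pool.Agent.Lib.DK.C.C3
import Pool.Agent.Lib.DK.C.Val
import Pool.Agent.Lib.DK.C.Hom
import Pool.Agent.Lib.DK.C.Den
import Pool.Agent.Lib.DK.C.C1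
import Pool.Agent.Lib.DK.C.C2
import Pool.Agent.Lib.DK.C.Spl
import Pool.Agent.Lib.DK.C.C4a
import Pool.Agent.Lib.DK.C.C4
import Pool.Agent.Lib.DK.C.Dis
import Pool.Agent.Lib.DK.C.C5
import Pool.Agent.Lib.DK.C.C6
import Pool.Agent.Lib.DK.C.C7a
import Pool.Agent.Lib.DK.C.C7
import Pool.Agent.Lib.DK.C.C8
import Pool.Agent.Lib.DK.C.C9
import Pool.Agent.Lib.DK.C.ChR
import Pool.Agent.Lib.DK.C.V2
import Pool.Agent.Lib.DK.C.V4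
import Pool.Agent.Lib.DK.C.V

/-!
# Theorem DK, part C and the input of part V: assembly

`aC1 : S_C1`, ..., `aC9 : S_C9`, `aV : S_V` (statements of `DK/IfaceC.lean`), from the statements
`S_B10`, `S_B12`, `S_R5`, `S_D9`, `S_E1`, `S_E6`, `S_E10` of the other parts.
-/

set_option autoImplicit false

noncomputable section

namespace Pool.Agent.DK.C

open Pool.Agent.DK

theorem aBas : S_Bas := tBas
theorem aSum : S_Sum := tSum aBas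
theorem aPoi : S_Poi := tPoi
theorem aTwo : S_Two := tTwo aPoi aBas aSum
theorem aRes : S_Res := tRes
theorem aGau : S_Gau := tGau
theorem aUni : S_Uni := tUni aBas aSum
theorem aGen : S_Gen := tGen aTwo aRes aSum
theorem aGam : S_Gam := tGam aBas aRes
theorem aKap : S_Kap := tKap aGen aGam aSum
theorem aEps : S_Eps := tEps aKap aGen aGau aUni aRes aBas aSum
theorem aDer : S_Der := tDer aBas aSum
theorem aPhi : S_Phi := tPhi aEps aDer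
theorem aCus : S_Cus := tCus aGen aDer aSum aBas
theorem aExp : S_Exp := tExp
theorem aTt : S_Tt := tTt
theorem aLt : S_Lt := tLt aBas aSum aO2 aO3 aL0 aL1
theorem aRed : S_Red := tRed aLt aTt aBas aDer aO2 aO3
theorem aTct : S_Tct := tTct aPhi aRed aO2 aO6
theorem aTcc : S_Tcc := tTcc aCus aExp aRed aO2
theorem aTrS : S_TrS := tTrS aTct aO2 aO6
theorem aCuS : S_CuS := tCuS aTcc aExp aO2
theorem aC3 : S_C3 := tC3 aCuS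
theorem aVal : S_Val := tVal aTrS aCuS aExp
theorem aDen : S_Den := tDen
theorem aSpl : S_Spl := tSpl aLt aTt aRed
theorem aDis : S_Dis := tDis aLt aTt aRed aO2 aO3 aO4
theorem aC7a : S_C7a := tC7a aLt aBas aO2 aO6
theorem aC7 : S_C7 := tC7 aC7a aLt aTt aRed aDer aO2

theorem aHom (hB12 : S_B12) (hR5 : S_R5) : S_Hom := tHom aRed aTt aO2 aO6 hB12 hR5
theorem aC4a (hB10 : S_B10) : S_C4a := tC4a aSpl aLt aO2 aO6 aL5 hB10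
theorem aC4 (hB10 : S_B10) (hR5 : S_R5) : S_C4 := tC4 (aC4a hB10) aL3 hR5
theorem aC1 (hB10 : S_B10) (hB12 : S_B12) (hR5 : S_R5) : S_C1 :=
  tC1 aVal (aHom hB12 hR5) aDen (aC4 hB10 hR5) hR5 aO2 aO6
theorem aC2 (hB10 : S_B10) (hR5 : S_R5) : S_C2 :=
  tC2 aTrS aVal aRed aDen (aC4 hB10 hR5) aO2 aO6
theorem aC5 (hB10 : S_B10) (hB12 : S_B12) (hR5 : S_R5) : S_C5 :=
  tC5 aDis (aHom hB12 hR5) aRed (aC4 hB10 hR5) hR5 aO2 aO4 aO6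
theorem aC6 (hB10 : S_B10) (hB12 : S_B12) (hR5 : S_R5) : S_C6 :=
  tC6 (aHom hB12 hR5) aRed aTt (aC4 hB10 hR5) aO2 aO3 aO6 aL2 hB12
theorem aC8 (hB10 : S_B10) (hB12 : S_B12) (hR5 : S_R5) (hE1 : S_E1) (hE6 : S_E6)
    (hE10 : S_E10) : S_C8 :=
  tC8 (aC4 hB10 hR5) (aC4a hB10) (aC6 hB10 hB12 hR5) aL3 aL5 aO2 aO6 aO7 hE1 hE6 hE10
theorem aC9 (hB10 : S_B10) (hB12 : S_B12) (hR5 : S_R5) (hD9 : S_D9) : S_C9 :=
  tC9 (aC1 hB10 hB12 hR5) (aC4 hB10 hR5) (aC4a hB10) (aC6 hB10 hB12 hR5) aL3 hD9 aDen aO2 aO6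
theorem aChR (hB10 : S_B10) (hB12 : S_B12) (hR5 : S_R5) (hD9 : S_D9) : S_ChR :=
  tChR aO2 aO6 aO7 (aC6 hB10 hB12 hR5) (aC9 hB10 hB12 hR5 hD9)
theorem aV2 (hB10 : S_B10) (hB12 : S_B12) (hR5 : S_R5) (hD9 : S_D9) : S_V2 :=
  tV2 (aChR hB10 hB12 hR5 hD9) (aC1 hB10 hB12 hR5) (aC6 hB10 hB12 hR5) hD9 aDen aO4 aO6
theorem aV4 (hB10 : S_B10) (hB12 : S_B12) (hR5 : S_R5) (hD9 : S_D9) : S_V4 :=
  tV4 (aChR hB10 hB12 hR5 hD9) (aC5 hB10 hB12 hR5) (aC6 hB10 hB12 hR5) hD9 hR5 aO2 aO4 aO6 aO7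
theorem aV (hB10 : S_B10) (hB12 : S_B12) (hR5 : S_R5) (hD9 : S_D9) : S_V :=
  tV (aV2 hB10 hB12 hR5 hD9) (aV4 hB10 hB12 hR5 hD9) (aChR hB10 hB12 hR5 hD9)
    (aC6 hB10 hB12 hR5) aDen

end Pool.Agent.DK.C

namespace Pool.Agent.DK

theorem aC1 (hB10 : S_B10) (hB12 : S_B12) (hR5 : S_R5) : S_C1 := C.aC1 hB10 hB12 hR5
theorem aC2 (hB10 : S_B10) (hR5 : S_R5) : S_C2 := C.aC2 hB10 hR5
theorem aC3 : S_C3 := C.aC3
theorem aC4 (hB10 : S_B10) (hR5 : S_R5) : S_C4 := C.aC4 hB10 hR5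
theorem aC5 (hB10 : S_B10) (hB12 : S_B12) (hR5 : S_R5) : S_C5 := C.aC5 hB10 hB12 hR5
theorem aC6 (hB10 : S_B10) (hB12 : S_B12) (hR5 : S_R5) : S_C6 := C.aC6 hB10 hB12 hR5
theorem aC7 : S_C7 := C.aC7
theorem aC8 (hB10 : S_B10) (hB12 : S_B12) (hR5 : S_R5) (hE1 : S_E1) (hE6 : S_E6)
    (hE10 : S_E10) : S_C8 := C.aC8 hB10 hB12 hR5 hE1 hE6 hE10
theorem aC9 (hB10 : S_B10) (hB12 : S_B12) (hR5 : S_R5) (hD9 : S_D9) : S_C9 :=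
  C.aC9 hB10 hB12 hR5 hD9
theorem aV (hB10 : S_B10) (hB12 : S_B12) (hR5 : S_R5) (hD9 : S_D9) : S_V :=
  C.aV hB10 hB12 hR5 hD9

end Pool.Agent.DK
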