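import Pool.Agent.Lib.DK.C.Spec

/-!
# THEOREM DK, Part C, module C1: statement `S_C1`
-/

set_option autoImplicit false

open Filter Topology
open scoped Pointwise

noncomputable section

namespace Pool.Agent.DK.C

open Pool.Agent.MuZ Pool.Agent.FW Pool.Agent.DK NumberField
open Pool.Agent.DI (io ofC io_inj exists_io io_ofC ofC_io VP MP UP TP ex sqr sqr_sq kap)

theorem tC1 (hV : S_Val) (hH : S_Hom) (hD : S_Den) (h4 : S_C4) (h5 : S_R5) (h2 : S_O2)
    (h6 : S_O6) : S_C1 := by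
  intro k _ f M m b hm hb hb2 hL a b' c d hG
  obtain ⟨ha, hd, haM, hdM, -, hbd, hden⟩ := hD M a b' c d hL.three hG
  refine ⟨ha, hd, fun r hr => ?_⟩
  obtain ⟨hr1, hr2⟩ := hden r hr
  refine ⟨hr1, ?_⟩
  have hlev : Dk k * f ^ 2 * (NI m * NI b) ^ 3 ∣ M := by
    have h := hL.dvd
    unfold lev at h
    rwa [Finset.prod_singleton] at h
  have hνM : NI m ∣ M := by
    refine dvd_trans ?_ hlev
    exact ⟨Dk k * f ^ 2 * (NI m ^ 2 * NI b ^ 3), by ring⟩
  have hfM : f ∣ M := by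
    refine dvd_trans ?_ hlev
    exact ⟨Dk k * f * (NI m * NI b) ^ 3, by ring⟩
  have haf : IsCoprime a (f : ℤ) :=
    haM.of_isCoprime_of_dvd_right (Int.natCast_dvd_natCast.2 hfM)
  have h0 : (0 : ℚ).den.Coprime M := by
    rw [Rat.den_zero]
    exact Nat.coprime_one_left M
  obtain ⟨-, -, hH3, -⟩ := hH k f hm.odd hm.three
  have hab : FB f (sp (a : OO k) * b) := (hH3 m b hm hb a 0 ha haf).1
  have val : ∀ b₁ : Ideal (OO k), FB f b₁ → ∀ s : ℚ, s.den.Coprime M →
      Tendsto (fun y : ℝ => ThM f m b₁ ((s : ℂ) + y * Complex.I)) (𝓝[>] 0) (𝓝 (hM f m b₁ s)) ∧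
      io (etaM f m b₁ s) = hM f m b₁ s := by
    intro b₁ hb₁ s hs
    have h := h4 k f m b₁ hm hb₁ s.num s.den s.den_pos (hs.coprime_dvd_right hνM)
    have e : ((s.num : ℚ) / (s.den : ℚ)) = s := Rat.num_div_den s
    rw [e] at h
    exact ⟨h.1, h.2.1⟩
  obtain ⟨hV1, hV2⟩ := hV k f M m b hm hb hb2 hL
  -- the values of `hS`
  have hSa : ∀ s : ℚ, s.den.Coprime M →
      hS f m b a s = fr f (sp (a : OO k) * b) / (a * fr f b) * hM f m (sp (a : OO k) * b) s := by
    intro s hs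
    have t1 := hV1 a s
    have t2 := ((val _ hab s hs).1).const_mul (fr f (sp (a : OO k) * b) / (a * fr f b))
    have e : (fun y : ℝ => fr f (sp (a : OO k) * b) / (a * fr f b) *
        ThM f m (sp (a : OO k) * b) ((s : ℂ) + y * Complex.I)) =
        fun y : ℝ => ThS f m b a ((s : ℂ) + y * Complex.I) := by
      funext y
      exact ((hH3 m b hm hb a ((s : ℂ) + y * Complex.I) ha haf).2).symm
    rw [e] at t2
    exact tendsto_nhds_unique t1 t2
  obtain ⟨hV3, hV4⟩ := hV2 a b' c d hG 1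
  have e1 := hV3 r hr1
  rw [hV4 hd, mul_one, hSa r hr, hSa 0 h0] at e1
  have e2 : hS f m b 1 (mobQ a b' c d r) = io (etaM f m b ((a * r + b') / (c * r + d))) :=
    ((val b hb _ hr2).2).symm
  have e3 : hS f m b 1 (b' / d) = io (etaM f m b (b' / d)) := ((val b hb _ hbd).2).symm
  rw [e2, e3] at e1
  obtain ⟨hfr, hrO, -⟩ := h5 k f m b (sp (a : OO k) * b) hm.odd hm.three hm.ne hb.ne hab.ne hm.two
    hm.cop hb.cop hab.cop
  apply io_inj
  rw [e1, map_add, map_mul, map_mul, map_sub, map_div₀, map_intCast, map_intCast, hrO,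
    (val _ hab r hr).2, (val _ hab 0 h0).2]
  field_simp
  ring

end Pool.Agent.DK.C
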