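import Pool.Agent.Lib.DK.IfaceC
import Pool.Agent.Lib.DK.Base

/-!
# THEOREM DK (MP_d0239a_nt), Part C: theta series

Author helper33, after note 4145 (C') of helper36. Every `def S_.. : Prop` is a statement, its complete
proof is in the docstring. The first 14 modules (section I) are PORTS of the modules of the same name in
`Lib/DI/C` (copy the file, replace `7` by `Dk k`, `s7` by `sD k`, `pO` by `wI k`, `2 = pO pbO` by `2 k`).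
The elementary facts on `O` are in `DK/Base.lean` (`Nm_..`, `toC_..`, `lam_..`, `tor_..`).
Matrices are given by their entries `a b c d : ℤ` with `a * d - b * c = 1`;
`mob a b c d z = (a z + b) / (c z + d)`. All sums over `O` are absolutely convergent for `Im z > 0`.
-/

set_option autoImplicit false

open Filter Topology
open scoped Pointwise

noncomputable section

namespace Pool.Agent.DK.C

open Pool.Agent.MuZ Pool.Agent.FW NumberField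
open Pool.Agent.DI (io ofC io_inj exists_io io_ofC ofC_io VP MP UP TP ex sqr sqr_sq kap)

/-! ## Definitions -/

section Defs

variable {k : ℕ}

/-- `ρ` is odd. -/
def OddO (ρ : OO k → ℂ) : Prop := ∀ v : OO k, ρ (-v) = -ρ v

/-- `ρ` is periodic modulo `n`. -/
def PerO (n : ℕ) (ρ : OO k → ℂ) : Prop := ∀ v u : OO k, ρ (v + n * u) = ρ v

/-- `ρ_a(v) = ρ(a v)`. -/
def tw (ρ : OO k → ℂ) (a : OO k) (v : OO k) : ℂ := ρ (a * v)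

/-- The theta function of weight 1: `Th_ρ(z) = 1/2 ∑ ρ(v) v⁻¹ e(N v z)`. -/
def Th (ρ : OO k → ℂ) (z : ℂ) : ℂ := 1 / 2 * ∑' v : OO k, ρ v / toC v * ex (Nm v * z)

/-- The theta function of weight 2: `G_ρ(z) = 1/2 ∑ ρ(v) v̄ e(N v z)`. -/
def Gt (ρ : OO k → ℂ) (z : ℂ) : ℂ := 1 / 2 * ∑' v : OO k, ρ v * toC (cjO v) * ex (Nm v * z)

/-- The Möbius transformation. -/
def mob (a b c d : ℤ) (z : ℂ) : ℂ := (a * z + b) / (c * z + d)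

/-- The Möbius transformation of a rational number. -/
def mobQ (a b c d : ℤ) (r : ℚ) : ℚ := (a * r + b) / (c * r + d)

/-- The sum over the residues modulo `m`. -/
def rsum (m : ℕ) (F : OO k → ℂ) : ℂ :=
  ∑ x ∈ Finset.range m, ∑ y ∈ Finset.range m, F ⟨(x : ℤ), (y : ℤ)⟩

/-- The constant `Φ_ρ(g)`, defined by the value at `z = i`. -/
def PhC (ρ : OO k → ℂ) (a b c d : ℤ) : ℂ :=
  Th ρ (mob a b c d Complex.I) - eps (d : OO k) * Th (tw ρ (d : OO k)) Complex.I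

/-- The finite sum `B(u) = ∑ ρ(v) e(a N v / c - co(v ū) / (f c) + d N u / (D f² c))`. -/
def BB (ρ : OO k → ℂ) (f : ℕ) (a d : ℤ) (c : ℕ) (u : OO k) : ℂ :=
  rsum (f * c) fun v => ρ v * ex (a * Nm v / c - (v * cjO u).im / (f * c)
    + d * Nm u / (Dk k * f ^ 2 * c))

/-- The Gauss sum: the sum of `e(a N x / c)` over the `x` in `f O` modulo `f c`. -/
def GG (k f : ℕ) (a : ℤ) (c : ℕ) : ℂ := by
  classical
  exact rsum (f * c) fun x : OO k => if (f : OO k) ∣ x then ex (a * Nm x / c) else 0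

/-- The multiplier `κ`. -/
def KK (k f : ℕ) (a : ℤ) (c : ℕ) : ℂ := -toC (sD k) / (Dk k * f ^ 2 * c) * GG k f a c

/-- `G = k0 + ∑_(n ≥ 1) e_n e(n z/M)` on the upper half plane, `e_n` of polynomial growth. -/
def HasE (M : ℕ) (G : ℂ → ℂ) (k0 : ℂ) : Prop :=
  ∃ (e : ℕ → ℂ) (C : ℝ), e 0 = 0 ∧ (∀ n : ℕ, ‖e n‖ ≤ C * (n + 1) ^ 2) ∧
    ∀ z : ℂ, 0 < z.im → HasSum (fun n : ℕ => e n * ex (n * z / M)) (G z - k0)

/-- The coset `x + Lam b`. -/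
def cs (x : ℂ) (b : Ideal (OO k)) : Set ℂ := {v : ℂ | v - x ∈ Lam b}

open Classical in
/-- `ρ_s(u) = [u ∈ s n + f b̄] - [-u ∈ s n + f b̄]`, `n = N b`. -/
def rhS (f : ℕ) (b : Ideal (OO k)) (s : ℤ) (u : OO k) : ℂ :=
  (if u - ((s * NI b : ℤ) : OO k) ∈ sp (f : OO k) * cjI b then 1 else 0) -
    (if u + ((s * NI b : ℤ) : OO k) ∈ sp (f : OO k) * cjI b then 1 else 0)

/-- The smoothed theta series of the coset `s/f`; `ThS f m b 1 = ThM f m b`. -/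
def ThS (f : ℕ) (m b : Ideal (OO k)) (s : ℤ) (z : ℂ) : ℂ :=
  (Tc f (m * b) s z - NI m * Tc f b s (NI m * z)) / fr f b

/-- `lim ThS(r + i y)`; `hS f m b 1 = hM f m b`. -/
def hS (f : ℕ) (m b : Ideal (OO k)) (s : ℤ) (r : ℚ) : ℂ :=
  limUnder (𝓝[>] (0 : ℝ)) (fun y => ThS f m b s (r + y * Complex.I))

/-- The constant of the transformation of `ThS`. -/
def PhS (f : ℕ) (m b : Ideal (OO k)) (s : ℤ) (a b' c d : ℤ) : ℂ :=
  ThS f m b s (mob a b' c d Complex.I) - eps (d : OO k) * ThS f m b (a * s) Complex.I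

end Defs

/-- The sum of `v⁻¹ e(w |v|² z)` over the set `A`. -/
def TT (A : Set ℂ) (w : ℝ) (z : ℂ) : ℂ := ∑' v : A, (v : ℂ)⁻¹ * ex (w * ‖(v : ℂ)‖ ^ 2 * z)

theorem ThS_one {k : ℕ} (f : ℕ) (m b : Ideal (OO k)) : ThS f m b 1 = ThM f m b := rfl

theorem hS_one {k : ℕ} (f : ℕ) (m b : Ideal (OO k)) : hS f m b 1 = hM f m b := rfl

/-! ## I. The lattice `O` (ports of `DI/C`) -/

/-- (PORT of DI/C/Bas; no dependence) **The ring `O`.** Most claims are in `DK/Base.lean`.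
`‖x + y w‖² = (x + y/2)² + D y²/4`; `2 N v - (x² + y²) = (x+y)² + (4k-2) y²`;
`s (x + y w) = (-x - 4k y) + (2x + y) w`. -/
def S_Bas : Prop := ∀ (k : ℕ) [SqK k],
  (∀ v : OO k, ‖toC v‖ ^ 2 = (Nm v : ℝ)) ∧
  (∀ v : OO k, toC (cjO v) = (starRingEnd ℂ) (toC v)) ∧
  (∀ v u : OO k, cjO (v * u) = cjO v * cjO u ∧ cjO (v + u) = cjO v + cjO u ∧ cjO (cjO v) = v) ∧
  (∀ v u : OO k, Nm (v * u) = Nm v * Nm u) ∧
  (∀ v : OO k, ((Nm v : ℤ) : OO k) = v * cjO v ∧ Nm (cjO v) = Nm v ∧ Nm (-v) = Nm v) ∧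
  (∀ v : OO k, 0 ≤ Nm v ∧ (Nm v = 0 ↔ v = 0) ∧ (v.re ^ 2 + v.im ^ 2 ≤ 2 * Nm v)) ∧
  (∀ v u : OO k, Nm (v + u) = Nm v + Nm u + (2 * (v * cjO u).re + (v * cjO u).im)) ∧
  (sD k * cjO (sD k) = (Dk k : OO k) ∧ cjO (sD k) = -sD k ∧ sD k * sD k = -(Dk k : OO k)) ∧
  (∀ v : OO k, (sD k * v).im = 2 * v.re + v.im ∧
    2 * (sD k * v).re + (sD k * v).im = -(Dk k : ℤ) * v.im) ∧
  (∀ v : OO k, toC v = 0 ↔ v = 0)

/-- (PORT of DI/C/Sum; uses S_Bas) **Convergence.** -/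
def S_Sum : Prop := ∀ (k : ℕ) [SqK k],
  (∀ (t : ℝ) (j : ℕ), 0 < t → Summable fun v : OO k => ((Nm v : ℝ) + 1) ^ j * Real.exp (-t * Nm v)) ∧
  (∀ z : ℂ, ‖ex z‖ = Real.exp (-2 * Real.pi * z.im)) ∧
  (∀ (n : ℕ) (ρ : OO k → ℂ), 0 < n → PerO n ρ → ∃ C : ℝ, 0 ≤ C ∧ ∀ v : OO k, ‖ρ v‖ ≤ C)

/-- (PORT of DI/C/Poi, with `7` replaced by a real number `D > 0`; no dependence)
**Poisson summation in dimension 1.** -/
def S_Poi : Prop := ∀ (τ : ℂ) (s D : ℝ), 0 < τ.im → 0 < D →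
  ((Complex.I / (2 * τ)) ^ (1 / 2 : ℂ)) ^ 2 = Complex.I / (2 * τ) ∧
  (Complex.I / (2 * (D * τ))) ^ (1 / 2 : ℂ) = (Complex.I / (2 * τ)) ^ (1 / 2 : ℂ) / (√D : ℝ) ∧
  (Summable fun x : ℤ => ex (τ * (x + s) ^ 2)) ∧
  (Summable fun x : ℤ => (x + s) * ex (τ * (x + s) ^ 2)) ∧
  (Summable fun j : ℤ => ex (j * s - j ^ 2 / (4 * τ))) ∧
  (Summable fun j : ℤ => j * ex (j * s - j ^ 2 / (4 * τ))) ∧
  (∑' x : ℤ, ex (τ * (x + s) ^ 2)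
    = (Complex.I / (2 * τ)) ^ (1 / 2 : ℂ) * ∑' j : ℤ, ex (j * s - j ^ 2 / (4 * τ))) ∧
  (∑' x : ℤ, (x + s) * ex (τ * (x + s) ^ 2)
    = (Complex.I / (2 * τ)) ^ (1 / 2 : ℂ) / (2 * τ) * ∑' j : ℤ, j * ex (j * s - j ^ 2 / (4 * τ)))

/-- (PORT of DI/C/Two; uses S_Poi, S_Bas, S_Sum) **Poisson summation in dimension 2.** `v₀/m = α + i √D β`,
`α = (re v₀ + im v₀/2)/m`, `β = im v₀/(2m)`; `N(x + y w) = (x + y/2)² + (D/4) y²`. In step (c) the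
bijection is `-ū = (l + i √D j)/2`, that is `ū = x + y w`, `y = -j`, `x = (j - l)/2`,
`N u = (D j² + l²)/4`. -/
def S_Two : Prop := ∀ (k : ℕ) [SqK k] (m : ℕ) (v₀ : OO k) (τ : ℂ), 0 < m → 0 < τ.im →
  ∑' u : OO k, toC (cjO (v₀ + (m : OO k) * u)) * ex (Nm (v₀ + (m : OO k) * u) * τ)
    = -1 / (Dk k * m ^ 3 * τ ^ 2) *
      ∑' u : OO k, toC (cjO u) * ex (-(Nm u) / (Dk k * m ^ 2 * τ) - (v₀ * cjO u).im / m)

/-- (PORT of DI/C/Res; no dependence) **Sums over the residues.** -/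
def S_Res : Prop := ∀ (k : ℕ) [SqK k],
  (∀ (m : ℕ) (F : OO k → ℂ), 0 < m → PerO m F → ∀ w : OO k,
    rsum m (fun v => F (v + w)) = rsum m F) ∧
  (∀ (m : ℕ) (F : OO k → ℂ), 0 < m → Summable F →
    (∀ v : OO k, Summable fun u : OO k => F (v + (m : OO k) * u)) ∧
    ∑' v : OO k, F v = rsum m fun v => ∑' u : OO k, F (v + (m : OO k) * u)) ∧
  (∀ (m : ℕ) (F : OO k → ℂ), 0 < m → PerO m F → ∀ a : ℤ, IsCoprime a (m : ℤ) →
    rsum m (fun v => F ((a : OO k) * v)) = rsum m F) ∧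
  (∀ (f : ℕ) (w : OO k), 0 < f → ((f : OO k) ∣ w →
      rsum f (fun u : OO k => ex ((cjO u * w).im / f)) = (f : ℂ) ^ 2) ∧
    (¬ (f : OO k) ∣ w → rsum f (fun u : OO k => ex ((cjO u * w).im / f)) = 0)) ∧
  (∀ (f p : ℕ) (F : OO k → ℂ), 0 < f → 0 < p → Nat.Coprime f p → PerO (f * p) F →
    rsum (f * p) F = rsum f fun α => rsum p fun β => F ((p : OO k) * α + (f : OO k) * β))

/-- (PORT of DI/C/Gau; no dependence) **The Gauss sum of the norm form, and inert primes.**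
`p` prime, `p > D`, `(p/D) = -1` (Jacobi symbol). By reciprocity for Jacobi symbols
(`jacobiSym.quadratic_reciprocity` and its variants; `D = 8k - 1 = 3 mod 4`):
`(-D/p) = (-1/p) (D/p) = (-1/p) (-1)^((p-1)/2) (p/D) = (p/D) = -1` (`p` is odd since `p > D ≥ 7`).
(1) `N(x + y w) = (x + y/2)² + (D/4) y²` modulo `p`; the sum is `χ(j) χ(j D/4) χ(-1) p = χ(-D) p = -p`.
(2) `4 p² = (2x+y)² + D y²`: if `p ∤ y` then `-D` is a square modulo `p`; so `p ∣ y`, `p ∣ x`, `u = p u'`,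
`N u' = 1`, `(2x'+y')² + D y'² = 4`, `D ≥ 7`: `y' = 0`, `x' = ± 1`. -/
def S_Gau : Prop := ∀ (k : ℕ) [SqK k] (p : ℕ), p.Prime → Dk k < p → jacobiSym p (Dk k) = -1 →
  (∀ j : ℤ, ¬ (p : ℤ) ∣ j → rsum p (fun β : OO k => ex (j * Nm β / p)) = -(p : ℂ)) ∧
  (∀ u : OO k, Nm u = (p : ℤ) ^ 2 → u = (p : OO k) ∨ u = -(p : OO k))

/-- (PORT of DI/C/Uni; uses S_Bas, S_Sum) **Uniqueness of the coefficients.** -/
def S_Uni : Prop := ∀ (k : ℕ) [SqK k] (M : ℕ) (γ : OO k → ℂ) (C : ℝ), 0 < M →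
  (∀ u : OO k, ‖γ u‖ ≤ C * (1 + Nm u)) →
  (∀ z : ℂ, 0 < z.im → ∑' u : OO k, γ u * ex (Nm u * z / M) = 0) →
  ∀ (n : ℤ) (T : Finset (OO k)), (∀ u : OO k, u ∈ T ↔ Nm u = n) → ∑ u ∈ T, γ u = 0

/-- (PORT of DI/C/Gen; uses S_Two, S_Res, S_Sum) **General `g`, `c > 0`.** -/
def S_Gen : Prop := ∀ (k : ℕ) [SqK k] (f c : ℕ) (a b d : ℤ) (ρ : OO k → ℂ) (z : ℂ), 0 < f → 0 < c →
  PerO f ρ → a * d - b * c = 1 → 0 < z.im →
  Gt ρ (mob a b c d z) = -((c : ℂ) * z + d) ^ 2 / (Dk k * f ^ 3 * c) *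
    (1 / 2 * ∑' u : OO k, toC (cjO u) * ex (Nm u * z / (Dk k * f ^ 2)) * BB ρ f a d c u)

/-- (PORT of DI/C/Gam; uses S_Bas, S_Res) **The finite sums for `D f² ∣ c`.** Changes: `Tr(ū) = 2x + y`,
`Tr(w ū) = x + 4k y` for `u = x + y w`; if `B(u) ≠ 0` then `D f` divides both and `u = f s v'`,
`v' = ((x + 4k y) - (2x + y) w)/(D f)` (`s (A + B w) = (-A - 4k B) + (2A + B) w`). -/
def S_Gam : Prop := ∀ (k : ℕ) [SqK k] (f c : ℕ) (a b d : ℤ) (ρ : OO k → ℂ), 0 < f → 0 < c →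
  PerO f ρ → a * d - b * c = 1 → Dk k * f ^ 2 ∣ c →
  (∀ u : OO k, ¬ (f * sD k : OO k) ∣ u → BB ρ f a d c u = 0) ∧
  (∀ v : OO k, BB ρ f a d c (f * sD k * v) = ρ (-(d * v)) * GG k f a c)

/-- (PORT of DI/C/Kap; uses S_Gen, S_Gam, S_Sum) **`Γ_0(D f²)`, with an unknown multiplier.** -/
def S_Kap : Prop := ∀ (k : ℕ) [SqK k] (f : ℕ) (a b c d : ℤ), 0 < f → a * d - b * c = 1 →
  (Dk k * f ^ 2 : ℤ) ∣ c →
  ∃ κ : ℂ, ∀ ρ : OO k → ℂ, OddO ρ → PerO f ρ → ∀ z : ℂ, 0 < z.im →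
    Gt ρ (mob a b c d z) = κ * ((c : ℂ) * z + d) ^ 2 * Gt (tw ρ (d : OO k)) z

/-- (PORT of DI/C/Eps, with DI/C/EpsB; uses S_Kap, S_Gen, S_Gau, S_Uni, S_Res, S_Bas) **`κ = ε(d)`.** Here
`ε(d) = eps (d : O) = (2d/D) = (d/D)` because `D = -1` modulo `8`. Case (A): `d = p` prime, `p > D`, `ε(p) = -1`,
`ρ = δ_(p w) - δ_(-p w)` modulo `f`; `f` is odd, prime to `p` (`D f² ∣ c`, `a p - b c = 1`) and `f ≥ 3`, so `f ∤ 2p`
and `B₂(p) = e(-p/f) - e(p/f) ≠ 0`. Case (B): `ε(d) = -1`; Dirichlet gives a prime `p = d + j c > D`,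
`ε(p) = ε(d)` because `D ∣ c`. Case (C): `ε(-d) = -ε(d)` since `(-1/D) = -1` (`D = 3` modulo `4`);
`ε(d) ≠ 0` because `d` is prime to `D`. -/
def S_Eps : Prop := ∀ (k : ℕ) [SqK k] (f : ℕ) (a b c d : ℤ) (ρ : OO k → ℂ) (z : ℂ), Odd f → 3 ≤ f →
  a * d - b * c = 1 → (Dk k * f ^ 2 : ℤ) ∣ c → OddO ρ → PerO f ρ → 0 < z.im →
    Gt ρ (mob a b c d z) = eps (d : OO k) * ((c : ℂ) * z + d) ^ 2 * Gt (tw ρ (d : OO k)) z

/-- (PORT of DI/C/Der; uses S_Bas, S_Sum) **Derivative and growth.** -/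
def S_Der : Prop := ∀ (k : ℕ) [SqK k] (f : ℕ) (ρ : OO k → ℂ), 0 < f → PerO f ρ →
  (∀ z : ℂ, 0 < z.im → HasDerivAt (Th ρ) (2 * Real.pi * Complex.I * Gt ρ z) z) ∧
  (∀ z : ℂ, 0 < z.im → Summable fun v : OO k => ρ v / toC v * ex (Nm v * z)) ∧
  (∃ C : ℝ, ∀ z : ℂ, 1 ≤ z.im → ‖Th ρ z‖ ≤ C * Real.exp (-2 * Real.pi * z.im))

/-- (PORT of DI/C/Phi, first half; uses S_Eps, S_Der) -/
def S_Phi : Prop := ∀ (k : ℕ) [SqK k] (f : ℕ) (ρ : OO k → ℂ), Odd f → 3 ≤ f → OddO ρ → PerO f ρ →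
  ∀ a b c d : ℤ, a * d - b * c = 1 → (Dk k * f ^ 2 : ℤ) ∣ c → ∀ z : ℂ, 0 < z.im →
    Th ρ (mob a b c d z) = eps (d : OO k) * Th (tw ρ (d : OO k)) z + PhC ρ a b c d

/-- (PORT of DI/C/Cus; uses S_Gen, S_Der, S_Sum, S_Bas; NEW: the bound of the coefficients) **All cusps.** Let
`c > 0` (for `c < 0` use `-g`). The derivative of `Th_ρ(g z)` is `2πi (c z + d)⁻² G_ρ(g z) = 2πi ∑_u γ_u e(N u z/M)`,
`M = D f²`, `γ_u = -1/(2 D f³ c) ū B(u)`, `|γ_u| ≤ C |u|`, `γ_0 = 0`. The function `∑_(u ≠ 0) γ_u (M/N u) e(N u z/M)` has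
the same derivative, so the difference is a constant `k0`. Group by `n = N u`: `e_n = ∑_(N u = n) γ_u M/n`, `e_0 = 0`.
BOUND: `|γ_u M/N u| ≤ C M` for `u ≠ 0` (`|u| ≤ N u`), and the number of `u` with `N u = n` is at most
`(2n + 1)²` as `x² + y² ≤ 2 N u` gives `|x|, |y| ≤ √(2n)`; `|x| ≤ 2n` for `n ≥ 1`
(any bound of the form `C (n+1)²`). If `c = 0`: `g z = z + j`, `Th_ρ(z + j) = Th_ρ(z)` is a series in `e(N v z)` (`k0 = 0`, coefficients at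
the multiples of `M`). -/
def S_Cus : Prop := ∀ (k : ℕ) [SqK k] (f : ℕ) (a b c d : ℤ) (ρ : OO k → ℂ), 0 < f →
  a * d - b * c = 1 → PerO f ρ →
  ∃ k0 : ℂ, HasE (Dk k * f ^ 2) (fun z => Th ρ (mob a b c d z)) k0

/-! ## II. Expansions and lattice sums -/

/-- (module C/Exp, 150 lines; uses S_Sum (2)) **Rules for `HasE`.** (1) `t = M'/M`: the new coefficients are
`e'_j = e_(j/t)` if `t ∣ j`, otherwise `0` (`HasSum` along the injection `n ↦ t n`,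
`Function.Injective.hasSum_iff`); note `C ≥ 0` (`n = 0`). (2) linear combinations. (3) SUBSTITUTION: for
`z ↦ (α z + β)/δ`, `α`, `δ > 0`: `e(n (α z + β)/(δ M)) = e(n β/(δ M)) e(n α z/(M δ))`: coefficients at the
multiples of `α`. (4) DECAY: for `Im z ≥ 1` and `n ≥ 1`:
`|e_n e(n z/M)| ≤ C (n+1)² exp(-2π n/M) exp(2π/M) exp(-2π Im z/M)` (`n y ≥ (n - 1) + y`), and
`∑ (n+1)² exp(-2π n/M)` converges (`Real.summable_pow_mul_exp_neg_nat_mul` or comparison). -/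
def S_Exp : Prop :=
  (∀ (M M' : ℕ) (G : ℂ → ℂ) (k0 : ℂ), 0 < M → 0 < M' → M ∣ M' → HasE M G k0 → HasE M' G k0) ∧
  (∀ (M : ℕ) (G G' : ℂ → ℂ) (k0 k0' x y : ℂ), 0 < M → HasE M G k0 → HasE M G' k0' →
    HasE M (fun z => x * G z + y * G' z) (x * k0 + y * k0')) ∧
  (∀ (M : ℕ) (G : ℂ → ℂ) (k0 : ℂ) (α δ : ℕ) (β : ℤ), 0 < M → 0 < α → 0 < δ → HasE M G k0 →
    HasE (M * δ) (fun z => G ((α * z + β) / δ)) k0) ∧
  ∀ (M : ℕ) (G : ℂ → ℂ) (k0 : ℂ), 0 < M → HasE M G k0 →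
    ∃ C : ℝ, ∀ z : ℂ, 1 ≤ z.im → ‖G z - k0‖ ≤ C * Real.exp (-2 * Real.pi * z.im / M)

/-- (module C/Tt, 120 lines; no dependence) **Rules for `TT`.** (1) the bijection `A → c A`
(`Set.BijOn`, `Equiv.tsum_eq`), `(c v)⁻¹ = c⁻¹ v⁻¹`, `‖c v‖² = ‖c‖² ‖v‖²`, `tsum_mul_left` (valid without
summability in a division ring). (2) conjugation: `conj (ex x) = ex (-conj x)`, `Complex.conj_tsum`. (3) clear.
(4) `tsum_subtype`, `Set.indicator`: `1_(A ∪ B) + 1_(A ∩ B) = 1_A + 1_B`; all four families are summable.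
(5) `Finset.induction` or `tsum_sum` with indicators. -/
def S_Tt : Prop :=
  (∀ (A : Set ℂ) (c : ℂ) (w : ℝ) (z : ℂ), c ≠ 0 →
    TT ((fun v => c * v) '' A) w z = c⁻¹ * TT A (w * ‖c‖ ^ 2) z) ∧
  (∀ (A : Set ℂ) (w : ℝ) (z : ℂ), TT ((starRingEnd ℂ) '' A) w z =
    (starRingEnd ℂ) (TT A w (-(starRingEnd ℂ) z))) ∧
  (∀ (A : Set ℂ) (w t : ℝ) (z : ℂ), TT A (w * t) z = TT A w (t * z)) ∧
  (∀ (A B : Set ℂ) (w : ℝ) (z : ℂ),
    (Summable fun v : (A ∪ B : Set ℂ) => (v : ℂ)⁻¹ * ex (w * ‖(v : ℂ)‖ ^ 2 * z)) →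
    TT (A ∪ B) w z + TT (A ∩ B) w z = TT A w z + TT B w z) ∧
  ∀ (U : Finset ℂ) (A : ℂ → Set ℂ) (w : ℝ) (z : ℂ),
    (∀ u ∈ U, ∀ u' ∈ U, ∀ v : ℂ, v ∈ A u → v ∈ A u' → u = u') →
    (Summable fun v : (⋃ u ∈ U, A u : Set ℂ) => (v : ℂ)⁻¹ * ex (w * ‖(v : ℂ)‖ ^ 2 * z)) →
    TT (⋃ u ∈ U, A u) w z = ∑ u ∈ U, TT (A u) w z

/-- (module C/Lt, 200 lines; uses S_Bas, S_Sum, S_O2, S_O3, S_L0 (`DK/O/Spec.lean`), S_L1) **Sums over `Lam b`.**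
Let `n = NI b > 0` (`S_O2`). (1) `b * cjI b = sp n` (`S_O3`) and `S_L0`. (2) `S_L1`: `(LP b).lattice = Lam b` as
sets; the map `v ↦ x + v` is a bijection onto `cs x b` (`Equiv.tsum_eq`). (3) `x = toC u/n`, `u ∈ cjI b`, so
`cjO u ∈ b` and `N u = u * cjO u ∈ cjI b * b = sp n`, `n ∣ N u` (`nat_dvd_iff`); `n ‖x‖² = N u/n`. (4) from (3). (5) BOUND
of the inverse: `x = toC v₀/N'` and `v = toC u/n` give `x + v = toC w/(N' n)`, `w ∈ O`, and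
`‖toC w‖ ≥ 1` if `w ≠ 0` (`(0)⁻¹ = 0`): `C = N' n`. (6) SUMMABILITY: `x + v = toC w/(N' n)` with `w = n v₀ + N' u`,
injective in `u`; `‖x + v‖² = N w/(N' n)²`, `‖ex(..)‖ = exp(-2π w' ‖x+v‖² Im z)`; `S_Sum` (1) and (5). -/
def S_Lt : Prop := ∀ (k : ℕ) [SqK k] (b : Ideal (OO k)), b ≠ ⊥ →
  0 < NI b ∧
  (∀ z : ℂ, z ∈ Lam b ↔ ∃ u ∈ cjI b, z = toC u / NI b) ∧
  (∀ (x : ℂ) (F : ℂ → ℂ), ∑' v : (LP b).lattice, F (x + v) = ∑' v : cs x b, F v) ∧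
  (∀ x ∈ Lam b, ∃ n : ℕ, (NI b : ℝ) * ‖x‖ ^ 2 = n) ∧
  (∀ x ∈ Lam b, ∀ y ∈ Lam b, ∃ n : ℤ, (NI b : ℝ) * (‖x + y‖ ^ 2 - ‖x‖ ^ 2 - ‖y‖ ^ 2) = n) ∧
  (∀ x : ℂ, Tor k x → ∃ C : ℝ, ∀ v ∈ cs x b, ‖v⁻¹‖ ≤ C) ∧
  (∀ (x : ℂ) (w : ℝ) (z : ℂ), Tor k x → 0 < w → 0 < z.im →
    Summable fun v : cs x b => (v : ℂ)⁻¹ * ex (w * ‖(v : ℂ)‖ ^ 2 * z))

/-- (module C/Red, 200 lines; uses S_Lt, S_Tt, S_Bas, S_Der, S_O2, S_O3) **Reduction to the lattice `O`.** `n = NI b`,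
`F = f n`, `I = sp f * cjI b` (note `(F : O) ∈ I`). (1) odd: clear; period: `F u ∈ I`. (2) `Tc f b s z =
TT (cs (s/f) b) (f² n) z` (`S_Lt`), and `cs (s/f) b = (1/F) A`, `A = {toC u | u - s n ∈ I}` (`S_Lt` (2): `v - s/f = toC u'/n`,
`u' ∈ cjI b`, `F v = s n + f u'`); `S_Tt` (1): `Tc = F TT A (1/n) z = F ∑_(u - s n ∈ I) (toC u)⁻¹ e(N u z/n)`. On the other
hand `2 Th ρ_s(z/n)` is the sum over `u - s n ∈ I` minus the sum over `-u - s n ∈ I`; replace `u` by `-u` in the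
second. (3) for `v ∈ cs (s/f) b`: `f v = s + f v' ∈ Lam b`, so `f² n ‖v‖²` is an integer (`S_Lt` (4)) and
`e(f² n ‖v‖² (z + 1)) = e(f² n ‖v‖² z)`. (4) `s/f - s'/f ∈ ℤ ⊆ Lam b`: the cosets are equal. (5) `F ∈ I`:
`d u - s n ∈ I` iff `a d u - a s n ∈ I` iff `u - a s n ∈ I` (multiply by `a`, resp. by `d`). (6) `v ↦ -v`. -/
def S_Red : Prop := ∀ (k : ℕ) [SqK k] (f : ℕ) (b : Ideal (OO k)), 0 < f → b ≠ ⊥ → ∀ s : ℤ,
  (OddO (rhS f b s) ∧ PerO (f * NI b) (rhS f b s)) ∧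
  (∀ z : ℂ, 0 < z.im → Tc f b s z = (f * NI b : ℕ) * Th (rhS f b s) (z / NI b)) ∧
  (∀ z : ℂ, Tc f b s z = TT (cs (s / f) b) (f ^ 2 * NI b) z) ∧
  (∀ (z : ℂ) (j : ℤ), Tc f b s (z + j) = Tc f b s z) ∧
  (∀ s' : ℤ, (f : ℤ) ∣ s - s' → ∀ z : ℂ, Tc f b s z = Tc f b s' z) ∧
  (∀ a d : ℤ, ((f * NI b : ℕ) : ℤ) ∣ a * d - 1 → ∀ u : OO k,
    rhS f b s (d * u) = rhS f b (a * s) u) ∧
  ∀ z : ℂ, Tc f b (-s) z = -Tc f b s z

/-- (module C/Tct, 130 lines; uses S_Phi, S_Red, S_O6, S_O2) **Transformation of `Tc`.** `n = NI b` is odd (`S_O6` (3):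
`PrI b 2`), `F = f n` is odd, `≥ 3`. `d` is prime to `c`, so to `n`: choose `j` with `n ∣ b' + j d`. By the period of `Tc`:
`Tc(g z) = Tc(g z + j) = Tc(g₁ z)`, `g₁ = (a₁ b₁; c d)`, `a₁ = a + j c`, `b₁ = b' + j d = n b₂`. With `w = z/n`:
`(g₁ z)/n = (a₁ w + b₂)/(c n w + d) = g' w`, `g' = (a₁ b₂; c n, d)`, `a₁ d - b₂ (c n) = 1`, `D F² ∣ c n`. `S_Phi` for `F`, `g'`:
`Th_ρs(g' w) = ε(d) Th_((ρ_s)_d)(w) + Φ`; `a₁ d - 1 = b₁ c` is divisible by `F` (`f n ∣ c`), so by `S_Red` (6)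
`(ρ_s)_d = ρ_(a₁ s)`, and `Tc f b (a₁ s) = Tc f b (a s)` (`f ∣ c`). -/
def S_Tct : Prop := ∀ (k : ℕ) [SqK k] (f : ℕ) (b : Ideal (OO k)) (s : ℤ), Odd f → 3 ≤ f → b ≠ ⊥ →
  PrI b 2 → ∀ a b' c d : ℤ, a * d - b' * c = 1 → ((Dk k * f ^ 2 * NI b : ℕ) : ℤ) ∣ c →
    ∃ Φ : ℂ, ∀ z : ℂ, 0 < z.im →
      Tc f b s (mob a b' c d z) = eps (d : OO k) * Tc f b (a * s) z + Φ

/-- (module C/Tcc, 150 lines; uses S_Cus, S_Exp, S_Red, S_O2) **Cusps of `Tc`.** `n = NI b`, `F = f n`. Let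
`h = (t a, t b'; n c, n d)` (determinant `t n`), `α = gcd(t a, n c) > 0`, `t a = α p`, `n c = α q`, `p y - x q = 1`. Then
`h = g' (α, β; 0, δ)`, `g' = (p x; q y)`, `β = y t b' - x n d`, `δ = t n/α` (an integer: `α` divides
`d (t a) ⋅ n - b' (n c) t = t n`; multiply `h` by the inverse `(y, -x; -q, p)` of `g'`). So `t (g z)/n = h z = g'((α z + β)/δ)`.
`Tc f b s (t g z) = F Th_ρs(g' w)`, `w = (α z + β)/δ` (`S_Red`; `Im (t g z) > 0`). `S_Cus` for `F` and `g'`: `HasE (D F²)`;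
`S_Exp` (3): `HasE (D F² δ)`, and `D F² δ ∣ D f² n² (t n) ∣ M`, `S_Exp` (1), (2). -/
def S_Tcc : Prop := ∀ (k : ℕ) [SqK k] (f : ℕ) (b : Ideal (OO k)) (s : ℤ), 0 < f → b ≠ ⊥ →
  ∀ a b' c d : ℤ, a * d - b' * c = 1 → ∀ t M : ℕ, 0 < t → 0 < M →
    t * (Dk k * f ^ 2 * NI b ^ 3) ∣ M →
    ∃ k0 : ℂ, HasE M (fun z => Tc f b s (t * mob a b' c d z)) k0

/-! ## III. The smoothed series -/

/-- (module C/TrS, 100 lines; uses S_Tct, S_O2, S_O6) **Transformation of `ThS` under `Γ_0(M)`.** `ν = NI m > 0`,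
`n = NI b`, `NI (m b) = ν n` (`S_O2`), `m b` is prime to `2`. `D f² (ν n)³ ∣ M ∣ c`. First term: `S_Tct` for `m b`. Second
term: `ν (g z) = g'' (ν z)`, `g'' = (a, ν b'; c/ν, d)` (`c = ν c₁`, `D f² n ∣ c₁`), `S_Tct` for `b`, `g''`. Subtract, divide
by `fr f b`; the constant is the value at `z = i`: `PhS`. -/
def S_TrS : Prop := ∀ (k : ℕ) [SqK k] (f M : ℕ) (m b : Ideal (OO k)), FM f m → FB f b → PrI b 2 →
  IsLv f m {b} M → ∀ a b' c d : ℤ, G0 M a b' c d → ∀ (s : ℤ) (z : ℂ), 0 < z.im →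
    ThS f m b s (mob a b' c d z) = eps (d : OO k) * ThS f m b (a * s) z + PhS f m b s a b' c d

/-- (module C/CuS, 80 lines; uses S_Tcc, S_Exp, S_O2) **Cusps of `ThS`.** `S_Tcc` for `m b`, `t = 1` and for `b`, `t = NI m`;
`D f² (NI m NI b)³ ∣ M`; `S_Exp` (2) with `x = 1/fr f b`, `y = -NI m/fr f b`. -/
def S_CuS : Prop := ∀ (k : ℕ) [SqK k] (f M : ℕ) (m b : Ideal (OO k)), FM f m → FB f b →
  IsLv f m {b} M → ∀ a b' c d : ℤ, a * d - b' * c = 1 → ∀ s : ℤ,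
    ∃ k0 : ℂ, HasE M (fun z => ThS f m b s (mob a b' c d z)) k0

/-- (module C/C3, 50 lines; uses S_CuS) `S_C3`: `cf n = e (n + 1)`, `hasSum_nat_add_iff' 1` (`e 0 = 0`),
`(n + 2)² ≤ 4 (n + 1)³`. -/
abbrev M_C3 : Prop := S_C3

/-- (module C/Val, 220 lines, adaptation of DI/C/Hh; uses S_TrS, S_CuS, S_Exp) **The values `hS`.** Let `r = A/C` in
lowest terms, `C > 0`, `γ = (A B; C D')` in `SL_2(ℤ)`. By `S_CuS` and `S_Exp` (4): `ThS_s(γ w) → k0` as `Im w → ∞`.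
(1) vertical: `w = γ⁻¹(r + i y)`, `Im w = 1/(C² y) → ∞`, so the limit exists and equals `k0` (`Tendsto.limUnder_eq`).
(2) `g γ` sends `∞` to `g r` (its lower left entry is `c A + d C ≠ 0`; if it is negative use `-g γ`, the same Möbius map), and
`Im((g γ)⁻¹ g(r + i y)) = Im γ⁻¹(r + i y) → ∞`. So `ThS_s(g(r + i y)) → hS_s(g r)`; on the other hand
`ThS_s(g(r + i y)) = ε(d) ThS_(a s)(r + i y) + PhS → ε(d) hS_(a s)(r) + PhS`. (3) `r = 0` in (2), `d ≠ 0`. -/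
def S_Val : Prop := ∀ (k : ℕ) [SqK k] (f M : ℕ) (m b : Ideal (OO k)), FM f m → FB f b → PrI b 2 →
  IsLv f m {b} M →
  (∀ (s : ℤ) (r : ℚ), Tendsto (fun y : ℝ => ThS f m b s (r + y * Complex.I)) (𝓝[>] 0)
    (𝓝 (hS f m b s r))) ∧
  ∀ a b' c d : ℤ, G0 M a b' c d → ∀ s : ℤ,
    (∀ r : ℚ, (c : ℚ) * r + d ≠ 0 →
      hS f m b s (mobQ a b' c d r) = eps (d : OO k) * hS f m b (a * s) r + PhS f m b s a b' c d) ∧
    (d ≠ 0 → PhS f m b s a b' c d = hS f m b s (b' / d) - eps (d : OO k) * hS f m b (a * s) 0)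

/-- (module C/Hom, 180 lines; uses S_Red, S_Tt, S_O2, S_O6, S_B12, S_R5) **Homogeneity.** (1) `Lam(α b) = α⁻¹ Lam b`
(`lam_sp`), so `cs (1/f) (α b) = α⁻¹ cs (α/f) b` (`v - 1/f ∈ Lam(α b)` iff `α v - α/f ∈ Lam b`), `NI(α b) = N α NI b`
(`S_O2`), `‖α⁻¹‖² N α = 1`; `S_Tt` (1), `S_Red` (3). For `α = a ∈ ℤ`: `cs (a/f) b`. (2) `f ∣ α - 1`: `α/f - 1/f ∈ O ⊆ Lam b`, so
`cs (α/f) b = cs (1/f) b`. (3) `m (a b) = a (m b)`; by (1) `fr(a b) ThM f m (a b) z = a (Tc f (m b) a z - ν Tc f b a (ν z)) =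
a fr(b) ThS f m b a z` (if `fr f b = 0` both sides of the claim are `0`; `fr f (a b) ≠ 0` by `S_R5`, `a b` is prime to `f` by
`S_O6` (1), (4): `Cop a f`). (4) the same with `fr(α b) = α fr(b)` (`S_B12`). -/
def S_Hom : Prop := ∀ (k : ℕ) [SqK k] (f : ℕ), Odd f → 3 ≤ f →
  (∀ b : Ideal (OO k), b ≠ ⊥ → ∀ (a : ℤ) (z : ℂ), a ≠ 0 →
    Tc f (sp (a : OO k) * b) 1 z = a * Tc f b a z) ∧
  (∀ b : Ideal (OO k), b ≠ ⊥ → ∀ (α : OO k) (z : ℂ), α ≠ 0 → (f : OO k) ∣ α - 1 →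
    Tc f (sp α * b) 1 z = toC α * Tc f b 1 z) ∧
  (∀ m b : Ideal (OO k), FM f m → FB f b → ∀ (a : ℤ) (z : ℂ), a ≠ 0 → IsCoprime a (f : ℤ) →
    FB f (sp (a : OO k) * b) ∧
    ThS f m b a z = fr f (sp (a : OO k) * b) / (a * fr f b) * ThM f m (sp (a : OO k) * b) z) ∧
  ∀ m b : Ideal (OO k), FM f m → FB f b → ∀ (α : OO k) (z : ℂ), α ≠ 0 → (f : OO k) ∣ α - 1 →
    ThM f m (sp α * b) z = ThM f m b z

/-- (module C/Den, 80 lines; no dependence) **Denominators.** `M ∣ c`, `M ≥ 3`, `a d - b' c = 1`: `a d = 1` modulo `M`,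
so `a`, `d ≠ 0`. `r = p/q` in lowest terms, `q` prime to `M`: if `c p + d q = 0` then `M ∣ d q`, `M ∣ 1`. The denominator of
`g r = (a p + b' q)/(c p + d q)` divides `c p + d q = d q` modulo `M`; that of `b'/d` divides `d`. -/
def S_Den : Prop := ∀ (M : ℕ) (a b' c d : ℤ), 3 ≤ M → G0 M a b' c d →
  a ≠ 0 ∧ d ≠ 0 ∧ IsCoprime a (M : ℤ) ∧ IsCoprime d (M : ℤ) ∧ (M : ℤ) ∣ a * d - 1 ∧
  (b' / d : ℚ).den.Coprime M ∧
  ∀ r : ℚ, r.den.Coprime M → (c : ℚ) * r + d ≠ 0 ∧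
    ((a * r + b') / (c * r + d) : ℚ).den.Coprime M

/-- (module C/C1, 130 lines; uses S_Val, S_Hom, S_Den, S_C4, S_R5, S_O2, S_O6) `S_C1`. `ν = NI m ∣ M`. By `S_Hom` (3):
`ThS f m b a = (fr(ab)/(a fr(b))) ThM f m (ab)`, so (limits: `S_C4` for `ab`, `S_Val` (1)) `hS f m b a r =
(fr(ab)/(a fr(b))) hM f m (ab) r` for `r.den` prime to `ν`. `S_Val` (2), (3) with `s = 1` (`a * 1 = a`):
`hM(g r) = ε(d) (hS_a(r) - hS_a(0)) + hM(b'/d)`. All values are the images under `io` of the `etaM` (`S_C4`: the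
denominators are prime to `ν` by `S_Den`), `io (rO f b (ab)) = fr(ab)/fr(b)` (`S_R5`); `io_inj`. -/
abbrev M_C1 : Prop := S_C1

/-- (module C/C2, 100 lines; uses S_TrS, S_Val, S_Red, S_Den, S_C4, S_O2) `S_C2`. `d = 1` modulo `M`, so `a = 1` modulo `M`,
`f ∣ a - 1`: `Tc f b a = Tc f b 1`, the same for `m b` (`S_Red` (5)), so `ThS f m b a = ThM f m b` and `hS f m b a = hM f m b`.
`eps (d : O) = jacobiSym (2 d) D = 1` (`D ∣ M ∣ d - 1`, and `(2/D) = 1`: `ZMod.χ₈`, `D = 7` modulo `8`). `S_TrS` with `s = 1` and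
`S_Val` (3): the constant is `hM(b'/d) - hM(0) = io (etaM(b'/d) - etaM(0))` (`S_C4`). -/
abbrev M_C2 : Prop := S_C2

/-! ## IV. Values by Kronecker's series -/

/-- (module C/Spl, 180 lines; uses S_Lt, S_Tt, S_Red) **Splitting modulo `n`.** Let `N' = NI b`, `z_u = 1/(f n) + u`, `u ∈ U`
(a system of representatives of `Lam((n) b)/Lam b`, `Lam((n) b) = (1/n) Lam b` by `lam_sp`).
`v ∈ cs (1/f) b` iff `v/n - 1/(f n) ∈ Lam((n) b)` iff `v = n (z_u + λ)` with `u ∈ U`, `λ ∈ Lam b` (`u` unique): so `cs (1/f) b` is the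
disjoint union of the `n cs(z_u) b` (`cs z_u b` disjoint for different `u`). `S_Tt` (5), (1):
`Tc f b 1 (t z) = TT (cs (1/f) b) (f² N') (t z) = ∑_u n⁻¹ TT (cs z_u b) (f² N' n²) (t z)`. With `z = c/n + i y`, `v ∈ cs z_u b`,
`v = z_u + λ`: `f n v = 1 + f n u + f n λ`, `x = 1 + f n u ∈ Lam b`, and
`N' ‖x + f n λ‖² = N' ‖x‖² + f n (N' (‖x + λ‖² - ‖x‖² - ‖λ‖²)) + f² n² N' ‖λ‖²` is `N' ‖x‖²` modulo `n` (`S_Lt` (4), (5)); so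
`e(f² N' n² ‖v‖² t c/n) = e(c t N' ‖x‖²/n)`, and `e(f² N' n² ‖v‖² t i y) = exp(-2π y f² N' t n² ‖v‖²)`; the sum over `cs z_u b` of
`v⁻¹ exp(-τ ‖v‖²)` is `KtC b τ z_u` (`S_Lt` (3)). -/
def S_Spl : Prop := ∀ (k : ℕ) [SqK k] (f n t : ℕ) (b : Ideal (OO k)) (c : ℤ) (U : Finset ℂ), 0 < f →
  0 < n → 0 < t → b ≠ ⊥ → IsSys (sp (n : OO k)) b U → ∀ y : ℝ, 0 < y →
    Tc f b 1 (t * ((c : ℂ) / n + y * Complex.I)) = (n : ℂ)⁻¹ *
      ∑ u ∈ U, ex (c * (t * NI b * ‖1 + f * n * u‖ ^ 2) / n) *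
        KtC b (2 * Real.pi * y * f ^ 2 * NI b * t * n ^ 2) (1 / (f * n) + u)

/-- (module C/C4a, 180 lines; uses S_Spl, S_Lt, S_O2, S_O6, S_L5, S_B10) **The limits.** `ν = NI m`, `n` prime to `ν`, so
`PrI m n` (`S_O6` (3)). (i) `U` is a system for `(n)`, `m b` too: `Lam((n) m b)`, `S_L5` with `N = n`, `a = m`: existence by
its second claim (`n z ∈ Lam(m b)`), uniqueness by the first. (ii) for `u ∈ U`: `n u ∈ Lam b`, `x = 1 + f n u ∈ Lam b ⊆ Lam(m b)`, so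
`ν NI b ‖x‖²` is an integer (`S_Lt` for `m b`; `NI(m b) = ν NI b`), `= qN m b x` (`Int.floor`). (iii) `z_u = 1/(f n) + u ∉ Lam(m b)`: otherwise
`1/f = n z_u - n u ∈ Lam(m b)`, so `v/f ∈ O` for all `v ∈ m b`, `m b ≤ sp f`, but `m b` is prime to `f` and `f ≥ 3` (`f` is not a unit:
norms). (iv) `S_Spl` for `m b`, `t = 1` and for `b`, `t = ν`: at `z = c/n + i y`
`fr(b) ThM = n⁻¹ ∑_u e(c qN/n) (KtC (m b) τ z_u - ν KtC b τ z_u)`, `τ = 2π y f² NI(m b) n² → 0+` (the same `τ` in both), `S_B10` (1)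
(`z_u ∉ Lam b` too), and `gC = (K(m b) - ν K(b))/fr(b)`. -/
def S_C4a : Prop := ∀ (k : ℕ) [SqK k] (f : ℕ) (m b : Ideal (OO k)), FM f m → FB f b →
  ∀ (c : ℤ) (n : ℕ), 0 < n → n.Coprime (NI m) → ∀ U : Finset ℂ, IsSys (sp (n : OO k)) b U →
    (∀ u ∈ U, (qN m b (1 + f * n * u) : ℝ) = (NI m : ℝ) * NI b * ‖1 + f * n * u‖ ^ 2) ∧
    (∀ u ∈ U, 1 / (f * n) + u ∉ Lam (m * b) ∧ Tor k (1 / (f * n) + u)) ∧
    Tendsto (fun y : ℝ => ThM f m b (((c / n : ℚ) : ℂ) + y * Complex.I)) (𝓝[>] 0)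
      (𝓝 ((n : ℂ)⁻¹ * ∑ u ∈ U, ex (c * qN m b (1 + f * n * u) / n) *
        gC f m b (1 / (f * n) + u)))

/-- (module C/C4, 100 lines; uses S_C4a, S_L3, S_R5) `S_C4`. A system `U` exists (`S_L3`, `sp n ≠ ⊥`). `hM` is the limit
(`Tendsto.limUnder_eq`), `= n⁻¹ ∑ e(c qN/n) gC(z_u)`. `ex (1/n)` is a root of unity (algebraic), so `io (zet n) = ex (1/n)`
(`io_ofC`), `io (zet n ^ j) = ex (j/n)`; `io (gO f m b z_u) = gC f m b z_u` (`S_R5`). So `hM` is the image under `io` of the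
right hand side of the formula, and `etaM = ofC hM` (`ofC_io`). -/
abbrev M_C4 : Prop := S_C4

/-! ## V. Distribution, class functions, coefficients, Galois action, integrality -/

/-- (module C/Dis, 220 lines; uses S_Lt, S_Tt, S_Red, S_O2, S_O3, S_O4) **The distribution relation for `2`.**
`n = NI b`, `A = cs (1/f) b`, `NI(pp b) = NI(ppb b) = 2n`. For `v ∈ A` let `q(v) = f² n ‖v‖²`, an integer (`f v ∈ Lam b`).
(i) `Tc(z/2) + Tc((z+1)/2) = ∑_A v⁻¹ e(q(v) z/2) (1 + e(q(v)/2)) = 2 ∑_(q(v) even)`. (ii) `q(v)` IS EVEN iff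
`f v ∈ 2 Lam(ppb b)` or `f v ∈ 2 Lam(pp b)`: let `x = f v = toC u/n`, `u ∈ cjI b`; `sp u * b = sp n * J` for an ideal `J` (`u b ⊆ n O`),
`NI J = q(v)` (norms; `S_O2`); `NI J` is even iff `J ≤ pp` or `J ≤ ppb` (if `NI J` is even then `J ⊔ sp 2 ≠ ⊤`, so `J` is in a maximal ideal
which contains `2`, `pp ppb = sp 2`; conversely norms); and `J ≤ pp` iff `u b ⊆ n pp` iff `x b ⊆ pp` (in `ℂ`) iff
`x ∈ 2 Lam(ppb b)` (`x b ppb ⊆ pp ppb = 2 O`; conversely multiply by `pp` and cancel `ppb pp = 2`: `x b pp ppb ⊆ 2 pp`). The same for `ppb`.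
(iii) both hold iff `J ≤ pp ⊓ ppb = pp * ppb = sp 2` (coprime) iff `x ∈ 2 Lam b`. (iv) `{v ∈ A | f v ∈ 2 Lam(ppb b)} = 2 cs (h/f) (ppb b)`: if
`v = 2v'` is on the left, `y = v' - h/f` has `2y = (v - 1/f) - (2h-1)/f ∈ Lam b ⊆ Lam(ppb b)` and `f y = f v/2 - h ∈ Lam(ppb b)`, `f` odd,
so `y ∈ Lam(ppb b)`; conversely `2 Lam(ppb b) ⊆ Lam b` because `2 ∈ ppb`. The same for `pp b` and for `b` (`2 cs (h/f) b`).
(v) `S_Tt` (4) and (1): `2 TT(2 cs (h/f) (ppb b)) (f² n) (z/2) = TT(cs ..) (4 f² n) (z/2) = TT(cs ..) (f² (2n)) z = Tc f (ppb b) h z`; for `b`: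
`TT(cs (h/f) b) (4 f² n) (z/2) = Tc f b h (2z)`. -/
def S_Dis : Prop := ∀ (k : ℕ) [SqK k] (f : ℕ) (b : Ideal (OO k)) (h : ℕ), Odd f → b ≠ ⊥ → 0 < h →
  (f : ℤ) ∣ 2 * h - 1 → ∀ z : ℂ, 0 < z.im →
    Tc f b 1 (z / 2) + Tc f b 1 ((z + 1) / 2) + Tc f b h (2 * z) =
      Tc f (ppb k * b) h z + Tc f (pp k * b) h z

/-- (module C/C5, 180 lines; uses S_Dis, S_Hom, S_Red, S_C4, S_R5, S_O2, S_O4, S_O6) `S_C5`. `ν = NI m` is odd (`S_O6` (3)), so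
`Tc f b 1 (ν (z+1)/2) = Tc f b 1 ((ν z + 1)/2)` (period). `S_Dis` for `m b` at `z` and for `b` at `ν z`; subtract:
`fr(b) (ThM(z/2) + ThM((z+1)/2)) + fr(b) ThS f m b h (2z) = fr(ppb b) ThS f m (ppb b) h z + fr(pp b) ThS f m (pp b) h z`
(`m (ppb b) = ppb (m b)`). By `S_Hom` (3) with `a = h` (`h` is prime to `f`): `fr(b') ThS f m b' h z = (fr(h b')/h) ThM f m (h b') z` for
`b' = b`, `ppb b`, `pp b` (prime to `f`: `NI = 2`, `f` odd; `fr(b') ≠ 0` by `S_R5`). Vertical limits at `r + i y` (`S_C4`; the denominators of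
`r/2`, `(r+1)/2`, `2r`, `r` are prime to `ν`: they divide `2 r.den`), `io (rO f b b') = fr(b')/fr(b)`, `io_inj`;
`sp h * (ppb k * b) = sp h * ppb k * b`. -/
abbrev M_C5 : Prop := S_C5

/-- (module C/C6, 180 lines; uses S_Hom, S_Red, S_Tt, S_C4, S_O2, S_O3, S_O6, S_L2, S_B12) `S_C6`. (1) `Ray f b b'`:
`sp α * b = sp α' * b'`, `f ∣ α - α'`, `Cop α f`. `cop_inv`: `β` with `f ∣ α β - 1`, `β ≠ 0` (`f ≥ 3`), so `f ∣ α' β - 1`;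
`sp (α β) * b = sp (α' β) * b'`, and `S_Hom` (4) twice. (2) `Tc(z + 1) = Tc(z)`, `ν (z+1) = ν z + ν`: `ThM(z + 1) = ThM(z)`, the same function
under the limit. (3) `Lam(cjI b) = conj Lam b` (`S_L2`), so `cs (1/f) (cjI b) = conj cs (1/f) b`; `S_Tt` (2), `NI (cjI b) = NI b`,
`cjI (m b) = cjI m cjI b` (`S_O3`), `fr f (cjI b) = conj (fr f b)` (`S_B12`). (4) `FM f (cjI m)`, `FB f (cjI b)` (`S_O3` (5)); limits
(`S_C4`): `hM f (cjI m) (cjI b) (-r) = conj (hM f m b r)` (`-conj (r + i y) = -r + i y`), and `io`. -/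
abbrev M_C6 : Prop := S_C6

/-- (module C/C7a, 130 lines; uses S_Lt, S_Bas, S_O2, S_O6) **The sets `vN`.** `v - 1/f ∈ Lam b` and `f² n ‖v‖² = j`: `f v ∈ Lam b`,
`f v = toC u/n`, `N u = n j`, and the number of such `u` is at most `(4 n j + 1)²` (`x² + y² ≤ 2 N u`), so the set is finite with
at most `C (j+1)²` elements; even better, to get the bound `C (n+1)²`. For `m b`: `v ≠ 0`, because `1/f ∉ Lam(m b)` (as in `S_C4a` (iii)). `‖v⁻¹‖ ≤ C`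
(`S_Lt` (6)). -/
def S_C7a : Prop := ∀ (k : ℕ) [SqK k] (f : ℕ) (m b : Ideal (OO k)), FM f m → FB f b →
  (1 / f : ℂ) ∉ Lam (m * b) ∧
  (∀ (n : ℕ) (v : ℂ), v ∈ vN f (m * b) n ↔
    v - 1 / f ∈ Lam (m * b) ∧ (f : ℝ) ^ 2 * NI (m * b) * ‖v‖ ^ 2 = n) ∧
  vN f (m * b) 0 = ∅ ∧ ∃ C : ℝ, ∀ n : ℕ, ‖cM f m b n‖ ≤ C * (n + 1) ^ 2

/-- (module C/C7, 150 lines; uses S_C7a, S_Lt, S_Tt, S_Red, S_Der, S_O2) `S_C7`. HOLOMORPHY: `S_Red` (2) and `S_Der` (1) for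
`m b` and `b`. SERIES: `fr(b) ThM = ∑_(cs (1/f) (m b)) v⁻¹ e(f² NI(m b) ‖v‖² z) - ν ∑_(cs (1/f) b) v⁻¹ e(f² NI b ‖v‖² ν z)`, `ν NI b = NI(m b)`,
`cs (1/f) b ⊆ cs (1/f) (m b)` (`lam_mono`): one absolutely convergent sum over `cs (1/f) (m b)` with the weight
`1 - ν [v - 1/f ∈ Lam b]`. Group by `n = f² NI(m b) ‖v‖²` (an integer: `f v ∈ Lam(m b)`): `HasSum.sigma` for the fibres, which are the finite
sets `vN f (m b) n`. The rest is `S_C7a`. -/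
abbrev M_C7 : Prop := S_C7

/-- (module C/C8, 150 lines; uses S_C4, S_C4a, S_C6, S_L3, S_L5, S_O2, S_O6, S_O7, S_E1, S_E6, S_E10) `S_C8`. `r = c/n` in lowest
terms, `ν = NI m`, `N = f n ν`. `S_E1`: `Psi τ N a'` for some `a'`, so `Psi τ f a'`, `Ray f a a'`, and (`S_O7`, `S_C6` (1))
`etaM f m (a b) r = etaM f m (a' b) r`. `U` a system for `(n)`, `b` (`S_L3`); it is also a system for `(n)`, `a' b` (`S_L5` with `N = n`, `a = a'`;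
`PrI a' n` by `S_O6` (2)). `S_C4` for `b` and for `a' b`. `τ (zet n ^ j) = zet n ^ (NI a' j)` (`S_E6`, `zet n ^ N = 1`), `τ (gO f m b z_u) =
gO f m (a' b) z_u` (`S_E10`: `N z_u = ν + f ν (n u) ∈ Lam b`; `z_u ∉ Lam(m b)` by `S_C4a`), `qN m (a' b) x = NI a' qN m b x`
(`NI(a' b) = NI a' NI b` and the integrality). -/
abbrev M_C8 : Prop := S_C8

/-- (module C/C9, 150 lines; uses S_C1, S_C4, S_C4a, S_C6, S_L3, S_D9, S_Den, S_O2, S_O6) `S_C9`. (i) `r.den` may be taken odd: let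
`r = b'/d` in lowest terms, `d` prime to `M`; there are `a`, `c` with `a d - b' c = 1`, `M ∣ c` (`d` is prime to `b' M`). `S_C1` at the rational number `1`:
`etaM((a + b')/(c + d)) = ε(d) (rO/a) (etaM_(ab)(1) - etaM_(ab)(0)) + etaM(b'/d) = etaM(b'/d)` (period, `S_C6` (2)). If `d` is
even then `c` is odd and `c + d` is odd; the denominator of `(a + b')/(c + d)` divides `c + d`, prime to `M` (`S_Den`).
(ii) `r = c/n`, `n` odd and prime to `M`, so to `ν`: `S_C4` with a system `U` (`S_L3`): `n⁻¹` and the `zet n ^ j` are `P`-integral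
(`n` odd: `UP P n`), and the `gO f m b z_u` are `P`-integral by `S_D9` (3): for `u' ∈ Lam(m b)`, `z = z_u + u'` is not
`Qp`: `α = n f ν` is odd, `¬ MP P (toO α)` (`MP P 2`), `α z = ν + f ν (n u) + n f (ν u') ∈ Lam b` (`ν ∈ m`: `Ideal.absNorm_mem`), but
`z ∉ Lam b` since `z_u ∉ Lam(m b)` (`S_C4a`); take `β = 1`. -/
abbrev M_C9 : Prop := S_C9

/-! ## VI. The input of part V -/

/-- (module C/ChR, 150 lines; uses S_O2, S_O6, S_O7, S_C6, S_C9) **Sums over the ray class group.** (1) `χ ⊤ = 1`: `χ ⊤ = χ (⊤ ⊤) =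
χ ⊤ ^ 2`, `χ ⊤ ^ j = 1`; `χ b ≠ 0` and `χ b`, `(χ b)⁻¹` are `Q`-integral for `b ≠ ⊥` prime to `f` (roots of unity). (2) for `c₀ ≠ ⊥` prime to `f`:
`b ↦` (the representative of `c₀ b` in `R`) is a permutation of `R` (injective by cancellation, `S_O7` (5)), `χ` and `etaM` are
class functions (`S_C6` (1)): `χ c₀ * ∑_(b ∈ R) χ b * etaM f m (c₀ b) r = ∑_(b ∈ R) χ(c₀ b) etaM f m (c₀ b) r = etaX f m R χ r`. (3) `S_C9` for
the representative `b'' ∈ R` of `c₀ b`, `IsLv f m {b''} M` (`NI b''` divides the product, `Finset.dvd_prod_of_mem`). -/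
def S_ChR : Prop := ∀ (k : ℕ) [SqK k] (f M : ℕ) (m : Ideal (OO k)) (R : Finset (Ideal (OO k))),
  FM f m → FR f R → IsRC f R → IsLv f m R M → ∀ χ : Ideal (OO k) → Om, IsChi f χ →
  (∀ b ∈ R, FB f b ∧ IsLv f m {b} M) ∧
  χ ⊤ = 1 ∧ (∀ b : Ideal (OO k), FB f b → χ b ≠ 0 ∧ ∀ Q : Ideal ZZ, Npr Q → UP Q (χ b)) ∧
  ∀ c₀ : Ideal (OO k), FB f c₀ →
    (∀ r : ℚ, χ c₀ * ∑ b ∈ R, χ b * etaM f m (c₀ * b) r = etaX f m R χ r) ∧
    ∀ b ∈ R, FB f (c₀ * b) ∧ ∀ r : ℚ, r.den.Coprime M → ∀ P : Ideal ZZ, Npr P → MP P 2 →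
      VP P (etaM f m (c₀ * b) r)

/-- (module C/V2, 180 lines; uses S_ChR, S_C1, S_C6, S_D9, S_Den, S_O4, S_O6) **(ii) of `S_V`.** The value `etaX((a r + b')/(c r + d))` and
`etaX(b'/d)` do not change if `g` is replaced by `T g = (a + c, b' + d; c, d)` (period); `a` even implies `c` odd: so let `a` be odd. `S_C1` for
`b ∈ R`, times `χ b`, summed: `etaX(g r) - etaX(b'/d) = ∑ χ b u_b (etaM_(ab)(r) - etaM_(ab)(0))`, `u_b = ε(d) rO f b (ab)/a`. Modulo `P`: `u_b = 1`,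
because `ε(d) = ± 1` (`d` is prime to `D ∣ M`), `a` is odd and `rO f b (ab) = ± 1` modulo `2` (`S_D9` (1), `a ∉ pp`; `1 = -1` modulo `P`). The
`etaM_(ab)` are in `V_P` (`S_ChR` (4)). So the sum is `∑ χ b (etaM_(ab)(r) - etaM_(ab)(0)) = χ(a)⁻¹ (etaX(r) - etaX(0))` (`S_ChR` (4),
`c₀ = sp a`), and `χ (sp a) χ (sp d) = χ (sp (a d)) = χ ⊤ = 1` (`f ∣ a d - 1`: `Ray f (sp (a d)) ⊤`). -/
def S_V2 : Prop :=
  ∀ (k : ℕ) [SqK k] (f M : ℕ) (m : Ideal (OO k)) (R : Finset (Ideal (OO k))), FM f m → FR f R →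
    IsRC f R → IsLv f m R M → ∀ χ : Ideal (OO k) → Om, IsChi f χ →
    ∀ P : Ideal ZZ, AbP k P → ∀ (a b c d : ℤ), G0 M a b c d → ∀ r : ℚ, r.den.Coprime M →
      MP P (etaX f m R χ ((a * r + b) / (c * r + d)) - χ (sp (d : OO k)) * etaX f m R χ r -
        (etaX f m R χ (b / d) - χ (sp (d : OO k)) * etaX f m R χ 0))

/-- (module C/V4, 200 lines; uses S_ChR, S_C5, S_C6, S_D9, S_R5, S_O2, S_O4, S_O6, S_O7) **(iv) of `S_V`** (modulo `2 V_P`: `TP P 2`). Let `h` be an ODD positive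
inverse of `2` modulo `f` (`(f+1)/2` or `(f+1)/2 + f`). `S_C5` for `b ∈ R`, times `χ b`, summed over `R`. Modulo `2 V_P` (`P` above `pp`; `1 = -1` modulo `2`):
`rO f b (h b)/h = 1` (`S_D9` (1), `h ∉ pp`; `h` odd: `1/h = 1` modulo `2`), `rO f b (h ppb b)/h = 1` (`sp h * ppb` is not `≤ pp`: `pp` is prime,
`ppb` is not `≤ pp`), and `rO f b (h pp b)/h = 0`: with `b₁ = h b`, `rO f b (pp b₁) = rO f b b₁ / rO f (pp b₁) b₁` (`S_R5`, `io_inj`: quotients of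
the `fr`), and `2 rO f (pp b₁) b₁ = ± 1` modulo `2` (`S_D9` (2)) is a unit, so `rO f b (pp b₁)` is `2` times a `P`-integral number. All `etaM` are in
`V_P` (`S_ChR` (4) with `c₀ = sp h`, `sp h * ppb`, `sp h * pp`; the denominator of `2r` is prime to `M`). So
`etaX(r/2) + etaX((r+1)/2) + χ(h)⁻¹ etaX(2r) - χ(h ppb)⁻¹ etaX(r)` is in `2 V_P`; `χ(h) χ(2) = 1` (`Ray f (sp (2h)) ⊤`), `χ(pp) χ(ppb) = χ(sp 2)`
(`S_O4`), so `χ(h)⁻¹ = χ(2)`, `χ(h ppb)⁻¹ = χ(2) χ(ppb)⁻¹ = χ(pp)`. -/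
def S_V4 : Prop :=
  ∀ (k : ℕ) [SqK k] (f M : ℕ) (m : Ideal (OO k)) (R : Finset (Ideal (OO k))), FM f m → FR f R →
    IsRC f R → IsLv f m R M → ∀ χ : Ideal (OO k) → Om, IsChi f χ →
    ∀ P : Ideal ZZ, AbP k P → ∀ r : ℚ, r.den.Coprime M →
      TP P 2 (etaX f m R χ (r / 2) + etaX f m R χ ((r + 1) / 2) +
        χ (sp 2) * etaX f m R χ (2 * r) - χ (pp k) * etaX f m R χ r)

/-- (module C/V, 60 lines; uses S_V2, S_V4, S_ChR, S_C6, S_Den) `S_V`. The first claim: `S_ChR` (`c₀ = ⊤`, `⊤ * b = b`); the period: `S_C6` (2);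
the denominators: `S_Den`. -/
abbrev M_V : Prop := S_V

end Pool.Agent.DK.C
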