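import Pool.Agent.Lib.DK.C.Spec

/-!
# THEOREM DK (MP_d0239a_nt), Part C: module V4

Part (iv) of `S_V`: the Hecke relation for `2`, modulo `2 V_P`, `P` above `pp`.
-/

set_option autoImplicit false

open Filter Topology
open scoped Pointwise

noncomputable section

namespace Pool.Agent.DK.C

open Pool.Agent.MuZ Pool.Agent.FW NumberField
open Pool.Agent.DI (io ofC io_inj exists_io io_ofC ofC_io VP MP UP TP ex sqr sqr_sq kap)

/-! ## The ideal `2 V_P` -/

private theorem tp_add {P : Ideal ZZ} [P.IsPrime] {x y : Om} (hx : TP P 2 x) (hy : TP P 2 y) :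
    TP P 2 (x + y) := by
  obtain ⟨a, ha, rfl⟩ := hx
  obtain ⟨b, hb, rfl⟩ := hy
  exact ⟨a + b, ha.add hb, by ring⟩

private theorem tp_sub {P : Ideal ZZ} [P.IsPrime] {x y : Om} (hx : TP P 2 x) (hy : TP P 2 y) :
    TP P 2 (x - y) := by
  obtain ⟨a, ha, rfl⟩ := hx
  obtain ⟨b, hb, rfl⟩ := hy
  exact ⟨a - b, ha.sub hb, by ring⟩

private theorem tp_mul {P : Ideal ZZ} [P.IsPrime] {x y : Om} (hx : TP P 2 x) (hy : VP P y) :
    TP P 2 (x * y) := by
  obtain ⟨a, ha, rfl⟩ := hx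
  exact ⟨a * y, ha.mul hy, by ring⟩

private theorem tp_sum {P : Ideal ZZ} [P.IsPrime] {ι : Type*} (s : Finset ι) (F : ι → Om)
    (h : ∀ i ∈ s, TP P 2 (F i)) : TP P 2 (∑ i ∈ s, F i) := by
  classical
  induction s using Finset.induction_on with
  | empty => exact ⟨0, DI.VP.zero, by simp⟩
  | insert a s ha ih =>
    rw [Finset.sum_insert ha]
    exact tp_add (h a (Finset.mem_insert_self a s))
      (ih fun i hi => h i (Finset.mem_insert_of_mem hi))

private theorem tp_mp {P : Ideal ZZ} [P.IsPrime] (h2 : MP P 2) {x : Om} (hx : TP P 2 x) :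
    MP P x := by
  obtain ⟨a, ha, rfl⟩ := hx
  exact DI.MP.mul_right h2 ha

/-- An odd number is a unit. -/
private theorem odd_up {P : Ideal ZZ} [P.IsPrime] (h2 : MP P 2) {h : ℕ} (hh : Odd h) :
    UP P (h : Om) := by
  refine ⟨DI.VP.nat h, fun hm => ?_⟩
  obtain ⟨j, rfl⟩ := hh
  have e : (1 : Om) = ((2 * j + 1 : ℕ) : Om) - 2 * (j : Om) := by
    push_cast
    ring
  have h1 : MP P (1 : Om) := by
    rw [e]
    exact DI.MP.sub hm (DI.MP.mul_right h2 (DI.VP.nat j))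
  exact DI.MP.one_not h1

/-- `x = ± 1` modulo `2` implies that `x` is a unit. -/
private theorem pm_up {P : Ideal ZZ} [P.IsPrime] (h2 : MP P 2) {x : Om}
    (hx : TP P 2 (x - 1) ∨ TP P 2 (x + 1)) : UP P x := by
  rcases hx with hx | hx
  · exact DI.UP.congr DI.UP.one (tp_mp h2 hx)
  · refine DI.UP.congr (DI.UP.neg DI.UP.one) ?_
    rw [sub_neg_eq_add]
    exact tp_mp h2 hx

/-- `x = ± 1` modulo `2` and `h` odd imply `x / h = 1` modulo `2`. -/
private theorem pm_div {P : Ideal ZZ} [P.IsPrime] (h2 : MP P 2) {x : Om}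
    (hx : TP P 2 (x - 1) ∨ TP P 2 (x + 1)) {h : ℕ} (hh : Odd h) : TP P 2 (x / h - 1) := by
  have hu := odd_up h2 hh
  have h0 : (h : Om) ≠ 0 := hu.ne_zero
  have hi : VP P (h : Om)⁻¹ := hu.inv.1
  obtain ⟨j, hj⟩ := hh
  have hj' : (h : Om) = 2 * j + 1 := by
    rw [hj]
    push_cast
    ring
  rcases hx with ⟨y, hy, e⟩ | ⟨y, hy, e⟩
  · refine ⟨(y - j) * (h : Om)⁻¹, (hy.sub (DI.VP.nat j)).mul hi, ?_⟩
    have ex : x = 2 * y + 1 := by linear_combination e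
    field_simp
    rw [ex, hj']
    ring
  · refine ⟨(y - j - 1) * (h : Om)⁻¹, ((hy.sub (DI.VP.nat j)).sub DI.VP.one).mul hi, ?_⟩
    have ex : x = 2 * y - 1 := by linear_combination e
    field_simp
    rw [ex, hj']
    ring

/-! ## Arithmetic -/

/-- An odd inverse of `2` modulo `f`. -/
private theorem exists_h {f : ℕ} (hf : Odd f) :
    ∃ h : ℕ, 0 < h ∧ Odd h ∧ (f : ℤ) ∣ 2 * h - 1 := by
  obtain ⟨g, hg⟩ := hf
  rcases Nat.even_or_odd (g + 1) with he | ho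
  · refine ⟨g + 1 + f, by omega, ?_, 3, ?_⟩
    · rw [hg]
      exact he.add_odd ⟨g, rfl⟩
    · rw [hg]
      push_cast
      ring
  · refine ⟨g + 1, by omega, ho, 1, ?_⟩
    rw [hg]
    push_cast
    ring

section

variable {k : ℕ} [SqK k]

private theorem fb_mul (h6 : S_O6) {f : ℕ} {a b : Ideal (OO k)} (ha : FB f a) (hb : FB f b) :
    FB f (a * b) :=
  ⟨fun h => by
    rcases Ideal.mul_eq_bot.1 h with h | h
    · exact ha.ne h
    · exact hb.ne h, ((h6 k).1 f a b).2 ⟨ha.cop, hb.cop⟩⟩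

omit [SqK k] in
private theorem cop_h {f h : ℕ} (hd : (f : ℤ) ∣ 2 * h - 1) : Cop (h : OO k) f := by
  unfold Cop
  rw [Nm_nat]
  obtain ⟨c, hc⟩ := hd
  exact IsCoprime.pow_left ⟨2, -c, by linear_combination hc⟩

private theorem fb_sp (h6 : S_O6) {f h : ℕ} (hf : 0 < f) (hh : 0 < h)
    (hd : (f : ℤ) ∣ 2 * h - 1) : FB f (sp (h : OO k)) := by
  refine ⟨?_, ((h6 k).2.2.2.1 f _ hf).2 (cop_h hd)⟩
  intro hb
  have h1 : (h : OO k) = 0 := Ideal.span_singleton_eq_bot.1 hb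
  have h2 : ((h : OO k)).re = 0 := by rw [h1]; rfl
  rw [re_nat] at h2
  omega

private theorem fb_pp (h4 : S_O4) (h6 : S_O6) {f : ℕ} (hf : Odd f) :
    FB f (pp k) ∧ FB f (ppb k) := by
  obtain ⟨-, -, -, -, n1, n2, -, b1, b2, -, -⟩ := h4 k
  have hf0 : 0 < f := hf.pos
  have hc : Nat.Coprime 2 f := (Nat.coprime_two_left).2 hf
  exact ⟨⟨b1, ((h6 k).2.2.1 f _ hf0).2 (by rw [n1]; exact hc)⟩,
    ⟨b2, ((h6 k).2.2.1 f _ hf0).2 (by rw [n2]; exact hc)⟩⟩

private theorem not_le_pp (h4 : S_O4) {h : ℕ} (hh : Odd h) :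
    ¬ sp (h : OO k) ≤ pp k ∧ ¬ sp (h : OO k) * ppb k ≤ pp k := by
  obtain ⟨-, -, p1, -, -, -, ht, -, -, m1, -⟩ := h4 k
  have a1 : ¬ sp (h : OO k) ≤ pp k := by
    intro hle
    have h1 := (m1 _).1 (hle (Ideal.mem_span_singleton_self (h : OO k)))
    rw [re_nat] at h1
    obtain ⟨j, hj⟩ := hh
    omega
  refine ⟨a1, fun hle => ?_⟩
  rcases (p1.mul_le).1 hle with h1 | h1
  · exact a1 h1
  · rw [sup_eq_left.2 h1] at ht
    exact p1.ne_top ht

omit [SqK k] in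
/-- `2 h` is in the class of `1`. -/
private theorem ray_top {f h : ℕ} (hh : 0 < h) (hd : (f : ℤ) ∣ 2 * h - 1) :
    Ray f (sp (2 : OO k) * sp (h : OO k)) ⊤ := by
  have hc : Cop (2 * (h : OO k)) f := by
    refine cop_mul ?_ (cop_h hd)
    unfold Cop
    have h2 : Nm (2 : OO k) = 4 := by
      have := Nm_nat (k := k) 2
      rw [Nat.cast_ofNat] at this
      rw [this]
      norm_num
    rw [h2]
    obtain ⟨c, hc⟩ := hd
    have h3 : IsCoprime ((2 : ℤ) ^ 2) (f : ℤ) :=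
      IsCoprime.pow_left ⟨h, -c, by linear_combination hc⟩
    simpa using h3
  refine ⟨1, 2 * (h : OO k), one_ne_zero, ?_, cop_one f, hc, ?_, ?_⟩
  · intro h0
    have h1 : (2 * (h : OO k)).re = 0 := by rw [h0]; rfl
    have e : (2 : OO k) * (h : OO k) = ((2 * h : ℕ) : OO k) := by
      push_cast
      ring
    rw [e, re_nat] at h1
    omega
  · obtain ⟨c, hc⟩ := hd
    refine ⟨-(c : OO k), ?_⟩
    have h1 : (((2 * h - 1 : ℤ)) : OO k) = ((f * c : ℤ) : OO k) := by rw [hc]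
    push_cast at h1
    linear_combination -h1
  · rw [Ideal.span_singleton_one, Ideal.top_mul, Ideal.mul_top,
      Ideal.span_singleton_mul_span_singleton]

omit [SqK k] in
private theorem nim_dvd {f M : ℕ} {m : Ideal (OO k)} {R : Finset (Ideal (OO k))}
    (hl : IsLv f m R M) : NI m ∣ M := by
  refine dvd_trans ?_ hl.dvd
  unfold lev
  exact Dvd.dvd.mul_left ((dvd_mul_right _ _).trans (dvd_pow_self _ (by norm_num))) _

/-- The quotients of the framings. -/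
private theorem ro_div (h5 : S_R5) {f : ℕ} {m b b₁ b₂ : Ideal (OO k)} (hm : FM f m) (hb : FB f b)
    (hb₁ : FB f b₁) (hb₂ : FB f b₂) : rO f b b₂ * rO f b₂ b₁ = rO f b b₁ := by
  apply io_inj
  have e1 := h5 k f m b b₂ hm.odd hm.three hm.ne hb.ne hb₂.ne hm.two hm.cop hb.cop hb₂.cop
  have e2 := h5 k f m b₂ b₁ hm.odd hm.three hm.ne hb₂.ne hb₁.ne hm.two hm.cop hb₂.cop hb₁.cop
  have e3 := h5 k f m b b₁ hm.odd hm.three hm.ne hb.ne hb₁.ne hm.two hm.cop hb.cop hb₁.cop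
  rw [map_mul, e1.2.1, e2.2.1, e3.2.1]
  have n1 := e1.1
  have n2 := e2.1
  field_simp

end

/-- **Part (iv) of `S_V`**, modulo `2 V_P`. -/
private theorem main (hR : S_ChR) (hC5 : S_C5) (hD9 : S_D9) (h5 : S_R5) (h4 : S_O4) (h6 : S_O6)
    (k : ℕ) [SqK k] (f M : ℕ) (m : Ideal (OO k)) (R : Finset (Ideal (OO k))) (hm : FM f m)
    (hF : FR f R) (hRC : IsRC f R) (hl : IsLv f m R M) (χ : Ideal (OO k) → Om) (hχ : IsChi f χ)
    (P : Ideal ZZ) (hP : AbP k P) (r : ℚ) (hr : r.den.Coprime M) :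
    TP P 2 (etaX f m R χ (r / 2) + etaX f m R χ ((r + 1) / 2) +
      χ (sp 2) * etaX f m R χ (2 * r) - χ (pp k) * etaX f m R χ r) := by
  have hPr : P.IsPrime := hP.1.1
  have hP2 : MP P 2 := hP.2.1
  obtain ⟨h, h0, ho, hd⟩ := exists_h hm.odd
  have hf0 : 0 < f := hm.odd.pos
  obtain ⟨c1, cT, c3, c4⟩ := hR k f M m R hm hF hRC hl χ hχ
  obtain ⟨fpp, fppb⟩ := fb_pp (k := k) h4 h6 hm.odd
  have fh : FB f (sp (h : OO k)) := fb_sp h6 hf0 h0 hd
  have fhp : FB f (sp (h : OO k) * ppb k) := fb_mul h6 fh fppb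
  have fhq : FB f (sp (h : OO k) * pp k) := fb_mul h6 fh fpp
  have hr' : r.den.Coprime (NI m) := hr.coprime_dvd_right (nim_dvd hl)
  have h2r : (2 * r).den.Coprime M := by
    refine Nat.Coprime.coprime_dvd_left ?_ hr
    have := Rat.mul_den_dvd 2 r
    simpa using this
  -- the characters
  have x1 : χ (sp 2) * χ (sp (h : OO k)) = 1 := by
    rw [← hχ.mul, ← cT]
    have hn : sp (2 : OO k) * sp (h : OO k) ≠ ⊥ := by
      intro hb
      rcases Ideal.mul_eq_bot.1 hb with h1 | h1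
      · rw [← (h4 k).1] at h1
        rcases Ideal.mul_eq_bot.1 h1 with h2 | h2
        · exact fpp.ne h2
        · exact fppb.ne h2
      · exact fh.ne h1
    have f2 : FB f (sp (2 : OO k)) := by
      rw [← (h4 k).1]
      exact fb_mul h6 fpp fppb
    refine hχ.ray _ _ hn top_ne_bot ((fb_mul h6 f2 fh).cop) ?_ (ray_top h0 hd)
    unfold PrI
    rw [top_sup_eq]
  have x2 : χ (pp k) * χ (sp (h : OO k) * ppb k) = 1 := by
    rw [hχ.mul, ← x1, ← (h4 k).1, hχ.mul]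
    ring
  have y1 : ∑ b ∈ R, χ b * etaM f m (sp (h : OO k) * b) (2 * r) =
      χ (sp 2) * etaX f m R χ (2 * r) := by
    rw [← (c4 _ fh).1 (2 * r), ← mul_assoc, x1, one_mul]
  have y2 : ∑ b ∈ R, χ b * etaM f m (sp (h : OO k) * ppb k * b) r =
      χ (pp k) * etaX f m R χ r := by
    rw [← (c4 _ fhp).1 r, ← mul_assoc, x2, one_mul]
  -- the sum
  have key : etaX f m R χ (r / 2) + etaX f m R χ ((r + 1) / 2) +
      χ (sp 2) * etaX f m R χ (2 * r) - χ (pp k) * etaX f m R χ r =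
      ∑ b ∈ R, χ b * ((rO f b (sp (h : OO k) * ppb k * b) / h - 1) *
        etaM f m (sp (h : OO k) * ppb k * b) r +
        rO f b (sp (h : OO k) * pp k * b) / h * etaM f m (sp (h : OO k) * pp k * b) r -
        (rO f b (sp (h : OO k) * b) / h - 1) * etaM f m (sp (h : OO k) * b) (2 * r)) := by
    rw [← y1, ← y2]
    unfold etaX
    rw [← Finset.sum_add_distrib, ← Finset.sum_add_distrib, ← Finset.sum_sub_distrib]
    refine Finset.sum_congr rfl fun b hb => ?_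
    have e := hC5 k f m b hm (c1 b hb).1 h h0 hd r hr'
    linear_combination (χ b) * e
  rw [key]
  refine tp_sum R _ fun b hb => ?_
  have fb : FB f b := (c1 b hb).1
  have vχ : VP P (χ b) := ((c3 b fb).2 P hP.1).1
  have v1 := ((c4 _ fh).2 b hb).2 (2 * r) h2r P hP.1 hP2
  have v2 := ((c4 _ fhp).2 b hb).2 r hr P hP.1 hP2
  have v3 := ((c4 _ fhq).2 b hb).2 r hr P hP.1 hP2
  obtain ⟨d1, d2, -⟩ := hD9 k f hm.odd hm.three P hP.1 hP2
  obtain ⟨nl1, nl2⟩ := not_le_pp (k := k) h4 ho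
  have w1 := d1 (sp (h : OO k)) b fh.ne fb.ne fh.cop fb.cop (Or.inl ⟨hP, nl1⟩)
  have w2 := d1 (sp (h : OO k) * ppb k) b fhp.ne fb.ne fhp.cop fb.cop (Or.inl ⟨hP, nl2⟩)
  have fb₁ : FB f (sp (h : OO k) * b) := fb_mul h6 fh fb
  have fb₂ : FB f (pp k * (sp (h : OO k) * b)) := fb_mul h6 fpp fb₁
  have w3 := (d2 (sp (h : OO k) * b) fb₁.ne fb₁.cop).1 hP
  have t1 : TP P 2 (rO f b (sp (h : OO k) * b) / h - 1) := pm_div hP2 w1 ho
  have t2 : TP P 2 (rO f b (sp (h : OO k) * ppb k * b) / h - 1) := pm_div hP2 w2 ho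
  have t3 : TP P 2 (rO f b (sp (h : OO k) * pp k * b) / h) := by
    have e1 : sp (h : OO k) * pp k * b = pp k * (sp (h : OO k) * b) := by
      rw [mul_comm (sp (h : OO k)) (pp k), mul_assoc]
    rw [e1]
    have e2 := ro_div h5 hm fb fb₁ fb₂
    have u := pm_up hP2 w3
    have u0 := u.ne_zero
    have uh := odd_up hP2 ho
    have uh0 := uh.ne_zero
    refine ⟨rO f b (sp (h : OO k) * b) *
      (rO f (pp k * (sp (h : OO k) * b)) (sp (h : OO k) * b) * 2)⁻¹ * (h : Om)⁻¹,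
      ((pm_up hP2 w1).1.mul u.inv.1).mul uh.inv.1, ?_⟩
    rw [← e2]
    have u1 : rO f (pp k * (sp (h : OO k) * b)) (sp (h : OO k) * b) ≠ 0 := fun h' => by
      rw [h', zero_mul] at u0
      exact u0 rfl
    field_simp
  rw [mul_comm]
  exact tp_mul (tp_sub (tp_add (tp_mul t2 v2) (tp_mul t3 v3)) (tp_mul t1 v1)) vχ

set_option linter.unusedVariables false in
/-- Module V4: part (iv) of `S_V`. -/
theorem tV4 (hR : S_ChR) (hC5 : S_C5) (hC6 : S_C6) (hD9 : S_D9) (h5 : S_R5) (h2 : S_O2)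
    (h4 : S_O4) (h6 : S_O6) (h7 : S_O7) : S_V4 := by
  intro k _ f M m R hm hF hRC hl χ hχ P hP r hr
  exact main hR hC5 hD9 h5 h4 h6 k f M m R hm hF hRC hl χ hχ P hP r hr

end Pool.Agent.DK.C
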